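import Pool.Agent.H414.GE.Spec

/-! Project GE: Chebyshev's bounds for the sum of the reciprocals of the moduli. -/

set_option autoImplicit false

namespace Pool.Agent.H414.GE

open Finset
open Pool.Agent.H414.LT (primesUpTo blk kk)
open Pool.Agent.H414.DF (e2)

namespace Ch

theorem bet_eq (l₁ l₂ : ℕ) :
    bet l₁ l₂ = ∑ l ∈ Ico l₁ l₂, ∑ q ∈ blk l, 1 / ((q : ℝ) - 1) := by
  unfold bet
  have hmap : ∀ q ∈ Qs l₁ l₂, kk q ∈ Ico l₁ l₂ := by
    intro q hq
    unfold Qs at hq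
    rw [mem_filter, mem_Ioc] at hq
    obtain ⟨⟨h1, h2⟩, h3⟩ := hq
    obtain ⟨h4, h5⟩ := LT.two_le_kk h3.two_le
    have h6 : 2 ^ l₁ < 2 ^ (kk q + 1) := by omega
    have h7 : 2 ^ kk q < 2 ^ l₂ := by omega
    rw [Nat.pow_lt_pow_iff_right (by norm_num)] at h6 h7
    rw [mem_Ico]
    omega
  rw [← sum_fiberwise_of_maps_to hmap]
  refine sum_congr rfl fun l hl => ?_
  have hl' := mem_Ico.1 hl
  refine sum_congr ?_ fun _ _ => rfl
  ext q
  rw [mem_filter, LT.mem_blk]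
  unfold Qs
  rw [mem_filter, mem_Ioc]
  constructor
  · rintro ⟨⟨-, h3⟩, h4⟩
    exact ⟨h3, h4⟩
  · rintro ⟨h3, h4⟩
    obtain ⟨h5, h6⟩ := LT.two_le_kk h3.two_le
    rw [h4] at h5 h6
    have h7 : 2 ^ l₁ ≤ 2 ^ l := Nat.pow_le_pow_right (by norm_num) hl'.1
    have h8 : 2 ^ (l + 1) ≤ 2 ^ l₂ := Nat.pow_le_pow_right (by norm_num) hl'.2
    exact ⟨⟨⟨by omega, by omega⟩, h3⟩, h4⟩

theorem blk_range {q l : ℕ} (h : q ∈ blk l) : 2 ^ l + 1 ≤ q ∧ q ≤ 2 ^ (l + 1) := by
  obtain ⟨h3, h4⟩ := LT.mem_blk.1 h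
  obtain ⟨h5, h6⟩ := LT.two_le_kk h3.two_le
  rw [h4] at h5 h6
  exact ⟨h5, h6⟩

theorem card_blk (l : ℕ) : l * (blk l).card ≤ 2 ^ (l + 2) := by
  have h1 : (2 ^ l) ^ (blk l).card ≤ ∏ q ∈ blk l, q := by
    rw [← prod_const]
    exact prod_le_prod' fun q hq => by have := blk_range hq; omega
  have h2 : ∏ q ∈ blk l, q ≤ primorial (2 ^ (l + 1)) := by
    unfold primorial
    refine prod_le_prod_of_subset_of_one_le' ?_ ?_
    · intro q hq
      have h3 := blk_range hq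
      have h4 := (LT.mem_blk.1 hq).1
      simp only [mem_filter, mem_range]
      exact ⟨by omega, h4⟩
    · intro q hq _
      simp only [mem_filter] at hq
      exact hq.2.one_lt.le
  have h3 := primorial_le_four_pow (2 ^ (l + 1))
  have h4 : (4 : ℕ) ^ (2 ^ (l + 1)) = 2 ^ (2 ^ (l + 2)) := by
    rw [show (4 : ℕ) = 2 ^ 2 by norm_num, ← pow_mul]
    congr 1
    ring
  rw [h4] at h3
  have h5 := (h1.trans h2).trans h3
  rw [← pow_mul] at h5
  exact (Nat.pow_le_pow_iff_right (by norm_num)).1 h5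

end Ch

open Ch in
theorem ch (hCHE : LT.S_CHE) : S_CH := by
  obtain ⟨c, hc, hche⟩ := hCHE
  refine ⟨c / 2, 576, by positivity, ?_⟩
  intro k l₁ l₂ lam hk hA
  obtain ⟨m, hm⟩ : ∃ m, l₂ = l₁ + m := ⟨l₂ - l₁, by have := hA.lt; omega⟩
  have hlow := hA.low
  have hup := hA.up
  have hm2 : m ^ 2 ≤ k := by
    have h1 := hA.sq
    have h2 : l₂ - l₁ = m := by omega
    rwa [h2] at h1
  have h24 : 24 * m ≤ k := by
    by_contra hcon
    push Not at hcon
    have h1 : k * k < 24 * m * (24 * m) := Nat.mul_self_lt_mul_self hcon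
    have h2 : 576 * k ≤ k * k := Nat.mul_le_mul_right k hk
    have h3 : 24 * m * (24 * m) = 576 * m ^ 2 := by ring
    omega
  have hl2k : l₂ < k := by omega
  have hk0 : (0 : ℝ) < k := by exact_mod_cast (by omega : 0 < k)
  have hml : (l₂ : ℝ) - l₁ = m := by rw [hm]; push_cast; ring
  have hcard : (Ico l₁ l₂).card = m := by rw [Nat.card_Ico]; omega
  refine ⟨hl2k, ?_, ?_⟩
  · rw [bet_eq, hml]
    have h1 : ∀ l ∈ Ico l₁ l₂, c / 2 / k ≤ ∑ q ∈ blk l, 1 / ((q : ℝ) - 1) := by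
      intro l hl
      have hl' := mem_Ico.1 hl
      have hpos : (0 : ℝ) < 2 ^ (l + 1) := by positivity
      have h2 : ∀ q ∈ blk l, 1 / (2 : ℝ) ^ (l + 1) ≤ 1 / ((q : ℝ) - 1) := by
        intro q hq
        obtain ⟨h3, h4⟩ := blk_range hq
        have h5 : (2 : ℝ) ^ l + 1 ≤ q := by exact_mod_cast h3
        have h6 : (q : ℝ) ≤ 2 ^ (l + 1) := by exact_mod_cast h4
        have h7 : (0 : ℝ) < 2 ^ l := by positivity
        exact one_div_le_one_div_of_le (by linarith) (by linarith)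
      have h3 := Finset.card_nsmul_le_sum (blk l) _ _ h2
      rw [nsmul_eq_mul] at h3
      refine le_trans ?_ h3
      have h4 := hche l
      have hlk : (l : ℝ) + 1 ≤ k := by exact_mod_cast (by omega : l + 1 ≤ k)
      have hl0 : (0 : ℝ) < (l : ℝ) + 1 := by positivity
      have h5 : c * 2 ^ l / (l + 1) * (1 / 2 ^ (l + 1)) ≤ ((blk l).card : ℝ) * (1 / 2 ^ (l + 1)) :=
        mul_le_mul_of_nonneg_right h4 (by positivity)
      refine le_trans ?_ h5
      have h6 : c * 2 ^ l / ((l : ℝ) + 1) * (1 / 2 ^ (l + 1)) = c / 2 / (l + 1) := by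
        rw [pow_succ]
        field_simp
      rw [h6]
      exact div_le_div_of_nonneg_left (by positivity) hl0 hlk
    have h2 := Finset.card_nsmul_le_sum (Ico l₁ l₂) _ _ h1
    rw [hcard, nsmul_eq_mul] at h2
    refine le_trans (le_of_eq ?_) h2
    ring
  · rw [bet_eq]
    have h1 : ∀ l ∈ Ico l₁ l₂, ∑ q ∈ blk l, 1 / ((q : ℝ) - 1) ≤ 12 / k := by
      intro l hl
      have hl' := mem_Ico.1 hl
      have hl0 : 0 < l := by omega
      have hlR : (0 : ℝ) < l := by exact_mod_cast hl0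
      have h2 : ∀ q ∈ blk l, 1 / ((q : ℝ) - 1) ≤ 1 / (2 : ℝ) ^ l := by
        intro q hq
        obtain ⟨h3, h4⟩ := blk_range hq
        have h5 : (2 : ℝ) ^ l + 1 ≤ q := by exact_mod_cast h3
        exact one_div_le_one_div_of_le (by positivity) (by linarith)
      have h3 := Finset.sum_le_card_nsmul (blk l) _ _ h2
      rw [nsmul_eq_mul] at h3
      refine h3.trans ?_
      have h4 : (l : ℝ) * ((blk l).card : ℝ) ≤ 4 * 2 ^ l := by
        have := card_blk l
        have h5 : ((l * (blk l).card : ℕ) : ℝ) ≤ ((2 ^ (l + 2) : ℕ) : ℝ) := by exact_mod_cast this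
        push_cast at h5
        rw [pow_add] at h5
        linarith
      have h6 : ((blk l).card : ℝ) * (1 / 2 ^ l) ≤ 4 / l := by
        rw [mul_one_div, div_le_div_iff₀ (by positivity) hlR]
        linarith
      refine h6.trans ?_
      rw [div_le_div_iff₀ hlR hk0]
      have h7 : (k : ℝ) ≤ 3 * l := by exact_mod_cast (by omega : k ≤ 3 * l)
      linarith
    have h2 := Finset.sum_le_card_nsmul (Ico l₁ l₂) _ _ h1
    rw [hcard, nsmul_eq_mul] at h2
    refine h2.trans ?_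
    have h3 : (24 : ℝ) * m ≤ k := by exact_mod_cast h24
    rw [mul_div_assoc', div_le_div_iff₀ hk0 (by norm_num)]
    linarith

end Pool.Agent.H414.GE
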