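import Pool.Agent.H414.GE.Spec

/-! Choice of the classes. -/

set_option autoImplicit false

namespace Pool.Agent.H414.GE

open Finset
open Pool.Agent.H414.LT (primesUpTo blk kk)
open Pool.Agent.H414.DF (e2)

namespace Cls

/-- the sum over a class minus the mean value -/
noncomputable def D (k : ℕ) (f : ℕ → ℂ) (q u : ℕ) : ℂ :=
  ∑ n ∈ (blk k).filter (fun n => n ≡ u [MOD q]), f n - (∑ n ∈ blk k, f n) / ((q : ℂ) - 1)

/-- the reduced residues -/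
def Un (q : ℕ) : Finset ℕ := (range q).filter (Nat.Coprime q)

theorem card_units {q : ℕ} (hq : q.Prime) : (Un q).card = q - 1 := by
  rw [← Nat.totient_prime hq]
  rfl

theorem mem_Un {q u : ℕ} : u ∈ Un q ↔ u < q ∧ Nat.Coprime q u := by
  unfold Un
  rw [mem_filter, mem_range]

theorem mem_blk' {k n : ℕ} : n ∈ blk k ↔ (2 ^ k < n ∧ n ≤ 2 ^ (k + 1)) ∧ n.Prime := by
  unfold LT.blk
  rw [mem_filter, mem_Ioc]

theorem card_blk (k : ℕ) : (blk k).card ≤ 2 ^ k := by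
  unfold LT.blk
  refine (card_filter_le _ _).trans ?_
  rw [Nat.card_Ioc, pow_succ]
  omega

theorem mem_Qs {q l₁ l₂ : ℕ} : q ∈ Qs l₁ l₂ ↔ (2 ^ l₁ < q ∧ q ≤ 2 ^ l₂) ∧ q.Prime := by
  unfold Qs
  rw [mem_filter, mem_Ioc]

theorem cop {k n q : ℕ} (hn : n ∈ blk k) (hq : q.Prime) (hqk : q ≤ 2 ^ k) : Nat.Coprime q n := by
  rw [mem_blk'] at hn
  rw [Nat.coprime_primes hq hn.2]
  omega

theorem sum_class {k q : ℕ} (f : ℕ → ℂ) (hq : q.Prime) (hqk : q ≤ 2 ^ k) :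
    ∑ u ∈ Un q, ∑ n ∈ (blk k).filter (fun n => n ≡ u [MOD q]), f n = ∑ n ∈ blk k, f n := by
  refine Eq.trans ?_ (sum_fiberwise_of_maps_to (s := blk k) (t := Un q) (g := fun n => n % q)
    (fun n hn => mem_Un.2 ⟨Nat.mod_lt _ hq.pos, ?_⟩) f)
  · refine sum_congr rfl fun u hu => sum_congr (filter_congr fun n _ => ?_) fun _ _ => rfl
    unfold Nat.ModEq
    rw [Nat.mod_eq_of_lt (mem_Un.1 hu).1]
  · have h := cop hn hq hqk
    unfold Nat.Coprime at h ⊢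
    rw [Nat.gcd_rec] at h
    rw [Nat.gcd_comm]
    exact h

theorem cq {q : ℕ} (hq : 1 < q) : ((q : ℂ) - 1) = (((q : ℝ) - 1 : ℝ) : ℂ) ∧ (0 : ℝ) < (q : ℝ) - 1 ∧
    ((q : ℂ) - 1) ≠ 0 := by
  have h1 : ((q : ℂ) - 1) = (((q : ℝ) - 1 : ℝ) : ℂ) := by
    push_cast
    ring
  have h2 : (1 : ℝ) < q := by exact_mod_cast hq
  refine ⟨h1, by linarith, ?_⟩
  rw [h1]
  exact_mod_cast (by linarith : (q : ℝ) - 1 ≠ 0)

theorem sum_D {k q : ℕ} (f : ℕ → ℂ) (hq : q.Prime) (hqk : q ≤ 2 ^ k) :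
    ∑ u ∈ Un q, D k f q u = 0 := by
  unfold D
  rw [sum_sub_distrib, sum_class f hq hqk, sum_const, card_units hq, nsmul_eq_mul,
    Nat.cast_sub hq.one_le, Nat.cast_one, mul_div_cancel₀ _ (cq hq.one_lt).2.2, sub_self]

theorem card_class {k q u : ℕ} (hq : 0 < q) :
    (((blk k).filter (fun n => n ≡ u [MOD q])).card : ℝ) ≤ 2 ^ k / q + 1 := by
  have h1 : ((blk k).filter (fun n => n ≡ u [MOD q])).card ≤
      ((Ioc (2 ^ k) (2 ^ (k + 1))).filter (fun n => n ≡ u [MOD q])).card := by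
    refine card_le_card fun n hn => ?_
    rw [mem_filter, mem_blk'] at hn
    rw [mem_filter, mem_Ioc]
    exact ⟨hn.1.1, hn.2⟩
  have h2 := Nat.Ioc_filter_modEq_card (2 ^ k) (2 ^ (k + 1)) hq u
  have h3 : (((Ioc (2 ^ k) (2 ^ (k + 1))).filter (fun n => n ≡ u [MOD q])).card : ℚ) ≤
      2 ^ k / q + 1 := by
    have h4 : (((Ioc (2 ^ k) (2 ^ (k + 1))).filter (fun n => n ≡ u [MOD q])).card : ℚ) =
        ((((Ioc (2 ^ k) (2 ^ (k + 1))).filter (fun n => n ≡ u [MOD q])).card : ℤ) : ℚ) := by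
      push_cast
      rfl
    rw [h4, h2]
    push_cast
    refine max_le ?_ (by positivity)
    have a1 := Int.floor_le (((2 : ℚ) ^ (k + 1) - u) / (q : ℚ))
    have a2 := Int.lt_floor_add_one (((2 : ℚ) ^ k - u) / (q : ℚ))
    have a3 : ((2 : ℚ) ^ (k + 1) - u) / (q : ℚ) = 2 ^ k / q + ((2 : ℚ) ^ k - u) / (q : ℚ) := by
      rw [pow_succ]
      ring
    linarith
  have h5 : (((Ioc (2 ^ k) (2 ^ (k + 1))).filter (fun n => n ≡ u [MOD q])).card : ℝ) ≤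
      2 ^ k / q + 1 := by
    have h7 := (Rat.cast_le (K := ℝ)).2 h3
    push_cast at h7
    exact h7
  have h6 : (((blk k).filter (fun n => n ≡ u [MOD q])).card : ℝ) ≤
      (((Ioc (2 ^ k) (2 ^ (k + 1))).filter (fun n => n ≡ u [MOD q])).card : ℝ) := by
    exact_mod_cast h1
  linarith

theorem norm_S {k : ℕ} (f : ℕ → ℂ) (hf : ∀ n, ‖f n‖ ≤ 1) : ‖∑ n ∈ blk k, f n‖ ≤ 2 ^ k := by
  calc _ ≤ ∑ n ∈ blk k, ‖f n‖ := norm_sum_le _ _
    _ ≤ ∑ n ∈ blk k, 1 := sum_le_sum fun n _ => hf n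
    _ = ((blk k).card : ℝ) := by simp
    _ ≤ 2 ^ k := by exact_mod_cast card_blk k

theorem norm_D {k l₁ q : ℕ} (f : ℕ → ℂ) (hf : ∀ n, ‖f n‖ ≤ 1) (hl : l₁ ≤ k) (h1 : 2 ^ l₁ < q)
    (u : ℕ) : ‖D k f q u‖ ≤ 3 * ((2 : ℝ) ^ k / 2 ^ l₁) := by
  have hx : (1 : ℝ) ≤ 2 ^ k / 2 ^ l₁ := by
    rw [one_le_div (by positivity)]
    exact pow_le_pow_right₀ (by norm_num) hl
  have hq1 : (2 : ℝ) ^ l₁ ≤ (q : ℝ) - 1 := by
    have h2 : ((2 ^ l₁ + 1 : ℕ) : ℝ) ≤ q := by exact_mod_cast h1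
    push_cast at h2
    linarith
  have hp : (0 : ℝ) < 2 ^ l₁ := by positivity
  have hq : 0 < q := Nat.lt_of_le_of_lt (Nat.zero_le _) h1
  have hq2 : 1 < q := by
    have : 1 ≤ 2 ^ l₁ := Nat.one_le_two_pow
    omega
  have e1 : ‖∑ n ∈ (blk k).filter (fun n => n ≡ u [MOD q]), f n‖ ≤ 2 ^ k / 2 ^ l₁ + 1 := by
    calc _ ≤ ∑ n ∈ (blk k).filter (fun n => n ≡ u [MOD q]), ‖f n‖ := norm_sum_le _ _
      _ ≤ ∑ n ∈ (blk k).filter (fun n => n ≡ u [MOD q]), 1 := sum_le_sum fun n _ => hf n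
      _ = (((blk k).filter (fun n => n ≡ u [MOD q])).card : ℝ) := by simp
      _ ≤ 2 ^ k / q + 1 := card_class hq
      _ ≤ 2 ^ k / 2 ^ l₁ + 1 := by
        have : (2 : ℝ) ^ l₁ ≤ q := by linarith
        gcongr
  have e3 : ‖(∑ n ∈ blk k, f n) / ((q : ℂ) - 1)‖ ≤ 2 ^ k / 2 ^ l₁ := by
    rw [norm_div, (cq hq2).1, Complex.norm_real, Real.norm_of_nonneg (cq hq2).2.1.le]
    have := norm_S (k := k) f hf
    gcongr
  unfold D
  refine (norm_sub_le _ _).trans ?_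
  linarith

theorem split {l₁ m : ℕ} (h : l₁ ≤ m) (F : ℕ → ℝ) :
    ∑ q ∈ Qs l₁ (m + 1), F q = ∑ q ∈ Qs l₁ m, F q + ∑ q ∈ Qs m (m + 1), F q := by
  rw [← sum_union]
  · refine sum_congr ?_ fun _ _ => rfl
    ext q
    simp only [mem_union, mem_Qs]
    have h2 : 2 ^ l₁ ≤ 2 ^ m := Nat.pow_le_pow_right (by norm_num) h
    have h3 : 2 ^ m ≤ 2 ^ (m + 1) := Nat.pow_le_pow_right (by norm_num) (by omega)
    constructor
    · rintro ⟨⟨a, b⟩, c⟩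
      by_cases hh : q ≤ 2 ^ m
      · exact Or.inl ⟨⟨a, hh⟩, c⟩
      · exact Or.inr ⟨⟨by omega, b⟩, c⟩
    · rintro (⟨⟨a, b⟩, c⟩ | ⟨⟨a, b⟩, c⟩)
      · exact ⟨⟨a, by omega⟩, c⟩
      · exact ⟨⟨by omega, b⟩, c⟩
  · rw [disjoint_left]
    intro q
    rw [mem_Qs, mem_Qs]
    rintro ⟨⟨a, b⟩, c⟩ ⟨⟨a', b'⟩, c'⟩
    omega

theorem sum_Qs_le (F G : ℕ → ℝ) (l₁ l₂ : ℕ) (h : l₁ ≤ l₂)
    (hF : ∀ l, l₁ ≤ l → l < l₂ → ∑ q ∈ Qs l (l + 1), F q ≤ G l) :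
    ∑ q ∈ Qs l₁ l₂, F q ≤ ∑ l ∈ Ico l₁ l₂, G l := by
  induction l₂, h using Nat.le_induction with
  | base =>
    have : Qs l₁ l₁ = ∅ := by
      ext q
      rw [mem_Qs]
      constructor
      · rintro ⟨⟨a, b⟩, c⟩
        omega
      · intro h
        exact absurd h (notMem_empty _)
    rw [this]
    simp
  | succ m hm ih =>
    rw [split hm, sum_Ico_succ_top hm]
    exact add_le_add (ih fun l a b => hF l a (by omega)) (hF m hm (by omega))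

theorem geo (k l₁ l₂ : ℕ) (h : l₁ ≤ l₂) :
    ∑ l ∈ Ico l₁ l₂, ((2 : ℝ) ^ k / 4 ^ l + 1) ≤
      2 * (2 ^ k / 4 ^ l₁ - 2 ^ k / 4 ^ l₂) + (l₂ - l₁) := by
  induction l₂, h using Nat.le_induction with
  | base => simp
  | succ m hm ih =>
    rw [sum_Ico_succ_top hm]
    have h1 : (2 : ℝ) ^ k / 4 ^ (m + 1) = (2 ^ k / 4 ^ m) / 4 := by
      rw [pow_succ]
      field_simp
    have h2 : (0 : ℝ) ≤ 2 ^ k / 4 ^ m := by positivity
    rw [h1]
    push_cast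
    linarith

/-- the outcomes -/
abbrev Om (l₁ l₂ : ℕ) (s : {q // q ∈ Qs l₁ l₂}) : Type := {u // u ∈ Un s.1}

/-- the classes of an outcome -/
noncomputable def av {l₁ l₂ : ℕ} (ω : ∀ s, Om l₁ l₂ s) (q : ℕ) : ℕ :=
  if h : q ∈ Qs l₁ l₂ then (ω ⟨q, h⟩).1 else 1

theorem av_eq {l₁ l₂ : ℕ} (ω : ∀ s, Om l₁ l₂ s) (s : {q // q ∈ Qs l₁ l₂}) : av ω s.1 = (ω s).1 := by
  unfold av
  rw [dif_pos s.2]

theorem sum_av {M : Type} [AddCommMonoid M] {l₁ l₂ : ℕ} (ω : ∀ s, Om l₁ l₂ s) (F : ℕ → ℕ → M) :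
    ∑ q ∈ Qs l₁ l₂, F q (av ω q) = ∑ s, F s.1 (ω s).1 := by
  rw [← sum_coe_sort]
  refine sum_congr rfl fun s _ => ?_
  rw [av_eq]

theorem prod_av {l₁ l₂ : ℕ} (ω : ∀ s, Om l₁ l₂ s) (F : ℕ → ℕ → ℝ) :
    ∏ q ∈ Qs l₁ l₂, F q (av ω q) = ∏ s, F s.1 (ω s).1 := by
  rw [← prod_coe_sort]
  refine prod_congr rfl fun s _ => ?_
  rw [av_eq]

theorem two_pow_hit (a : ℕ → ℕ) (l₁ l₂ n : ℕ) :
    (2 : ℝ) ^ hit a l₁ l₂ n = ∏ q ∈ Qs l₁ l₂, if n ≡ a q [MOD q] then 2 else 1 := by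
  unfold hit
  rw [← prod_filter, prod_const]

theorem ez_one {l₁ l₂ : ℕ} (n : ℕ) (s : {q // q ∈ Qs l₁ l₂}) :
    ∑ u : Om l₁ l₂ s, 1 / ((s.1 : ℝ) - 1) * (if n ≡ u.1 [MOD s.1] then 2 else 1) ≤
      Real.exp (1 / ((s.1 : ℝ) - 1)) := by
  have hs := mem_Qs.1 s.2
  obtain ⟨-, h1, -⟩ := cq hs.2.one_lt
  rw [← mul_sum, sum_coe_sort (Un s.1) (fun u => (if n ≡ u [MOD s.1] then (2 : ℝ) else 1))]
  have h2 : ∀ u ∈ Un s.1, (if n ≡ u [MOD s.1] then (2 : ℝ) else 1) =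
      1 + (if n ≡ u [MOD s.1] then (1 : ℝ) else 0) := by
    intro u _
    split_ifs <;> norm_num
  rw [sum_congr rfl h2, sum_add_distrib, sum_const, card_units hs.2, nsmul_eq_mul,
    Nat.cast_sub hs.2.one_le, Nat.cast_one, mul_one, ← sum_filter, sum_const, nsmul_eq_mul, mul_one]
  have h3 : ((Un s.1).filter (fun u => n ≡ u [MOD s.1])).card ≤ 1 := by
    rw [card_le_one]
    intro a ha b hb
    rw [mem_filter, mem_Un] at ha hb
    have : a ≡ b [MOD s.1] := ha.2.symm.trans hb.2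
    unfold Nat.ModEq at this
    rwa [Nat.mod_eq_of_lt ha.1.1, Nat.mod_eq_of_lt hb.1.1] at this
  have h4 : (((Un s.1).filter (fun u => n ≡ u [MOD s.1])).card : ℝ) ≤ 1 := by exact_mod_cast h3
  have h5 := Real.add_one_le_exp (1 / ((s.1 : ℝ) - 1))
  have h6 : 1 / ((s.1 : ℝ) - 1) * ((s.1 : ℝ) - 1) = 1 := by
    field_simp
  have h7 : 1 / ((s.1 : ℝ) - 1) * (((Un s.1).filter (fun u => n ≡ u [MOD s.1])).card : ℝ) ≤
      1 / ((s.1 : ℝ) - 1) := mul_le_of_le_one_right (by positivity) h4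
  rw [mul_add, h6]
  linarith

theorem ez {k l₁ l₂ : ℕ} (hb : bet l₁ l₂ ≤ 1 / 2) :
    ∑ ω : ∀ s, Om l₁ l₂ s, (∏ s : {q // q ∈ Qs l₁ l₂}, 1 / ((s.1 : ℝ) - 1)) *
      ∑ n ∈ blk k, (2 : ℝ) ^ hit (av ω) l₁ l₂ n ≤ 2 ^ (k + 1) := by
  have h1 : ∀ ω : ∀ s, Om l₁ l₂ s, (∏ s : {q // q ∈ Qs l₁ l₂}, 1 / ((s.1 : ℝ) - 1)) *
      ∑ n ∈ blk k, (2 : ℝ) ^ hit (av ω) l₁ l₂ n =
      ∑ n ∈ blk k, ∏ s : {q // q ∈ Qs l₁ l₂},
        (1 / ((s.1 : ℝ) - 1) * (if n ≡ (ω s).1 [MOD s.1] then 2 else 1)) := by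
    intro ω
    rw [mul_sum]
    refine sum_congr rfl fun n _ => ?_
    rw [two_pow_hit, prod_av ω (fun q u => if n ≡ u [MOD q] then 2 else 1), ← prod_mul_distrib]
  rw [sum_congr rfl fun ω _ => h1 ω, sum_comm]
  have h2 : ∀ n ∈ blk k, ∑ ω : ∀ s, Om l₁ l₂ s, ∏ s : {q // q ∈ Qs l₁ l₂},
        (1 / ((s.1 : ℝ) - 1) * (if n ≡ (ω s).1 [MOD s.1] then 2 else 1)) ≤ 2 := by
    intro n _
    have h3 := prod_univ_sum (fun s : {q // q ∈ Qs l₁ l₂} => (univ : Finset (Om l₁ l₂ s)))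
      (fun s u => 1 / ((s.1 : ℝ) - 1) * (if n ≡ u.1 [MOD s.1] then 2 else 1))
    rw [Fintype.piFinset_univ] at h3
    rw [← h3]
    calc _ ≤ ∏ s : {q // q ∈ Qs l₁ l₂}, Real.exp (1 / ((s.1 : ℝ) - 1)) := by
          refine prod_le_prod (fun s _ => ?_) fun s _ => ez_one n s
          refine sum_nonneg fun u _ => ?_
          have := (cq (mem_Qs.1 s.2).2.one_lt).2.1
          refine mul_nonneg (by positivity) ?_
          split_ifs <;> norm_num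
      _ = Real.exp (bet l₁ l₂) := by
          unfold bet
          rw [← Real.exp_sum, sum_coe_sort (Qs l₁ l₂) (fun q => 1 / ((q : ℝ) - 1))]
      _ ≤ Real.exp (1 / 2) := Real.exp_le_exp.2 hb
      _ ≤ 2 := by
          have := Real.exp_one_lt_d9
          have h4 : Real.exp (1 / 2) * Real.exp (1 / 2) = Real.exp 1 := by
            rw [← Real.exp_add]
            norm_num
          nlinarith [Real.exp_pos (1 / 2)]
  calc _ ≤ ∑ n ∈ blk k, (2 : ℝ) := sum_le_sum h2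
    _ = ((blk k).card : ℝ) * 2 := by rw [sum_const, nsmul_eq_mul]
    _ ≤ 2 ^ k * 2 := by
      have : ((blk k).card : ℝ) ≤ 2 ^ k := by exact_mod_cast card_blk k
      linarith
    _ = 2 ^ (k + 1) := (pow_succ _ _).symm

theorem sum_hit {k l₁ l₂ : ℕ} (a : ℕ → ℕ) (f : ℕ → ℂ) :
    ∑ q ∈ Qs l₁ l₂, D k f q (a q) = ∑ n ∈ blk k, f n * ((hit a l₁ l₂ n : ℂ) - bet l₁ l₂) := by
  have h1 : ∑ q ∈ Qs l₁ l₂, ∑ n ∈ (blk k).filter (fun n => n ≡ a q [MOD q]), f n =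
      ∑ n ∈ blk k, f n * (hit a l₁ l₂ n : ℂ) := by
    rw [sum_congr rfl fun q _ => sum_filter (s := blk k) (fun n => n ≡ a q [MOD q]) f, sum_comm]
    refine sum_congr rfl fun n _ => ?_
    rw [← sum_filter, sum_const, nsmul_eq_mul, mul_comm]
    rfl
  have h2 : ∑ q ∈ Qs l₁ l₂, (∑ n ∈ blk k, f n) / ((q : ℂ) - 1) =
      (∑ n ∈ blk k, f n) * (bet l₁ l₂ : ℂ) := by
    unfold bet
    push_cast
    rw [mul_sum]
    refine sum_congr rfl fun q _ => ?_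
    rw [mul_one_div]
  unfold D
  rw [sum_sub_distrib, h1, h2, sum_mul, ← sum_sub_distrib]
  refine sum_congr rfl fun n _ => ?_
  ring

/-- real or imaginary part -/
noncomputable def pr (b : Bool) (z : ℂ) : ℝ := bif b then z.re else z.im

theorem abs_pr_le (b : Bool) (z : ℂ) : |pr b z| ≤ ‖z‖ := by
  cases b
  · exact Complex.abs_im_le_norm z
  · exact Complex.abs_re_le_norm z

theorem pr_sum {α : Type} (b : Bool) (s : Finset α) (f : α → ℂ) :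
    pr b (∑ x ∈ s, f x) = ∑ x ∈ s, pr b (f x) := by
  cases b
  · exact Complex.im_sum _ _
  · exact Complex.re_sum _ _

theorem norm_le_pr (z : ℂ) : ‖z‖ ≤ |pr true z| + |pr false z| := Complex.norm_le_abs_re_add_abs_im z

theorem pr_zero (b : Bool) : pr b 0 = 0 := by cases b <;> rfl

/-- the truncation of a function -/
def tr (y : ℕ) (f : ℕ → ℂ) (n : ℕ) : ℂ := if n ≤ y then f n else 0

theorem norm_tr (y : ℕ) (f : ℕ → ℂ) (hf : ∀ n, ‖f n‖ ≤ 1) (n : ℕ) : ‖tr y f n‖ ≤ 1 := by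
  unfold tr
  split_ifs
  · exact hf n
  · simp

theorem sum_tr {k l₁ l₂ : ℕ} (y : ℕ) (f : ℕ → ℂ) (a : ℕ → ℕ) :
    ∑ n ∈ blk k, tr y f n * ((hit a l₁ l₂ n : ℂ) - bet l₁ l₂) =
      ∑ n ∈ (blk k).filter (· ≤ y), f n * ((hit a l₁ l₂ n : ℂ) - bet l₁ l₂) := by
  rw [sum_filter]
  refine sum_congr rfl fun n _ => ?_
  unfold tr
  split_ifs <;> simp

theorem filter_min (k y : ℕ) :
    (blk k).filter (· ≤ y) = (blk k).filter (· ≤ min y (2 ^ (k + 1))) := by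
  refine filter_congr fun n hn => ?_
  have := (mem_blk'.1 hn).1.2
  rw [le_min_iff]
  exact ⟨fun h => ⟨h, this⟩, fun h => h.1⟩

/-- the functions of the tests -/
def cc {J : Type} (c : J → ℕ → ℂ) (o : Option J) (n : ℕ) : ℂ := o.elim 1 fun j => c j n

/-- the weights of the tests -/
def WW {J : Type} (W : J → ℝ) (o : Option J) : ℝ := o.elim 1 W

theorem core (hEXP : S_EXP) {k l₁ l₂ : ℕ} {lam R V : ℝ} (hk : 1 ≤ k) (hlam : 0 < lam) (hR : 0 < R)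
    (hl₁ : l₁ ≤ k) (hl₂ : l₂ ≤ k) (hbet : bet l₁ l₂ ≤ 1 / 2)
    (hV : ∀ f : ℕ → ℂ, (∀ n, ‖f n‖ ≤ 1) → ∑ q ∈ Qs l₁ l₂, 1 / ((q : ℝ) - 1) * ∑ u ∈ Un q,
      ‖D k f q u‖ ^ 2 ≤ V) (hVR : lam ^ 2 * V ≤ R ^ 2)
    (hB : lam * (3 * ((2 : ℝ) ^ k / 2 ^ l₁)) ≤ R)
    (J : Type) [Fintype J] (W : J → ℝ) (c : J → ℕ → ℂ) (hW : ∀ j, 0 < W j) (hW1 : ∑ j, W j ≤ 1)
    (hc : ∀ j n, ‖c j n‖ ≤ 1) : ∃ a : ℕ → ℕ, (∀ q ∈ Qs l₁ l₂, (a q).Coprime q) ∧
    (∀ (o : Option J) (y : ℕ),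
      lam * ‖∑ n ∈ (blk k).filter (· ≤ y), cc c o n * ((hit a l₁ l₂ n : ℂ) - bet l₁ l₂)‖ ≤
      16 * R * (k + Real.log (1 / WW W o))) ∧
    ∀ n ∈ blk k, hit a l₁ l₂ n ≤ k + 4 := by
  classical
  have hWW : ∀ o, 0 < WW W o := by
    intro o
    cases o with
    | none => exact one_pos
    | some j => exact hW j
  have hWW1 : ∀ o, WW W o ≤ 1 := by
    intro o
    cases o with
    | none => exact le_refl _
    | some j => exact (single_le_sum (fun i _ => (hW i).le) (mem_univ j)).trans hW1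
  have hcc : ∀ o n, ‖cc c o n‖ ≤ 1 := by
    intro o n
    cases o with
    | none => simp [cc]
    | some j => exact hc j n
  have hq2 : ∀ s : {q // q ∈ Qs l₁ l₂}, (0 : ℝ) < (s.1 : ℝ) - 1 := fun s =>
    (cq (mem_Qs.1 s.2).2.one_lt).2.1
  have hqk : ∀ s : {q // q ∈ Qs l₁ l₂}, s.1 ≤ 2 ^ k := fun s =>
    (mem_Qs.1 s.2).1.2.trans (Nat.pow_le_pow_right (by norm_num) hl₂)
  have hlR : 0 < lam / R := div_pos hlam hR
  obtain ⟨ω, -, h2, h3⟩ := hEXP {q // q ∈ Qs l₁ l₂} (Om l₁ l₂) (fun s _ => 1 / ((s.1 : ℝ) - 1))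
    (Option J × Fin (2 ^ (k + 1) + 1) × Bool) (fun t => WW W t.1 / (4 * 2 ^ (k + 3)))
    (fun t s u => lam / R * pr t.2.2 (D k (tr t.2.1 (cc c t.1)) s.1 u.1))
    (fun ω => ∑ n ∈ blk k, (2 : ℝ) ^ hit (av ω) l₁ l₂ n) (2 ^ (k + 1))
    (fun s _ => (one_div_pos.2 (hq2 s)).le)
    (fun s => by
      rw [sum_const, nsmul_eq_mul, card_univ, Fintype.card_coe, card_units (mem_Qs.1 s.2).2,
        Nat.cast_sub (mem_Qs.1 s.2).2.one_le, Nat.cast_one, mul_one_div, div_self (hq2 s).ne'])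
    (fun t => div_pos (hWW _) (by positivity))
    (by
      rw [← sum_div, Fintype.sum_prod_type]
      simp only [sum_const, card_univ, Fintype.card_prod, Fintype.card_fin, Fintype.card_bool,
        nsmul_eq_mul]
      rw [← mul_sum, Fintype.sum_option]
      have e1 : WW W none + ∑ j, WW W (some j) ≤ 2 := by
        have : ∑ j, WW W (some j) = ∑ j, W j := rfl
        rw [this]
        have : WW W none = 1 := rfl
        linarith
      rw [div_le_one (by positivity)]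
      push_cast
      have e2 : (1 : ℝ) ≤ 2 ^ k := one_le_pow₀ (by norm_num)
      have e3 : (2 : ℝ) ^ (k + 1) = 2 * 2 ^ k := by rw [pow_succ]; ring
      have e4 : (2 : ℝ) ^ (k + 3) = 8 * 2 ^ k := by rw [pow_succ, pow_succ, pow_succ]; ring
      rw [e3, e4]
      calc (2 * (2 : ℝ) ^ k + 1) * 2 * (WW W none + ∑ j, WW W (some j)) ≤
          (2 * (2 : ℝ) ^ k + 1) * 2 * 2 := by gcongr
        _ ≤ 4 * (8 * 2 ^ k) := by linarith)
    (fun t s => by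
      rw [← mul_sum, ← mul_sum, ← pr_sum, sum_coe_sort (Un s.1)
        (fun u => D k (tr t.2.1 (cc c t.1)) s.1 u), sum_D _ (mem_Qs.1 s.2).2 (hqk s), pr_zero,
        mul_zero, mul_zero])
    (fun t s u => by
      rw [abs_mul, abs_of_pos hlR]
      calc lam / R * |pr t.2.2 (D k (tr t.2.1 (cc c t.1)) s.1 u.1)| ≤
          lam / R * (3 * ((2 : ℝ) ^ k / 2 ^ l₁)) := by
            refine mul_le_mul_of_nonneg_left ((abs_pr_le _ _).trans ?_) hlR.le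
            exact norm_D _ (norm_tr _ _ (hcc _)) hl₁ (mem_Qs.1 s.2).1.1 _
        _ = lam * (3 * ((2 : ℝ) ^ k / 2 ^ l₁)) / R := by ring
        _ ≤ 1 := (div_le_one hR).2 hB)
    (fun t => by
      calc ∑ s : {q // q ∈ Qs l₁ l₂}, ∑ u : Om l₁ l₂ s, 1 / ((s.1 : ℝ) - 1) *
          (lam / R * pr t.2.2 (D k (tr t.2.1 (cc c t.1)) s.1 u.1)) ^ 2 ≤
          ∑ s : {q // q ∈ Qs l₁ l₂}, (lam / R) ^ 2 * (1 / ((s.1 : ℝ) - 1) * ∑ u : Om l₁ l₂ s,
            ‖D k (tr t.2.1 (cc c t.1)) s.1 u.1‖ ^ 2) := by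
            refine sum_le_sum fun s _ => ?_
            rw [mul_sum, mul_sum]
            refine sum_le_sum fun u _ => ?_
            have e1 : pr t.2.2 (D k (tr t.2.1 (cc c t.1)) s.1 u.1) ^ 2 ≤
                ‖D k (tr t.2.1 (cc c t.1)) s.1 u.1‖ ^ 2 := by
              rw [← sq_abs]
              exact pow_le_pow_left₀ (abs_nonneg _) (abs_pr_le _ _) 2
            calc _ = (lam / R) ^ 2 * (1 / ((s.1 : ℝ) - 1) *
                  pr t.2.2 (D k (tr t.2.1 (cc c t.1)) s.1 u.1) ^ 2) := by ring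
              _ ≤ _ := mul_le_mul_of_nonneg_left (mul_le_mul_of_nonneg_left e1
                  (one_div_pos.2 (hq2 s)).le) (sq_nonneg _)
        _ = (lam / R) ^ 2 * ∑ q ∈ Qs l₁ l₂, 1 / ((q : ℝ) - 1) * ∑ u ∈ Un q,
            ‖D k (tr t.2.1 (cc c t.1)) q u‖ ^ 2 := by
            rw [← mul_sum, ← sum_coe_sort (Qs l₁ l₂)]
            congr 1
            refine sum_congr rfl fun s _ => ?_
            rw [sum_coe_sort (Un s.1) (fun u => ‖D k (tr t.2.1 (cc c t.1)) s.1 u‖ ^ 2)]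
        _ ≤ (lam / R) ^ 2 * V :=
            mul_le_mul_of_nonneg_left (hV _ (norm_tr _ _ (hcc _))) (sq_nonneg _)
        _ = lam ^ 2 * V / R ^ 2 := by rw [div_pow]; ring
        _ ≤ 1 := (div_le_one (by positivity)).2 hVR)
    (by positivity)
    (fun ω => sum_nonneg fun n _ => by positivity)
    (ez hbet)
  refine ⟨av ω, fun q hq => ?_, fun o y => ?_, fun n hn => ?_⟩
  · have := av_eq ω ⟨q, hq⟩
    rw [this]
    exact (mem_Un.1 (ω ⟨q, hq⟩).2).2.symm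
  · rw [filter_min]
    set y' := min y (2 ^ (k + 1)) with hy'
    have hy : y' < 2 ^ (k + 1) + 1 := by
      have := min_le_right y (2 ^ (k + 1))
      omega
    rw [← sum_tr, ← sum_hit]
    have h4 : ∀ b, |pr b (∑ q ∈ Qs l₁ l₂, D k (tr y' (cc c o)) q (av ω q))| * (lam / R) ≤
        2 + Real.log (1 / (WW W o / (4 * 2 ^ (k + 3)))) := by
      intro b
      have h5 := h2 (o, ⟨y', hy⟩, b)
      simp only at h5
      rw [← mul_sum, abs_mul, abs_of_pos hlR, ← pr_sum] at h5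
      rw [sum_av ω (fun q u => D k (tr y' (cc c o)) q u), mul_comm]
      exact h5
    have h6 : Real.log (1 / (WW W o / (4 * 2 ^ (k + 3)))) =
        Real.log (1 / WW W o) + (k + 5) * Real.log 2 := by
      have e1 : 1 / (WW W o / (4 * 2 ^ (k + 3))) = 1 / WW W o * 2 ^ (k + 5) := by
        have := (hWW o).ne'
        rw [show (4 : ℝ) * 2 ^ (k + 3) = 2 ^ (k + 5) by
          rw [pow_add, pow_add]; ring]
        field_simp
      rw [e1, Real.log_mul (one_div_pos.2 (hWW o)).ne' (by positivity), Real.log_pow]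
      push_cast
      ring
    have h7 : 0 ≤ Real.log (1 / WW W o) := by
      refine Real.log_nonneg ?_
      rw [le_div_iff₀ (hWW o)]
      linarith [hWW1 o]
    have h8 : Real.log 2 ≤ 1 := by linarith [Real.log_two_lt_d9]
    have h9 : (1 : ℝ) ≤ k := by exact_mod_cast hk
    have h10 : 2 + Real.log (1 / (WW W o / (4 * 2 ^ (k + 3)))) ≤
        8 * (k + Real.log (1 / WW W o)) := by
      rw [h6]
      nlinarith
    have h11 := norm_le_pr (∑ q ∈ Qs l₁ l₂, D k (tr y' (cc c o)) q (av ω q))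
    have h12 := h4 true
    have h13 := h4 false
    have h14 : ‖∑ q ∈ Qs l₁ l₂, D k (tr y' (cc c o)) q (av ω q)‖ * (lam / R) ≤
        16 * (k + Real.log (1 / WW W o)) := by
      have := mul_le_mul_of_nonneg_right h11 hlR.le
      linarith
    have h15 : lam * ‖∑ q ∈ Qs l₁ l₂, D k (tr y' (cc c o)) q (av ω q)‖ =
        ‖∑ q ∈ Qs l₁ l₂, D k (tr y' (cc c o)) q (av ω q)‖ * (lam / R) * R := by
      field_simp
    rw [h15]
    calc _ ≤ 16 * (k + Real.log (1 / WW W o)) * R := mul_le_mul_of_nonneg_right h14 hR.le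
      _ = _ := by ring
  · have h4 : (2 : ℝ) ^ hit (av ω) l₁ l₂ n ≤ ∑ n ∈ blk k, (2 : ℝ) ^ hit (av ω) l₁ l₂ n :=
      single_le_sum (f := fun n => (2 : ℝ) ^ hit (av ω) l₁ l₂ n) (fun i _ => by positivity) hn
    have h5 : (2 : ℝ) ^ hit (av ω) l₁ l₂ n ≤ 2 ^ (k + 4) := by
      have e3 : (2 : ℝ) ^ (k + 4) = 8 * 2 ^ (k + 1) := by
        rw [pow_add, pow_add]; ring
      have e2 : (0 : ℝ) ≤ 2 ^ (k + 1) := by positivity
      rw [e3]
      linarith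
    exact (pow_le_pow_iff_right₀ (by norm_num)).1 h5

end Cls

open Cls in
/-- the choice of the classes -/
theorem cls (hEXP : S_EXP) (hLS : S_LS) (hCH : S_CH) : S_A := by
  obtain ⟨C, hC, hLS⟩ := hLS
  obtain ⟨c₀, k₀, -, hCH⟩ := hCH
  refine ⟨16 * (3 + 3 * C), max k₀ 1, by positivity, ?_⟩
  intro k l₁ l₂ lam hk hA J _ W c hW hW1 hc
  have hk0 : k₀ ≤ k := (le_max_left _ _).trans hk
  have hk1 : 1 ≤ k := (le_max_right _ _).trans hk
  obtain ⟨hl2, -, hbet⟩ := hCH k l₁ l₂ lam hk0 hA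
  have hlam : 0 < lam := by
    refine lt_of_lt_of_le ?_ hA.pos
    unfold DF.e2
    positivity
  have hlt := hA.lt
  have hE0 : 0 < e2 (k / 2) := by
    unfold DF.e2
    positivity
  have hEE : e2 (k / 2) ^ 2 = 2 ^ k := by
    unfold DF.e2
    rw [← Real.rpow_natCast ((2 : ℝ) ^ ((k : ℝ) / 2)) 2, ← Real.rpow_mul (by norm_num),
      ← Real.rpow_natCast 2 k]
    congr 1
    push_cast
    ring
  have hx : e2 (k / 2 - l₁) = e2 (k / 2) / 2 ^ l₁ := by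
    unfold DF.e2
    rw [Real.rpow_sub (by norm_num), Real.rpow_natCast]
  have hamp : lam * (e2 (k / 2) / 2 ^ l₁) ≤ 1 := hx ▸ hA.amp
  have hle := hA.le
  have hk1' : (1 : ℝ) ≤ k := by exact_mod_cast hk1
  have hlam1 : lam ≤ 1 := by nlinarith
  have hlamk : lam * k ≤ 1 := by nlinarith
  have hdk : ((l₂ : ℝ) - l₁) ≤ k := by
    have h1 := hA.sq
    have h2 : l₂ - l₁ ≤ (l₂ - l₁) ^ 2 := Nat.le_self_pow (by norm_num) _
    have h3 : ((l₂ - l₁ : ℕ) : ℝ) ≤ k := by exact_mod_cast h2.trans h1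
    rw [Nat.cast_sub hlt.le] at h3
    exact h3
  have hd0 : (0 : ℝ) ≤ (l₂ : ℝ) - l₁ := by
    have : (l₁ : ℝ) ≤ l₂ := by exact_mod_cast hlt.le
    linarith
  have hp : (0 : ℝ) < 2 ^ l₁ := by positivity
  have hp4 : (4 : ℝ) ^ l₁ = (2 ^ l₁) ^ 2 := by
    rw [← pow_mul, mul_comm, pow_mul]
    norm_num
  have hamp0 : 0 ≤ lam * (e2 (k / 2) / 2 ^ l₁) := by positivity
  obtain ⟨a, h1, h2, h3⟩ := core hEXP (V := ∑ l ∈ Ico l₁ l₂, C * (2 ^ k / 4 ^ l + 1) * 2 ^ k)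
    (R := (3 + 3 * C) * e2 (k / 2)) hk1 hlam (by positivity) (by omega) hl2.le hbet
    (fun f hf => sum_Qs_le _ _ _ _ hlt.le fun l hl hl' => hLS k l f hf (by omega)) (by
      rw [← sum_mul, ← mul_sum]
      have g1 := geo k l₁ l₂ hlt.le
      have g2 : (0 : ℝ) ≤ 2 ^ k / 4 ^ l₂ := by positivity
      have g3 : ∑ l ∈ Ico l₁ l₂, ((2 : ℝ) ^ k / 4 ^ l + 1) ≤ 2 * (2 ^ k / 4 ^ l₁) + (l₂ - l₁) := by
        linarith
      have g4 : lam ^ 2 * (2 ^ k / 4 ^ l₁) ≤ 1 := by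
        have : lam ^ 2 * (2 ^ k / 4 ^ l₁) = (lam * (e2 (k / 2) / 2 ^ l₁)) ^ 2 := by
          rw [mul_pow, div_pow, hEE, hp4]
        rw [this]
        exact pow_le_one₀ hamp0 hamp
      have g5 : lam ^ 2 * ((l₂ : ℝ) - l₁) ≤ 1 := by
        have : lam * ((l₂ : ℝ) - l₁) ≤ 1 := (mul_le_mul_of_nonneg_left hdk hlam.le).trans hlamk
        calc lam ^ 2 * ((l₂ : ℝ) - l₁) = lam * (lam * ((l₂ : ℝ) - l₁)) := by ring
          _ ≤ 1 * 1 := mul_le_mul hlam1 this (by positivity) (by norm_num)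
          _ = 1 := by norm_num
      have g6 : lam ^ 2 * ∑ l ∈ Ico l₁ l₂, ((2 : ℝ) ^ k / 4 ^ l + 1) ≤ 3 := by
        calc _ ≤ lam ^ 2 * (2 * (2 ^ k / 4 ^ l₁) + (l₂ - l₁)) :=
              mul_le_mul_of_nonneg_left g3 (sq_nonneg _)
          _ = 2 * (lam ^ 2 * (2 ^ k / 4 ^ l₁)) + lam ^ 2 * ((l₂ : ℝ) - l₁) := by ring
          _ ≤ 3 := by linarith
      have g7 : (0 : ℝ) < 2 ^ k := by positivity
      calc _ = C * 2 ^ k * (lam ^ 2 * ∑ l ∈ Ico l₁ l₂, ((2 : ℝ) ^ k / 4 ^ l + 1)) := by ring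
        _ ≤ C * 2 ^ k * 3 := mul_le_mul_of_nonneg_left g6 (by positivity)
        _ = (3 * C) * 2 ^ k := by ring
        _ ≤ (3 + 3 * C) ^ 2 * 2 ^ k := by
            refine mul_le_mul_of_nonneg_right ?_ g7.le
            nlinarith
        _ = _ := by rw [mul_pow, hEE]) (by
      have g1 : (2 : ℝ) ^ k / 2 ^ l₁ = e2 (k / 2) * (e2 (k / 2) / 2 ^ l₁) := by
        rw [← hEE]
        ring
      rw [g1]
      calc _ = 3 * e2 (k / 2) * (lam * (e2 (k / 2) / 2 ^ l₁)) := by ring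
        _ ≤ 3 * e2 (k / 2) * 1 := mul_le_mul_of_nonneg_left hamp (by positivity)
        _ ≤ _ := by nlinarith) J W c hW hW1 hc
  refine ⟨a, h1, fun j y => ?_, ?_, fun n hn => ?_⟩
  · have h4 := h2 (some j) y
    have e1 : 16 * (3 + 3 * C) * e2 (k / 2) * (k + Real.log (1 / W j)) =
        16 * ((3 + 3 * C) * e2 (k / 2)) * (k + Real.log (1 / WW W (some j))) := by
      rw [← mul_assoc 16]
      rfl
    rw [e1]
    exact h4
  · have h4 := h2 none (2 ^ (k + 1))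
    have e1 : (blk k).filter (· ≤ 2 ^ (k + 1)) = blk k :=
      filter_true_of_mem fun n hn => (mem_blk'.1 hn).1.2
    rw [e1] at h4
    have e2 : ∑ n ∈ blk k, cc c none n * ((hit a l₁ l₂ n : ℂ) - bet l₁ l₂) =
        ((∑ n ∈ blk k, ((hit a l₁ l₂ n : ℝ) - bet l₁ l₂) : ℝ) : ℂ) := by
      push_cast
      refine sum_congr rfl fun n _ => ?_
      exact one_mul _
    rw [e2, Complex.norm_real, Real.norm_eq_abs] at h4
    have e3 : Real.log (1 / WW W none) = 0 := by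
      have : WW W none = 1 := rfl
      rw [this, div_one, Real.log_one]
    rw [e3, add_zero] at h4
    refine h4.trans (le_of_eq ?_)
    ring
  · have h4 : (hit a l₁ l₂ n : ℝ) ≤ k + 4 := by exact_mod_cast h3 n hn
    nlinarith

end Pool.Agent.H414.GE
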