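import Pool.Agent.H414.GE.Spec

/-! Project GE, task Exp: exponential moments. -/

set_option autoImplicit false

namespace Pool.Agent.H414.GE

open Finset

namespace Exp

theorem mgf {S : Type} [Fintype S] [DecidableEq S] {Ω : S → Type} [∀ s, Fintype (Ω s)]
    (π ψ : ∀ s, Ω s → ℝ) (h0 : ∀ s ω, 0 ≤ π s ω) (h1 : ∀ s, ∑ ω, π s ω = 1)
    (hm : ∀ s, ∑ ω, π s ω * ψ s ω = 0) (hb : ∀ s ω, |ψ s ω| ≤ 1)
    (hv : ∑ s, ∑ ω, π s ω * ψ s ω ^ 2 ≤ 1) :
    ∑ ω : ∀ s, Ω s, (∏ s, π s (ω s)) * Real.exp (∑ s, ψ s (ω s)) ≤ Real.exp 1 := by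
  have e1 : ∑ ω : ∀ s, Ω s, (∏ s, π s (ω s)) * Real.exp (∑ s, ψ s (ω s)) =
      ∏ s, ∑ ω, π s ω * Real.exp (ψ s ω) := by
    rw [Finset.prod_univ_sum, Fintype.piFinset_univ]
    refine Finset.sum_congr rfl fun ω _ => ?_
    rw [Real.exp_sum, ← Finset.prod_mul_distrib]
  rw [e1]
  have e2 : ∏ s, ∑ ω, π s ω * Real.exp (ψ s ω) ≤
      ∏ s, Real.exp (∑ ω, π s ω * ψ s ω ^ 2) := by
    refine Finset.prod_le_prod (fun s _ => Finset.sum_nonneg fun ω _ =>
      mul_nonneg (h0 s ω) (Real.exp_pos _).le) fun s _ => ?_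
    have e3 : ∑ ω, π s ω * Real.exp (ψ s ω) ≤
        ∑ ω, (π s ω + π s ω * ψ s ω + π s ω * ψ s ω ^ 2) := by
      refine Finset.sum_le_sum fun ω _ => ?_
      have e4 := (abs_le.1 (Real.abs_exp_sub_one_sub_id_le (hb s ω))).2
      have e5 := mul_le_mul_of_nonneg_left e4 (h0 s ω)
      nlinarith
    rw [Finset.sum_add_distrib, Finset.sum_add_distrib, h1, hm, add_zero] at e3
    refine e3.trans ?_
    have := Real.add_one_le_exp (∑ ω, π s ω * ψ s ω ^ 2)
    linarith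
  refine e2.trans ?_
  rw [← Real.exp_sum]
  exact Real.exp_le_exp.2 hv

end Exp

theorem exq : S_EXP := by
  intro S _ _ Ω _ π J _ W φ Z z h0 h1 hW hW1 hm hb hv hz hZ hZz
  obtain ⟨μ, hμ⟩ : ∃ μ : (∀ s, Ω s) → ℝ, μ = fun ω => ∏ s, π s (ω s) := ⟨_, rfl⟩
  have hμ0 : ∀ ω, 0 ≤ μ ω := by
    intro ω
    rw [hμ]
    exact Finset.prod_nonneg fun s _ => h0 s (ω s)
  have hμ1 : ∑ ω, μ ω = 1 := by
    rw [hμ]
    have e1 : ∏ s, ∑ ω, π s ω = ∑ ω : ∀ s, Ω s, ∏ s, π s (ω s) := by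
      rw [Finset.prod_univ_sum, Fintype.piFinset_univ]
    rw [← e1]
    exact Finset.prod_eq_one fun s _ => h1 s
  have hp : ∀ j, ∑ ω, μ ω * Real.exp (∑ s, φ j s (ω s)) ≤ Real.exp 1 := by
    intro j
    rw [hμ]
    exact Exp.mgf π (φ j) h0 h1 (hm j) (hb j) (hv j)
  have hn : ∀ j, ∑ ω, μ ω * Real.exp (-∑ s, φ j s (ω s)) ≤ Real.exp 1 := by
    intro j
    rw [hμ]
    have e1 := Exp.mgf π (fun s ω => - φ j s ω) h0 h1 (fun s => by
      simp only [mul_neg, Finset.sum_neg_distrib, hm j s, neg_zero]) (fun s ω => by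
      rw [abs_neg]; exact hb j s ω) (by
      simp only [neg_sq]
      exact hv j)
    simp only [Finset.sum_neg_distrib] at e1
    exact e1
  obtain ⟨F, hF⟩ : ∃ F : (∀ s, Ω s) → ℝ, F = fun ω =>
    (∑ j, W j * (Real.exp (∑ s, φ j s (ω s)) + Real.exp (-∑ s, φ j s (ω s)))) + Z ω / z :=
    ⟨_, rfl⟩
  have he1 : 2 * Real.exp 1 + 1 < 7 := by
    have := Real.exp_one_lt_d9
    linarith
  have hEF : ∑ ω, μ ω * F ω < 7 := by
    have e1 : ∑ ω, μ ω * F ω = ∑ j, W j * (∑ ω, μ ω * Real.exp (∑ s, φ j s (ω s)) +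
        ∑ ω, μ ω * Real.exp (-∑ s, φ j s (ω s))) + (∑ ω, μ ω * Z ω) / z := by
      rw [hF]
      simp only [mul_add, Finset.sum_add_distrib, Finset.mul_sum, Finset.sum_div]
      congr 1
      · congr 1
        · rw [Finset.sum_comm]
          refine Finset.sum_congr rfl fun j _ => Finset.sum_congr rfl fun ω _ => ?_
          ring
        · rw [Finset.sum_comm]
          refine Finset.sum_congr rfl fun j _ => Finset.sum_congr rfl fun ω _ => ?_
          ring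
      · refine Finset.sum_congr rfl fun ω _ => ?_
        ring
    have e2 : (∑ ω, μ ω * Z ω) / z ≤ 1 := by
      rw [div_le_one hz, hμ]
      exact hZz
    have e3 : ∑ j, W j * (∑ ω, μ ω * Real.exp (∑ s, φ j s (ω s)) +
        ∑ ω, μ ω * Real.exp (-∑ s, φ j s (ω s))) ≤ ∑ j, W j * (2 * Real.exp 1) := by
      refine Finset.sum_le_sum fun j _ => mul_le_mul_of_nonneg_left ?_ (hW j).le
      have := hp j
      have := hn j
      linarith
    rw [← Finset.sum_mul] at e3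
    have e4 : (∑ j, W j) * (2 * Real.exp 1) ≤ 1 * (2 * Real.exp 1) :=
      mul_le_mul_of_nonneg_right hW1 (by positivity)
    rw [e1]
    linarith
  obtain ⟨ω, hω1, hω2⟩ : ∃ ω, 0 < μ ω ∧ F ω ≤ 7 := by
    by_contra hcon
    push Not at hcon
    have e1 : ∑ ω, μ ω * 7 ≤ ∑ ω, μ ω * F ω := by
      refine Finset.sum_le_sum fun ω _ => ?_
      rcases (hμ0 ω).lt_or_eq with h | h
      · exact mul_le_mul_of_nonneg_left (hcon ω h).le h.le
      · rw [← h, zero_mul, zero_mul]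
    rw [← Finset.sum_mul, hμ1, one_mul] at e1
    linarith
  have hterm : ∀ j, 0 ≤ W j * (Real.exp (∑ s, φ j s (ω s)) + Real.exp (-∑ s, φ j s (ω s))) :=
    fun j => mul_nonneg (hW j).le (by positivity)
  have hZ0 : 0 ≤ Z ω / z := div_nonneg (hZ ω) hz.le
  rw [hF] at hω2
  refine ⟨ω, fun s => ?_, fun j => ?_, ?_⟩
  · rw [hμ] at hω1
    refine (h0 s (ω s)).lt_of_ne fun h => ?_
    exact hω1.ne' (Finset.prod_eq_zero (Finset.mem_univ s) h.symm)
  · have e1 := Finset.single_le_sum (f := fun j => W j * (Real.exp (∑ s, φ j s (ω s)) +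
      Real.exp (-∑ s, φ j s (ω s)))) (fun j _ => hterm j) (Finset.mem_univ j)
    have e2 : W j * (Real.exp (∑ s, φ j s (ω s)) + Real.exp (-∑ s, φ j s (ω s))) ≤ 7 := by
      have e3 : (∑ j, W j * (Real.exp (∑ s, φ j s (ω s)) + Real.exp (-∑ s, φ j s (ω s)))) ≤ 7 := by
        linarith
      exact e1.trans e3
    have e3 : Real.exp |∑ s, φ j s (ω s)| ≤ 7 / W j := by
      rw [le_div_iff₀ (hW j)]
      have p1 := Real.exp_pos (∑ s, φ j s (ω s))
      have p2 := Real.exp_pos (-∑ s, φ j s (ω s))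
      have p3 := mul_pos (hW j) p1
      have p4 := mul_pos (hW j) p2
      rcases abs_cases (∑ s, φ j s (ω s)) with ⟨h, -⟩ | ⟨h, -⟩ <;> rw [h] <;> nlinarith
    have e4 : |∑ s, φ j s (ω s)| ≤ Real.log (7 / W j) := by
      rw [Real.le_log_iff_exp_le (div_pos (by norm_num) (hW j))]
      exact e3
    refine e4.trans ?_
    have e5 : (7 : ℝ) / W j = 7 * (1 / W j) := by ring
    rw [e5, Real.log_mul (by norm_num) (one_div_ne_zero (hW j).ne')]
    have e6 : Real.log 7 ≤ 2 := by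
      rw [Real.log_le_iff_le_exp (by norm_num)]
      have e7 := Real.exp_one_gt_d9
      have e8 : Real.exp 2 = Real.exp 1 * Real.exp 1 := by
        rw [← Real.exp_add]
        norm_num
      rw [e8]
      nlinarith
    linarith
  · have e1 : Z ω / z ≤ 7 := by
      have e2 : 0 ≤ ∑ j, W j * (Real.exp (∑ s, φ j s (ω s)) + Real.exp (-∑ s, φ j s (ω s))) :=
        Finset.sum_nonneg fun j _ => hterm j
      linarith
    rwa [div_le_iff₀ hz] at e1

end Pool.Agent.H414.GE
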