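import Pool.Agent.H414.GE.Spec

/-! One block (`S_GB`) from Chebyshev's bounds and the two random selections. -/

set_option autoImplicit false

namespace Pool.Agent.H414.GE

open Finset
open Pool.Agent.H414.LT (primesUpTo blk kk)
open Pool.Agent.H414.DF (e2)

namespace Gb

theorem exists_large (K : ℝ) :
    ∃ k₀ : ℕ, ∀ k : ℕ, k₀ ≤ k → K * (k : ℝ) ^ 3 ≤ e2 (1 / 80) ^ k := by
  have hr : (1 : ℝ) < e2 (1 / 80) := by
    unfold e2
    exact Real.one_lt_rpow (by norm_num) (by norm_num)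
  have h := tendsto_pow_const_div_const_pow_of_one_lt 3 hr
  have h2 : Filter.Tendsto (fun n : ℕ => K * ((n : ℝ) ^ 3 / e2 (1 / 80) ^ n)) Filter.atTop
      (nhds 0) := by
    simpa using h.const_mul K
  obtain ⟨k₀, hk₀⟩ := Filter.eventually_atTop.1 (h2.eventually (gt_mem_nhds one_pos))
  refine ⟨k₀, fun k hk => ?_⟩
  have h3 := hk₀ k hk
  have h4 : 0 < e2 (1 / 80) ^ k := by positivity
  rw [← mul_div_assoc, div_lt_one h4] at h3
  exact h3.le

theorem e2_eq (m k : ℕ) (x : ℝ) (hx : x = m * k / 80) : e2 x = (e2 (1 / 80) ^ k) ^ m := by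
  unfold e2
  rw [← pow_mul, ← Real.rpow_natCast ((2 : ℝ) ^ (1 / 80 : ℝ)), ← Real.rpow_mul (by norm_num)]
  congr 1
  rw [hx]
  push_cast
  ring

theorem e2_neg (x : ℝ) : e2 (-x) = 1 / e2 x := by
  unfold e2
  rw [Real.rpow_neg (by norm_num), one_div]

theorem e2_pos (x : ℝ) : 0 < e2 x := by
  unfold e2
  positivity

/-- the main inequality -/
theorem final {k t lam β π H CA CS c dl D cA R : ℝ} (hk : 1 ≤ k) (ht : 1 ≤ t)
    (hCA : 0 ≤ CA) (hCS : 0 ≤ CS) (hc : 0 < c)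
    (hK : (8 * (2 * CA + CS + 6) / c + 2 * CA + 1) * k ^ 3 ≤ t)
    (hlam0 : 1 / t ^ 16 ≤ lam) (hlam1 : lam ≤ 1) (hβ0 : 0 ≤ β) (hβ : β ≤ 1 / 2)
    (hπ : π ≤ t ^ 80) (hπ0 : 0 ≤ π)
    (hβπ : c * (dl / k) * (t ^ 80 / (k + 1)) ≤ β * π) (hdl : 1 ≤ dl)
    (hH : lam * |H - β * π| ≤ CA * t ^ 40 * k)
    (hcA : |cA - (π - lam * H)| ≤ CS * t ^ 40 * k)
    (hR : R ≤ √(2 * t ^ 42 * (7 * (H + 1))))
    (hD : β * cA - (H - lam * H) - R ≤ D) :
    c / 8 * lam * dl * t ^ 80 / k ^ 2 ≤ D := by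
  have ht0 : 0 < t := by linarith
  have hk0 : 0 < k := by linarith
  have hlam : 0 < lam := lt_of_lt_of_le (by positivity) hlam0
  -- the difference `H - β π`
  have hdiff : |H - β * π| ≤ CA * k * t ^ 56 := by
    have h1 : 1 / t ^ 16 * |H - β * π| ≤ CA * t ^ 40 * k :=
      le_trans (mul_le_mul_of_nonneg_right hlam0 (abs_nonneg _)) hH
    rw [div_mul_eq_mul_div, one_mul, div_le_iff₀ (by positivity)] at h1
    calc _ ≤ CA * t ^ 40 * k * t ^ 16 := h1
      _ = CA * k * t ^ 56 := by ring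
  have hk3 : k ≤ k ^ 3 := by nlinarith [sq_nonneg (k - 1), mul_self_nonneg k]
  have hK2 : 2 * CA * k ^ 3 ≤ t := by
    have h1 : 0 ≤ 8 * (2 * CA + CS + 6) / c * k ^ 3 := by positivity
    have h2 : 0 ≤ k ^ 3 := by positivity
    nlinarith
  have hK1 : 8 * (2 * CA + CS + 6) * k ^ 3 ≤ c * t := by
    have h1 : 8 * (2 * CA + CS + 6) / c * k ^ 3 ≤ t := by
      have h2 : 0 ≤ (2 * CA + 1) * k ^ 3 := by positivity
      nlinarith
    rw [div_mul_eq_mul_div, div_le_iff₀ hc] at h1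
    linarith
  -- `H ≤ 2 ^ k`
  have hHle : H ≤ t ^ 80 := by
    have h1 : β * π ≤ t ^ 80 / 2 := by nlinarith
    have h2 : CA * k * t ^ 56 ≤ t ^ 80 / 2 := by
      have h3 : 2 * (CA * k) ≤ t := by
        have : CA * k ≤ CA * k ^ 3 := mul_le_mul_of_nonneg_left hk3 hCA
        linarith
      have h4 : 2 * (CA * k * t ^ 56) ≤ t ^ 80 := by
        calc 2 * (CA * k * t ^ 56) = 2 * (CA * k) * t ^ 56 := by ring
          _ ≤ t * t ^ 56 := mul_le_mul_of_nonneg_right h3 (by positivity)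
          _ = t ^ 57 := by ring
          _ ≤ t ^ 80 := pow_le_pow_right₀ ht (by norm_num)
      linarith
    have h5 := le_abs_self (H - β * π)
    linarith
  -- the square root
  have hRle : R ≤ 6 * t ^ 61 := by
    refine le_trans hR ?_
    rw [Real.sqrt_le_left (by positivity)]
    have h1 : 1 ≤ t ^ 80 := one_le_pow₀ ht
    have h2 : 7 * (H + 1) ≤ 14 * t ^ 80 := by linarith
    calc 2 * t ^ 42 * (7 * (H + 1)) ≤ 2 * t ^ 42 * (14 * t ^ 80) :=
          mul_le_mul_of_nonneg_left h2 (by positivity)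
      _ = 28 * t ^ 122 := by ring
      _ ≤ 36 * t ^ 122 := by nlinarith [pow_pos ht0 122]
      _ = (6 * t ^ 61) ^ 2 := by ring
  -- the main term
  have hmain : c / 2 * (dl * t ^ 80 / k ^ 2) ≤ β * π := by
    refine le_trans ?_ hβπ
    have h1 : 1 / (2 * k) ≤ 1 / (k + 1) := one_div_le_one_div_of_le (by linarith) (by linarith)
    calc c / 2 * (dl * t ^ 80 / k ^ 2) = c * (dl / k) * t ^ 80 * (1 / (2 * k)) := by
          field_simp
      _ ≤ c * (dl / k) * t ^ 80 * (1 / (k + 1)) := mul_le_mul_of_nonneg_left h1 (by positivity)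
      _ = _ := by ring
  set X := lam * dl * t ^ 80 / k ^ 2 with hX
  have hXm : c / 2 * X ≤ lam * (β * π) := by
    calc c / 2 * X = lam * (c / 2 * (dl * t ^ 80 / k ^ 2)) := by rw [hX]; ring
      _ ≤ _ := mul_le_mul_of_nonneg_left hmain hlam.le
  have hXl : t ^ 64 / k ^ 2 ≤ X := by
    rw [hX]
    refine div_le_div_of_nonneg_right ?_ (by positivity)
    calc t ^ 64 = 1 / t ^ 16 * 1 * t ^ 80 := by field_simp
      _ ≤ lam * dl * t ^ 80 := by
          refine mul_le_mul_of_nonneg_right ?_ (by positivity)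
          exact mul_le_mul hlam0 hdl (by norm_num) hlam.le
  -- the errors
  have herr : (2 * CA + CS + 6) * k * t ^ 61 ≤ c / 8 * (t ^ 64 / k ^ 2) := by
    rw [← mul_div_assoc, le_div_iff₀ (by positivity)]
    calc (2 * CA + CS + 6) * k * t ^ 61 * k ^ 2 = (8 * (2 * CA + CS + 6) * k ^ 3) * (t ^ 61 / 8) := by
          ring
      _ ≤ (c * t) * (t ^ 61 / 8) := mul_le_mul_of_nonneg_right hK1 (by positivity)
      _ = c / 8 * t ^ 62 := by ring
      _ ≤ c / 8 * t ^ 64 :=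
          mul_le_mul_of_nonneg_left (pow_le_pow_right₀ ht (by norm_num)) (by positivity)
  have he1 : 2 * |H - β * π| ≤ 2 * CA * k * t ^ 61 := by
    calc _ ≤ 2 * (CA * k * t ^ 56) := by linarith
      _ = 2 * CA * k * t ^ 56 := by ring
      _ ≤ _ := mul_le_mul_of_nonneg_left (pow_le_pow_right₀ ht (by norm_num)) (by positivity)
  have he2 : CS * t ^ 40 * k ≤ CS * k * t ^ 61 := by
    calc _ = CS * k * t ^ 40 := by ring
      _ ≤ _ := mul_le_mul_of_nonneg_left (pow_le_pow_right₀ ht (by norm_num)) (by positivity)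
  have he3 : R ≤ 6 * k * t ^ 61 := by
    refine le_trans hRle ?_
    have : 0 < t ^ 61 := by positivity
    nlinarith
  -- put together
  have hb1 : β * (π - lam * H - CS * t ^ 40 * k) ≤ β * cA := by
    refine mul_le_mul_of_nonneg_left ?_ hβ0
    have := neg_abs_le (cA - (π - lam * H))
    linarith
  have hb2 : β * (CS * t ^ 40 * k) ≤ CS * t ^ 40 * k := by
    have : 0 ≤ CS * t ^ 40 * k := by positivity
    nlinarith
  have hb3 : lam * (β * π) / 2 - |H - β * π| ≤ lam * H * (1 - β) := by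
    have h1 : β * π - |H - β * π| ≤ H := by
      have := neg_abs_le (H - β * π)
      linarith
    have h2 : lam * (1 - β) * (β * π - |H - β * π|) ≤ lam * (1 - β) * H :=
      mul_le_mul_of_nonneg_left h1 (mul_nonneg hlam.le (by linarith))
    have h3 : lam * (1 - β) * |H - β * π| ≤ |H - β * π| := by
      have : lam * (1 - β) ≤ 1 := by nlinarith
      nlinarith [abs_nonneg (H - β * π)]
    have h4 : lam * (β * π) / 2 ≤ lam * (1 - β) * (β * π) := by
      have h5 : 0 ≤ lam * (β * π) := by positivity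
      nlinarith
    nlinarith
  have hb4 := neg_abs_le (H - β * π)
  have hb5 := le_abs_self (H - β * π)
  have hfin : c / 4 * X - 2 * CA * k * t ^ 61 - CS * k * t ^ 61 - 6 * k * t ^ 61 ≤ D := by
    nlinarith
  have : c / 8 * lam * dl * t ^ 80 / k ^ 2 = c / 8 * X := by rw [hX]; ring
  rw [this]
  have h9 : c / 8 * (t ^ 64 / k ^ 2) ≤ c / 8 * X := mul_le_mul_of_nonneg_left hXl (by positivity)
  nlinarith

theorem card_Qs (l₁ l₂ : ℕ) : ((Qs l₁ l₂).card : ℝ) ≤ 2 ^ l₂ := by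
  have h : (Qs l₁ l₂).card ≤ 2 ^ l₂ := by
    unfold Qs
    refine (card_filter_le _ _).trans ?_
    rw [Nat.card_Ioc]
    exact Nat.sub_le _ _
  exact_mod_cast h

theorem card_blk (k : ℕ) : ((blk k).card : ℝ) ≤ 2 ^ k := by
  have h : (blk k).card ≤ 2 ^ k := by
    unfold blk
    refine (card_filter_le _ _).trans ?_
    rw [Nat.card_Ioc, pow_succ]
    omega
  exact_mod_cast h

/-- exchange of the sums over the moduli and the elements -/
theorem sum_hit (a : ℕ → ℕ) (l₁ l₂ k : ℕ) (f : ℕ → ℝ) :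
    ∑ q ∈ Qs l₁ l₂, ∑ n ∈ (blk k).filter (fun n => n ≡ a q [MOD q]), f n =
      ∑ n ∈ blk k, (hit a l₁ l₂ n : ℝ) * f n := by
  simp only [sum_filter]
  rw [sum_comm]
  refine sum_congr rfl fun n _ => ?_
  unfold hit
  rw [← sum_filter, sum_const, nsmul_eq_mul]

/-- the exponent `l₂` -/
theorem l₂_le {k l₁ l₂ : ℕ} {lam : ℝ} (h : Adm k l₁ l₂ lam) (hk : 1600 ≤ k) :
    40 * l₂ ≤ 21 * k + 40 := by
  have h1 := h.sq
  have h2 := h.up
  have h3 := h.lt
  obtain ⟨d, rfl⟩ := Nat.exists_eq_add_of_lt h3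
  have h4 : l₁ + d + 1 - l₁ = d + 1 := by omega
  rw [h4] at h1
  have h5 : 40 * (d + 1) ≤ k := by
    by_contra h6
    push Not at h6
    have h7 : k * k < (40 * (d + 1)) * (40 * (d + 1)) := Nat.mul_lt_mul'' h6 h6
    nlinarith
  omega

/-- `∑ |x_i| ≤ √(#I) √(∑ x_i²)` -/
theorem sum_abs_le {I : Finset ℕ} (x : ℕ → ℝ) {M Z : ℝ} (hM : (I.card : ℝ) ≤ M) (hM0 : 0 ≤ M)
    (hZ : ∑ i ∈ I, |x i| ^ 2 ≤ Z) : ∑ i ∈ I, |x i| ≤ √(M * Z) := by
  refine Real.le_sqrt_of_sq_le ?_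
  have h1 : (∑ i ∈ I, |x i|) ^ 2 ≤ I.card * ∑ i ∈ I, |x i| ^ 2 := sq_sum_le_card_mul_sum_sq
  have h2 : 0 ≤ ∑ i ∈ I, |x i| ^ 2 := sum_nonneg fun i _ => by positivity
  calc _ ≤ _ := h1
    _ ≤ M * Z := mul_le_mul hM hZ h2 hM0

end Gb

theorem gb (hCHE : LT.S_CHE) (hCH : S_CH) (hA : S_A) (hSE : S_SE) : S_GB := by
  obtain ⟨c1, hc1, h1⟩ := hCHE
  obtain ⟨c2, k2, hc2, h2⟩ := hCH
  obtain ⟨CA, kA, hCA, h3⟩ := hA
  obtain ⟨CS, hCS, h4⟩ := hSE
  obtain ⟨k3, hk3⟩ := Gb.exists_large (8 * (2 * CA + CS + 6) / (c1 * c2) + 2 * CA + 1)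
  refine ⟨CA + CS, c1 * c2 / 8, max (max k2 kA) (max k3 1600), by positivity, by positivity, ?_⟩
  intro k l₁ l₂ lam hk hadm J _ W c hW hW1 hc
  have hk2 : k2 ≤ k := (le_max_left _ _).trans ((le_max_left _ _).trans hk)
  have hkA : kA ≤ k := (le_max_right _ _).trans ((le_max_left _ _).trans hk)
  have hkk3 : k3 ≤ k := (le_max_left _ _).trans ((le_max_right _ _).trans hk)
  have hk16 : 1600 ≤ k := (le_max_right _ _).trans ((le_max_right _ _).trans hk)
  obtain ⟨hl2k, hbl, hbu⟩ := h2 k l₁ l₂ lam hk2 hadm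
  obtain ⟨a, ha1, ha2, ha3, ha4⟩ := h3 k l₁ l₂ lam hkA hadm J W c hW hW1 hc
  have hlam0 : 0 < lam := lt_of_lt_of_le (Gb.e2_pos _) hadm.pos
  have hlam1 : lam ≤ 1 := by
    have h5 := hadm.le
    have h6 : (1 : ℝ) ≤ 4 * k + 20 := by
      have : (0 : ℝ) ≤ k := Nat.cast_nonneg k
      linarith
    nlinarith
  set ρ : ℕ → ℝ := fun n => if n ∈ blk k then 1 - lam * hit a l₁ l₂ n else 0 with hρdef
  have hρin : ∀ n ∈ blk k, ρ n = 1 - lam * hit a l₁ l₂ n := fun n hn => by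
    simp only [hρdef, if_pos hn]
  have hρ : ∀ n, 0 ≤ ρ n ∧ ρ n ≤ 1 := by
    intro n
    by_cases hn : n ∈ blk k
    · rw [hρin n hn]
      have h5 := ha4 n hn
      have h6 : 0 ≤ lam * hit a l₁ l₂ n := by positivity
      constructor <;> linarith
    · simp only [hρdef, if_neg hn]
      norm_num
  obtain ⟨A, hA1, hA2, hA3, hA4⟩ := h4 k ρ (by omega) hρ J W c hW hW1 hc (Qs l₁ l₂)
    (fun q => (blk k).filter fun n => n ≡ a q [MOD q]) (fun _ _ => filter_subset _ _)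
  refine ⟨A, a, hA1, ha1, ?_, ?_⟩
  · intro j y
    have e1 : (∑ n ∈ (blk k).filter (· ≤ y), (ρ n : ℂ) * c j n) -
        ((1 - lam * bet l₁ l₂ : ℝ) : ℂ) * ∑ n ∈ (blk k).filter (· ≤ y), c j n =
        -(lam : ℂ) * ∑ n ∈ (blk k).filter (· ≤ y), c j n * ((hit a l₁ l₂ n : ℂ) - bet l₁ l₂) := by
      rw [mul_sum, mul_sum, ← sum_sub_distrib]
      refine sum_congr rfl fun n hn => ?_
      rw [hρin n (mem_of_mem_filter n hn)]
      push_cast
      ring
    calc _ = ‖(∑ n ∈ A.filter (· ≤ y), c j n -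
          ∑ n ∈ (blk k).filter (· ≤ y), (ρ n : ℂ) * c j n) +
          ((∑ n ∈ (blk k).filter (· ≤ y), (ρ n : ℂ) * c j n) -
        ((1 - lam * bet l₁ l₂ : ℝ) : ℂ) * ∑ n ∈ (blk k).filter (· ≤ y), c j n)‖ := by
          congr 1
          ring
      _ ≤ CS * e2 (k / 2) * (k + Real.log (1 / W j)) +
          CA * e2 (k / 2) * (k + Real.log (1 / W j)) := by
          refine (norm_add_le _ _).trans (add_le_add (hA2 j y) ?_)
          rw [e1, norm_mul, norm_neg, Complex.norm_real, Real.norm_of_nonneg hlam0.le]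
          exact ha2 j y
      _ = _ := by ring
  · -- the second conclusion
    set t : ℝ := e2 (1 / 80) ^ k with ht
    have ht1 : 1 ≤ t := by
      rw [ht]
      refine one_le_pow₀ ?_
      unfold e2
      exact Real.one_le_rpow (by norm_num) (by norm_num)
    have h2k : (2 : ℝ) ^ k = t ^ 80 := by
      rw [ht, ← Gb.e2_eq 80 k (k : ℝ) (by push_cast; ring)]
      unfold e2
      rw [Real.rpow_natCast]
    have h40 : e2 ((k : ℝ) / 2) = t ^ 40 := Gb.e2_eq 40 k _ (by push_cast; ring)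
    have h16 : e2 (-((k : ℝ) / 5)) = 1 / t ^ 16 := by
      rw [Gb.e2_neg, Gb.e2_eq 16 k ((k : ℝ) / 5) (by push_cast; ring)]
    have hk1 : (1 : ℝ) ≤ k := by
      have : 1 ≤ k := by omega
      exact_mod_cast this
    set H : ℝ := ∑ n ∈ blk k, (hit a l₁ l₂ n : ℝ) with hH
    set π : ℝ := ((blk k).card : ℝ) with hπ
    have hHnn : 0 ≤ H := sum_nonneg fun n _ => Nat.cast_nonneg _
    have hdl : (1 : ℝ) ≤ (l₂ : ℝ) - l₁ := by
      have h5 : l₁ + 1 ≤ l₂ := hadm.lt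
      have h6 : ((l₁ : ℝ)) + 1 ≤ l₂ := by exact_mod_cast h5
      linarith
    have hβ0 : 0 ≤ bet l₁ l₂ := by
      refine le_trans ?_ hbl
      positivity
    -- sums of the error terms
    set x : ℕ → ℝ := fun q => ((A ∩ (blk k).filter fun n => n ≡ a q [MOD q]).card : ℝ) -
      ∑ n ∈ (blk k).filter (fun n => n ≡ a q [MOD q]), ρ n with hx
    have hcardB : ∑ q ∈ Qs l₁ l₂, (((blk k).filter fun n => n ≡ a q [MOD q]).card : ℝ) = H := by
      have h5 := Gb.sum_hit a l₁ l₂ k (fun _ => 1)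
      simp only [sum_const, nsmul_eq_mul, mul_one] at h5
      exact h5
    have hR := Gb.sum_abs_le (I := Qs l₁ l₂) x (Gb.card_Qs l₁ l₂) (by positivity) hA4
    rw [hcardB] at hR
    have hl2 : (2 : ℝ) ^ l₂ ≤ 2 * t ^ 42 := by
      have h5 := Gb.l₂_le hadm hk16
      have h6 : (l₂ : ℝ) ≤ 1 + 42 * k / 80 := by
        have h7 : (40 : ℝ) * l₂ ≤ 21 * k + 40 := by exact_mod_cast h5
        linarith
      calc (2 : ℝ) ^ l₂ = (2 : ℝ) ^ (l₂ : ℝ) := (Real.rpow_natCast _ _).symm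
        _ ≤ (2 : ℝ) ^ (1 + 42 * k / 80 : ℝ) := Real.rpow_le_rpow_of_exponent_le (by norm_num) h6
        _ = 2 * e2 (42 * k / 80) := by
            rw [Real.rpow_add (by norm_num), Real.rpow_one]
            rfl
        _ = 2 * t ^ 42 := by
            rw [Gb.e2_eq 42 k (42 * k / 80) (by push_cast; ring)]
    have hR' : ∑ q ∈ Qs l₁ l₂, |x q| ≤ √(2 * t ^ 42 * (7 * (H + 1))) :=
      hR.trans (Real.sqrt_le_sqrt (mul_le_mul_of_nonneg_right hl2 (by positivity)))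
    -- the sum of `hit` with the weights
    have hsumρ : ∑ n ∈ blk k, ρ n = π - lam * H := by
      rw [sum_congr rfl hρin, sum_sub_distrib, ← mul_sum, sum_const, nsmul_eq_mul, mul_one]
    have hsumB : ∑ q ∈ Qs l₁ l₂, ∑ n ∈ (blk k).filter (fun n => n ≡ a q [MOD q]), ρ n ≤
        H - lam * H := by
      rw [Gb.sum_hit, hH, mul_sum, ← sum_sub_distrib]
      refine sum_le_sum fun n hn => ?_
      rw [hρin n hn]
      have h5 : (hit a l₁ l₂ n : ℝ) ≤ (hit a l₁ l₂ n : ℝ) * hit a l₁ l₂ n := by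
        have : hit a l₁ l₂ n ≤ hit a l₁ l₂ n * hit a l₁ l₂ n := Nat.le_mul_self _
        exact_mod_cast this
      nlinarith
    have hAB : ∀ q, A.filter (fun n => n ≡ a q [MOD q]) =
        A ∩ (blk k).filter fun n => n ≡ a q [MOD q] := by
      intro q
      ext n
      simp only [mem_filter, mem_inter]
      constructor
      · rintro ⟨h5, h6⟩
        exact ⟨h5, hA1 h5, h6⟩
      · rintro ⟨h5, -, h6⟩
        exact ⟨h5, h6⟩
    have hsum : ∑ q ∈ Qs l₁ l₂, ((A.filter fun n => n ≡ a q [MOD q]).card : ℝ) ≤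
        (H - lam * H) + ∑ q ∈ Qs l₁ l₂, |x q| := by
      calc _ = ∑ q ∈ Qs l₁ l₂, (∑ n ∈ (blk k).filter (fun n => n ≡ a q [MOD q]), ρ n + x q) := by
            refine sum_congr rfl fun q _ => ?_
            rw [hAB q, hx]
            ring
        _ = ∑ q ∈ Qs l₁ l₂, (∑ n ∈ (blk k).filter (fun n => n ≡ a q [MOD q]), ρ n) +
            ∑ q ∈ Qs l₁ l₂, x q := sum_add_distrib
        _ ≤ _ := add_le_add hsumB (sum_le_sum fun q _ => le_abs_self _)
    have hdiv : ∑ q ∈ Qs l₁ l₂, ((A.card : ℝ) / ((q : ℝ) - 1)) = bet l₁ l₂ * A.card := by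
      unfold bet
      rw [sum_mul]
      refine sum_congr rfl fun q _ => ?_
      ring
    have hfin := Gb.final (k := (k : ℝ)) (t := t) (lam := lam) (β := bet l₁ l₂) (π := π) (H := H)
      (CA := CA) (CS := CS) (c := c1 * c2) (dl := (l₂ : ℝ) - l₁)
      (D := ∑ q ∈ Qs l₁ l₂,
        ((A.card : ℝ) / ((q : ℝ) - 1) - ((A.filter fun n => n ≡ a q [MOD q]).card : ℝ)))
      (cA := (A.card : ℝ)) (R := ∑ q ∈ Qs l₁ l₂, |x q|) hk1 ht1 hCA hCS (by positivity)
      (hk3 k hkk3) (h16 ▸ hadm.pos) hlam1 hβ0 hbu (h2k ▸ Gb.card_blk k) (Nat.cast_nonneg _)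
      ?_ hdl ?_ ?_ hR' ?_
    · rw [h2k]
      exact hfin
    · have h5 := h1 k
      rw [h2k] at h5
      calc c1 * c2 * (((l₂ : ℝ) - l₁) / k) * (t ^ 80 / (k + 1)) =
          (c2 * ((l₂ : ℝ) - l₁) / k) * (c1 * t ^ 80 / (k + 1)) := by ring
        _ ≤ bet l₁ l₂ * π := mul_le_mul hbl h5 (by positivity) hβ0
    · rw [← h40]
      refine le_trans (le_of_eq ?_) ha3
      rw [sum_sub_distrib, sum_const, nsmul_eq_mul, mul_comm (bet l₁ l₂)]
    · rw [← h40, ← hsumρ]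
      exact hA3
    · rw [sum_sub_distrib, hdiv]
      linarith

end Pool.Agent.H414.GE
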