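import Pool.Agent.H414.GE.Spec

/-!
One block, all characters.
-/

set_option autoImplicit false

namespace Pool.Agent.H414.GE

open Finset
open Pool.Agent.H414.LT (primesUpTo blk kk)
open Pool.Agent.H414.DF (e2)

namespace Gc

theorem card_char (q : ℕ) [Fintype (DirichletCharacter ℂ (q + 1))] :
    (Fintype.card (DirichletCharacter ℂ (q + 1)) : ℝ) ≤ (q : ℝ) + 1 := by
  have h1 := DirichletCharacter.card_eq_totient_of_hasEnoughRootsOfUnity ℂ (q + 1)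
  rw [Nat.card_eq_fintype_card] at h1
  rw [h1]
  have h2 := Nat.totient_le (q + 1)
  exact_mod_cast h2

theorem sum_one (R : ℕ) : ∑ j : Fin R, 1 / ((j.val : ℝ) + 2) ^ 2 ≤ 1 := by
  rw [Fin.sum_univ_eq_sum_range (fun j : ℕ => 1 / ((j : ℝ) + 2) ^ 2)]
  have h : ∀ n : ℕ, ∑ j ∈ range n, 1 / ((j : ℝ) + 2) ^ 2 ≤ 1 - 1 / ((n : ℝ) + 1) := by
    intro n
    induction n with
    | zero => simp
    | succ n ih =>
      rw [Finset.sum_range_succ]
      have h1 : 1 / ((n : ℝ) + 2) ^ 2 ≤ 1 / ((n : ℝ) + 1) - 1 / ((n : ℝ) + 2) := by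
        have e : 1 / ((n : ℝ) + 1) - 1 / ((n : ℝ) + 2) = 1 / (((n : ℝ) + 1) * ((n : ℝ) + 2)) := by
          field_simp
          ring
        rw [e]
        refine one_div_le_one_div_of_le (by positivity) ?_
        nlinarith [(n.cast_nonneg : (0 : ℝ) ≤ n)]
      have e2 : ((n + 1 : ℕ) : ℝ) + 1 = (n : ℝ) + 2 := by
        push_cast
        ring
      rw [e2]
      linarith
  have h2 := h R
  have h3 : (0 : ℝ) ≤ 1 / ((R : ℝ) + 1) := by positivity
  linarith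

theorem sum_two (R : ℕ) : ∑ j : Fin R, 1 / ((j.val : ℝ) + 1) ^ 2 ≤ 2 := by
  rw [Fin.sum_univ_eq_sum_range (fun j : ℕ => 1 / ((j : ℝ) + 1) ^ 2)]
  cases R with
  | zero => simp
  | succ R =>
    rw [Finset.sum_range_succ']
    have h := sum_one R
    rw [Fin.sum_univ_eq_sum_range (fun j : ℕ => 1 / ((j : ℝ) + 2) ^ 2)] at h
    have e : ∀ k ∈ range R, 1 / (((k + 1 : ℕ) : ℝ) + 1) ^ 2 = 1 / ((k : ℝ) + 2) ^ 2 := by
      intro k _
      push_cast
      ring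
    rw [Finset.sum_congr rfl e]
    simp only [CharP.cast_eq_zero, zero_add, one_pow, div_one]
    linarith

theorem card_blk (k : ℕ) : ((blk k).card : ℝ) ≤ 2 ^ k := by
  have h1 : (blk k).card ≤ (Ioc (2 ^ k) (2 ^ (k + 1))).card := Finset.card_filter_le _ _
  rw [Nat.card_Ioc, pow_succ] at h1
  have h2 : (blk k).card ≤ 2 ^ k := by omega
  exact_mod_cast h2

theorem one_le_e2 (k : ℕ) : 1 ≤ e2 ((k : ℝ) / 2) := by
  unfold e2
  exact Real.one_le_rpow (by norm_num) (by positivity)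

theorem norm_sum (s : Finset ℕ) (k : ℕ) (hs : s ⊆ blk k) (f : ℕ → ℂ) (hf : ∀ n, ‖f n‖ ≤ 1) :
    ‖∑ n ∈ s, f n‖ ≤ 2 ^ k := by
  calc ‖∑ n ∈ s, f n‖ ≤ ∑ n ∈ s, ‖f n‖ := norm_sum_le _ _
    _ ≤ ∑ n ∈ s, (1 : ℝ) := Finset.sum_le_sum fun n _ => hf n
    _ = (s.card : ℝ) := by simp
    _ ≤ ((blk k).card : ℝ) := by exact_mod_cast Finset.card_le_card hs
    _ ≤ 2 ^ k := card_blk k

end Gc

open Gc in
theorem gc (hCH : S_CH) (hGB : S_GB) : S_GC := by
  classical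
  obtain ⟨c₁, k₁, hc₁, hCH⟩ := hCH
  obtain ⟨C, c₀, k₀, hC, hc₀, hGB⟩ := hGB
  refine ⟨5 * C + 4, c₀, max k₀ k₁, by positivity, hc₀, ?_⟩
  intro k l₁ l₂ lam hk hA c hc
  obtain ⟨hl2, hb1, hb2⟩ := hCH k l₁ l₂ lam ((le_max_right _ _).trans hk) hA
  set R : ℕ := 2 ^ (2 ^ k) with hR
  let J : Type := Fin R × Σ q : Fin R, DirichletCharacter ℂ (q.val + 1)
  let W : J → ℝ := fun x =>
    1 / 4 * (1 / ((x.1.val : ℝ) + 2) ^ 2 * (1 / ((x.2.1.val : ℝ) + 1) ^ 3))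
  let c' : J → ℕ → ℂ := fun x n => c x.1.val n * x.2.2 n
  have hcc : ∀ (j q : ℕ) [NeZero q] (χ : DirichletCharacter ℂ q) (n : ℕ), ‖c j n * χ n‖ ≤ 1 := by
    intro j q _ χ n
    rw [norm_mul]
    exact mul_le_one₀ (hc j n) (norm_nonneg _) (χ.norm_le_one _)
  have hW0 : ∀ x, 0 < W x := fun x => by positivity
  have hWs : ∑ x, W x ≤ 1 := by
    have e1 : ∑ x, W x = 1 / 4 * ((∑ j : Fin R, 1 / ((j.val : ℝ) + 2) ^ 2) *
        ∑ q : Fin R, (Fintype.card (DirichletCharacter ℂ (q.val + 1)) : ℝ) *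
          (1 / ((q.val : ℝ) + 1) ^ 3)) := by
      rw [Fintype.sum_prod_type, Finset.sum_mul, Finset.mul_sum]
      refine Finset.sum_congr rfl fun j _ => ?_
      rw [Fintype.sum_sigma, Finset.mul_sum, Finset.mul_sum]
      refine Finset.sum_congr rfl fun q _ => ?_
      simp only [W, Finset.sum_const, Finset.card_univ, nsmul_eq_mul]
      ring
    have e2 : ∑ q : Fin R, (Fintype.card (DirichletCharacter ℂ (q.val + 1)) : ℝ) *
        (1 / ((q.val : ℝ) + 1) ^ 3) ≤ 2 := by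
      refine le_trans (Finset.sum_le_sum fun q _ => ?_) (sum_two R)
      calc (Fintype.card (DirichletCharacter ℂ (q.val + 1)) : ℝ) * (1 / ((q.val : ℝ) + 1) ^ 3) ≤
          ((q.val : ℝ) + 1) * (1 / ((q.val : ℝ) + 1) ^ 3) :=
            mul_le_mul_of_nonneg_right (card_char q.val) (by positivity)
        _ = 1 / ((q.val : ℝ) + 1) ^ 2 := by
            field_simp
    have e3 := sum_one R
    have e4 : (∑ j : Fin R, 1 / ((j.val : ℝ) + 2) ^ 2) *
        ∑ q : Fin R, (Fintype.card (DirichletCharacter ℂ (q.val + 1)) : ℝ) *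
          (1 / ((q.val : ℝ) + 1) ^ 3) ≤ 1 * 2 :=
      mul_le_mul e3 e2 (Finset.sum_nonneg fun q _ => by positivity) (by norm_num)
    rw [e1]
    linarith
  obtain ⟨A, a, h1, h2, h3, h4⟩ := hGB k l₁ l₂ lam ((le_max_left _ _).trans hk) hA J W c' hW0 hWs
    (fun x n => hcc _ _ _ _)
  refine ⟨A, a, h1, h2, ?_, h4⟩
  intro j q hq χ y
  have hq1 : 1 ≤ q := Nat.one_le_iff_ne_zero.2 (NeZero.ne q)
  have hqR : (1 : ℝ) ≤ q := by exact_mod_cast hq1
  have hj0 : (0 : ℝ) ≤ j := j.cast_nonneg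
  have he := one_le_e2 k
  have hk0 : (0 : ℝ) ≤ k := k.cast_nonneg
  have hL2 : (2 : ℝ) ≤ ((j : ℝ) + 2) * q := by nlinarith
  have hlog2 : Real.log 2 ≤ Real.log (((j : ℝ) + 2) * q) := Real.log_le_log (by norm_num) hL2
  have hlog0 : 0 < Real.log (((j : ℝ) + 2) * q) := lt_of_lt_of_le (Real.log_pos (by norm_num)) hlog2
  by_cases hjq : j < R ∧ q ≤ R
  · obtain ⟨q, rfl⟩ : ∃ q', q = q' + 1 := ⟨q - 1, by omega⟩
    have hx := h3 (⟨⟨j, hjq.1⟩, ⟨⟨q, by omega⟩, χ⟩⟩ : J) y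
    refine hx.trans ?_
    have e1 : Real.log (1 / W (⟨⟨j, hjq.1⟩, ⟨⟨q, by omega⟩, χ⟩⟩ : J)) ≤
        5 * Real.log (((j : ℝ) + 2) * (q + 1 : ℕ)) := by
      have e2 : 1 / W (⟨⟨j, hjq.1⟩, ⟨⟨q, by omega⟩, χ⟩⟩ : J) =
          4 * ((j : ℝ) + 2) ^ 2 * (((q + 1 : ℕ) : ℝ)) ^ 3 := by
        simp only [W]
        push_cast
        field_simp
      rw [e2]
      have e3 : 4 * ((j : ℝ) + 2) ^ 2 * (((q + 1 : ℕ) : ℝ)) ^ 3 ≤
          (((j : ℝ) + 2) * (q + 1 : ℕ)) ^ 5 := by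
        have f1 : (4 : ℝ) ≤ (((j : ℝ) + 2) * (q + 1 : ℕ)) ^ 2 := by nlinarith
        have f2 : ((j : ℝ) + 2) ^ 2 * (((q + 1 : ℕ) : ℝ)) ^ 3 ≤
            (((j : ℝ) + 2) * (q + 1 : ℕ)) ^ 3 := by
          rw [mul_pow]
          refine mul_le_mul_of_nonneg_right ?_ (by positivity)
          exact pow_le_pow_right₀ (by linarith) (by norm_num)
        calc 4 * ((j : ℝ) + 2) ^ 2 * (((q + 1 : ℕ) : ℝ)) ^ 3 =
            4 * (((j : ℝ) + 2) ^ 2 * (((q + 1 : ℕ) : ℝ)) ^ 3) := by ring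
          _ ≤ (((j : ℝ) + 2) * (q + 1 : ℕ)) ^ 2 * (((j : ℝ) + 2) * (q + 1 : ℕ)) ^ 3 :=
            mul_le_mul f1 f2 (by positivity) (by positivity)
          _ = _ := by ring
      calc Real.log (4 * ((j : ℝ) + 2) ^ 2 * (((q + 1 : ℕ) : ℝ)) ^ 3) ≤
          Real.log ((((j : ℝ) + 2) * (q + 1 : ℕ)) ^ 5) := Real.log_le_log (by positivity) e3
        _ = _ := by
            rw [Real.log_pow]
            push_cast
            ring
    have e2' : 0 ≤ C * e2 ((k : ℝ) / 2) := mul_nonneg hC (by linarith)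
    set L := Real.log (((j : ℝ) + 2) * (q + 1 : ℕ)) with hL
    calc C * e2 ((k : ℝ) / 2) * (k + Real.log (1 / W (⟨⟨j, hjq.1⟩, ⟨⟨q, by omega⟩, χ⟩⟩ : J))) ≤
        C * e2 ((k : ℝ) / 2) * (5 * (k + L)) :=
          mul_le_mul_of_nonneg_left (by linarith) e2'
      _ ≤ C * e2 ((k : ℝ) / 2) * (5 * (k + L)) + 4 * e2 ((k : ℝ) / 2) * (k + L) := by
          have : 0 ≤ 4 * e2 ((k : ℝ) / 2) * (k + L) :=
            mul_nonneg (by linarith) (by linarith)
          linarith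
      _ = _ := by ring
  · have hlow : (2 : ℝ) ^ k * (1 / 2) ≤ Real.log (((j : ℝ) + 2) * q) := by
      have f1 : ((2 : ℝ) ^ (2 ^ k)) ≤ ((j : ℝ) + 2) * q := by
        rcases not_and_or.1 hjq with h | h
        · have f2 : R ≤ j := not_lt.1 h
          have f3 : ((2 : ℝ) ^ (2 ^ k)) ≤ j := by
            rw [hR] at f2
            exact_mod_cast f2
          nlinarith
        · have f2 : R ≤ q := (not_le.1 h).le
          have f3 : ((2 : ℝ) ^ (2 ^ k)) ≤ q := by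
            rw [hR] at f2
            exact_mod_cast f2
          nlinarith
      have f4 := Real.log_le_log (by positivity) f1
      rw [Real.log_pow] at f4
      push_cast at f4
      have f5 : (1 / 2 : ℝ) ≤ Real.log 2 := by
        have := Real.log_two_gt_d9
        linarith
      have f6 : (2 : ℝ) ^ k * (1 / 2) ≤ (2 : ℝ) ^ k * Real.log 2 :=
        mul_le_mul_of_nonneg_left f5 (by positivity)
      linarith
    have g1 : ‖∑ n ∈ A.filter (· ≤ y), c j n * χ n‖ ≤ 2 ^ k :=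
      norm_sum _ k ((Finset.filter_subset _ _).trans h1) _ (hcc j q χ)
    have g2 : ‖∑ n ∈ (blk k).filter (· ≤ y), c j n * χ n‖ ≤ 2 ^ k :=
      norm_sum _ k (Finset.filter_subset _ _) _ (hcc j q χ)
    have hlam0 : 0 < lam := lt_of_lt_of_le (by unfold e2; positivity) hA.pos
    have hlam1 : lam ≤ 1 := by
      have := hA.le
      nlinarith
    have hb0 : 0 ≤ bet l₁ l₂ := by
      refine le_trans ?_ hb1
      have : (l₁ : ℝ) ≤ l₂ := by exact_mod_cast hA.lt.le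
      have : 0 ≤ (l₂ : ℝ) - l₁ := by linarith
      positivity
    have g3 : ‖((1 - lam * bet l₁ l₂ : ℝ) : ℂ)‖ ≤ 1 := by
      rw [Complex.norm_real, Real.norm_eq_abs, abs_le]
      constructor
      · nlinarith
      · nlinarith
    have g4 : ‖((1 - lam * bet l₁ l₂ : ℝ) : ℂ) * ∑ n ∈ (blk k).filter (· ≤ y), c j n * χ n‖ ≤
        2 ^ k := by
      rw [norm_mul]
      calc _ ≤ 1 * (2 : ℝ) ^ k := mul_le_mul g3 g2 (norm_nonneg _) (by norm_num)
        _ = 2 ^ k := one_mul _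
    have g5 := norm_sub_le (∑ n ∈ A.filter (· ≤ y), c j n * χ n)
      (((1 - lam * bet l₁ l₂ : ℝ) : ℂ) * ∑ n ∈ (blk k).filter (· ≤ y), c j n * χ n)
    refine g5.trans ?_
    set L := Real.log (((j : ℝ) + 2) * q) with hL
    have g6 : 2 * (2 : ℝ) ^ k ≤ 4 * L := by linarith
    have g7 : 4 * L ≤ 4 * e2 ((k : ℝ) / 2) * (k + L) := by
      have : L ≤ e2 ((k : ℝ) / 2) * (k + L) := by nlinarith
      linarith
    have g8 : 0 ≤ 5 * C * e2 ((k : ℝ) / 2) * (k + L) := by positivity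
    have g9 : (5 * C + 4) * e2 ((k : ℝ) / 2) * (k + L) =
        5 * C * e2 ((k : ℝ) / 2) * (k + L) + 4 * e2 ((k : ℝ) / 2) * (k + L) := by ring
    rw [g9]
    linarith

end Pool.Agent.H414.GE
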