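import Pool.Agent.H414.GE.Spec

/-! All blocks: `S_GG` from `S_GC` and `S_CH`. -/

set_option autoImplicit false

namespace Pool.Agent.H414.GE

open Finset
open Pool.Agent.H414.LT (primesUpTo blk kk)
open Pool.Agent.H414.DF (e2)

namespace Gg

/-- the sum over the primes `≤ x` by blocks -/
theorem primes_blk (x : ℕ) (f : ℕ → ℂ) :
    ∑ p ∈ primesUpTo x, f p = ∑ k ∈ range x, ∑ p ∈ (blk k).filter (· ≤ x), f p := by
  classical
  have hmaps : ∀ p ∈ primesUpTo x, kk p ∈ range x := by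
    intro p hp
    simp only [primesUpTo, mem_filter, mem_range] at hp ⊢
    have h1 := (LT.two_le_kk hp.2.two_le).1
    have h2 : kk p < 2 ^ kk p := Nat.lt_two_pow_self
    omega
  rw [← sum_fiberwise_of_maps_to hmaps]
  refine sum_congr rfl fun k _ => sum_congr ?_ fun _ _ => rfl
  ext p
  simp only [mem_filter, LT.mem_blk, primesUpTo, mem_range]
  constructor
  · rintro ⟨⟨h1, h2⟩, h3⟩
    exact ⟨⟨h2, h3⟩, by omega⟩
  · rintro ⟨⟨h1, h2⟩, h3⟩
    exact ⟨⟨by omega, h1⟩, h2⟩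

theorem e2_half (k : ℕ) : e2 ((k : ℝ) / 2) = (√2) ^ k := by
  unfold e2
  rw [Real.sqrt_eq_rpow, ← Real.rpow_natCast, ← Real.rpow_mul (by norm_num)]
  congr 1
  ring

theorem s_ge : (4 : ℝ) / 3 ≤ √2 := by
  apply Real.le_sqrt_of_sq_le
  norm_num

/-- geometric series -/
theorem geo (K : ℕ) : ∑ k ∈ range (K + 1), (√2) ^ k ≤ 4 * (√2) ^ K := by
  induction K with
  | zero => simp
  | succ n ih =>
    rw [sum_range_succ]
    have h1 := s_ge
    have h2 : 0 ≤ (√2) ^ n := by positivity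
    have h3 : 4 * (√2) ^ n ≤ 3 * (√2) ^ (n + 1) := by
      rw [pow_succ]
      nlinarith
    linarith

theorem s_pow_le (x : ℕ) (hx : x ≠ 0) : (√2) ^ (Nat.log 2 x) ≤ √(x : ℝ) := by
  apply Real.le_sqrt_of_sq_le
  rw [← pow_mul, mul_comm, pow_mul, Real.sq_sqrt (by norm_num)]
  have := Nat.pow_log_le_self 2 hx
  exact_mod_cast this

theorem log2_le (x : ℕ) (hx : x ≠ 0) : ((Nat.log 2 x : ℕ) : ℝ) ≤ 2 * Real.log ((x : ℝ) + 2) := by
  have h1 := Nat.pow_log_le_self 2 hx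
  have h2 : ((2 : ℝ) ^ (Nat.log 2 x)) ≤ x := by exact_mod_cast h1
  have h3 : Real.log ((2 : ℝ) ^ (Nat.log 2 x)) ≤ Real.log ((x : ℝ) + 2) :=
    Real.log_le_log (by positivity) (by linarith)
  rw [Real.log_pow] at h3
  have h4 : (1 : ℝ) / 2 ≤ Real.log 2 := by
    have := Real.log_two_gt_d9
    linarith
  have h5 : (0 : ℝ) ≤ (Nat.log 2 x : ℕ) := Nat.cast_nonneg _
  nlinarith

/-- the sum of the errors of the blocks -/
theorem err_sum (x : ℕ) (C L : ℝ) (hC : 0 ≤ C) (hL : 0 ≤ L) (D : ℕ → ℝ)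
    (h0 : ∀ k, x ≤ 2 ^ k → D k ≤ 0) (h1 : ∀ k, D k ≤ C * e2 ((k : ℝ) / 2) * (k + L)) :
    ∑ k ∈ range x, D k ≤ 8 * C * √(x : ℝ) * (L + Real.log ((x : ℝ) + 2)) := by
  rcases Nat.eq_zero_or_pos x with rfl | hx
  · simp
  have hx0 : x ≠ 0 := hx.ne'
  set K := Nat.log 2 x with hK
  have hlog := log2_le x hx0
  rw [← hK] at hlog
  have hsx := s_pow_le x hx0
  rw [← hK] at hsx
  have hlog0 : 0 ≤ Real.log ((x : ℝ) + 2) := Real.log_nonneg (by
    have : (0 : ℝ) ≤ x := Nat.cast_nonneg _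
    linarith)
  have hlt : ∀ k, K < k → x ≤ 2 ^ k := by
    intro k hk
    have := Nat.lt_pow_succ_log_self (b := 2) (by norm_num) x
    rw [← hK, Nat.succ_eq_add_one] at this
    have h2 : 2 ^ (K + 1) ≤ 2 ^ k := Nat.pow_le_pow_right (by norm_num) hk
    omega
  have hterm : ∀ k ∈ range x, D k ≤ if k < K + 1 then C * (√2) ^ k * (K + L) else 0 := by
    intro k _
    split_ifs with hk
    · refine le_trans (h1 k) ?_
      rw [e2_half]
      have hkK : (k : ℝ) ≤ K := by exact_mod_cast Nat.lt_succ_iff.1 hk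
      exact mul_le_mul_of_nonneg_left (by linarith) (by positivity)
    · exact h0 k (hlt k (by omega))
  calc ∑ k ∈ range x, D k ≤ ∑ k ∈ range x, (if k < K + 1 then C * (√2) ^ k * (K + L) else 0) :=
        sum_le_sum hterm
    _ = ∑ k ∈ (range x).filter (· < K + 1), C * (√2) ^ k * (K + L) := by rw [sum_filter]
    _ ≤ ∑ k ∈ range (K + 1), C * (√2) ^ k * (K + L) := by
        refine sum_le_sum_of_subset_of_nonneg ?_ fun k _ _ => by positivity
        intro k hk
        simp only [mem_filter, mem_range] at hk ⊢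
        exact hk.2
    _ = C * (∑ k ∈ range (K + 1), (√2) ^ k) * (K + L) := by
        rw [mul_sum, sum_mul]
    _ ≤ C * (4 * (√2) ^ K) * (K + L) := by
        refine mul_le_mul_of_nonneg_right (mul_le_mul_of_nonneg_left (geo K) hC) (by positivity)
    _ ≤ C * (4 * √(x : ℝ)) * (2 * (L + Real.log ((x : ℝ) + 2))) := by
        refine mul_le_mul (mul_le_mul_of_nonneg_left (by linarith) hC) (by linarith) (by positivity)
          (by positivity)
    _ = _ := by ring

section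
variable {k₁ : ℕ} {A : ℕ → Finset ℕ}

/-- the set `P` -/
def PP (k₁ : ℕ) (A : ℕ → Finset ℕ) : Set ℕ := {p | p.Prime ∧ (k₁ ≤ kk p → p ∈ A (kk p))}

open Classical in
theorem filt_lt {k : ℕ} (hk : k < k₁) (x : ℕ) (f : ℕ → ℂ) :
    ∑ p ∈ (blk k).filter (· ≤ x), (if p ∈ PP k₁ A then f p else 0) =
      ∑ p ∈ (blk k).filter (· ≤ x), f p := by
  refine sum_congr rfl fun p hp => ?_
  rw [mem_filter, LT.mem_blk] at hp
  rw [if_pos]
  refine ⟨hp.1.1, fun h => ?_⟩
  rw [hp.1.2] at h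
  omega

open Classical in
theorem filt_ge {k : ℕ} (hk : k₁ ≤ k) (hA : A k ⊆ blk k) (x : ℕ) (f : ℕ → ℂ) :
    ∑ p ∈ (blk k).filter (· ≤ x), (if p ∈ PP k₁ A then f p else 0) =
      ∑ p ∈ (A k).filter (· ≤ x), f p := by
  rw [← sum_filter]
  refine sum_congr ?_ fun _ _ => rfl
  ext p
  simp only [mem_filter, LT.mem_blk, PP, Set.mem_ofPred_eq]
  constructor
  · rintro ⟨⟨⟨h1, h2⟩, h3⟩, h4, h5⟩
    subst h2
    exact ⟨h5 hk, h3⟩
  · rintro ⟨h1, h2⟩
    have h3 := LT.mem_blk.1 (hA h1)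
    obtain ⟨h3, rfl⟩ := h3
    exact ⟨⟨⟨h3, rfl⟩, h2⟩, h3, fun _ => h1⟩

/-- the elements of `P` in a block -/
theorem card_elts {k : ℕ} (hk : k₁ ≤ k) (hA : A k ⊆ blk k) (d l : ℕ) :
    piP (PP k₁ A) (2 ^ (k + 1)) d l = piP (PP k₁ A) (2 ^ k) d l +
      (((A k).filter fun n => n ≡ l [MOD d]).card : ℝ) := by
  classical
  unfold piP
  rw [← Nat.cast_add]
  congr 1
  rw [← card_union_of_disjoint]
  · congr 1
    ext p
    simp only [elts, primesUpTo, mem_filter, mem_range, mem_union, PP, Set.mem_ofPred_eq]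
    constructor
    · rintro ⟨⟨h1, h2⟩, ⟨h3, h4⟩, h5⟩
      rcases Nat.lt_or_ge p (2 ^ k + 1) with h6 | h6
      · exact Or.inl ⟨⟨h6, h2⟩, ⟨h3, h4⟩, h5⟩
      · right
        have h7 : p ∈ blk k := by
          unfold blk
          rw [mem_filter, Finset.mem_Ioc]
          exact ⟨⟨by omega, by omega⟩, h2⟩
        obtain ⟨_, h8⟩ := LT.mem_blk.1 h7
        rw [h8] at h4
        exact ⟨h4 hk, h5⟩
    · rintro (⟨⟨h1, h2⟩, ⟨h3, h4⟩, h5⟩ | ⟨h1, h2⟩)
      · refine ⟨⟨?_, h2⟩, ⟨h3, h4⟩, h5⟩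
        have : 2 ^ k ≤ 2 ^ (k + 1) := Nat.pow_le_pow_right (by norm_num) (by omega)
        omega
      · have h3 := hA h1
        obtain ⟨h4, h5⟩ := LT.mem_blk.1 h3
        unfold blk at h3
        rw [mem_filter, Finset.mem_Ioc] at h3
        refine ⟨⟨by omega, h4⟩, ⟨h4, fun _ => ?_⟩, h2⟩
        rw [h5]
        exact h1
  · rw [Finset.disjoint_left]
    intro p h1 h2
    simp only [elts, primesUpTo, mem_filter, mem_range] at h1 h2
    have h3 := hA h2.1
    unfold blk at h3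
    rw [mem_filter, Finset.mem_Ioc] at h3
    omega

theorem dev_diff {k : ℕ} (hk : k₁ ≤ k) (hA : A k ⊆ blk k) {q : ℕ} (hq : q.Prime) (a : ℕ) :
    ((A k).card : ℝ) / ((q : ℝ) - 1) - (((A k).filter fun n => n ≡ a [MOD q]).card : ℝ) =
      dev (PP k₁ A) (2 ^ k) q a - dev (PP k₁ A) (2 ^ (k + 1)) q a := by
  classical
  unfold dev
  rw [card_elts hk hA q a, card_elts hk hA 1 0]
  have h1 : (A k).filter (fun n => n ≡ 0 [MOD 1]) = A k := by
    refine filter_true_of_mem fun n _ => Nat.modEq_one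
  rw [h1, Nat.totient_prime hq, Nat.cast_sub hq.one_le, Nat.cast_one]
  ring

end

end Gg

open Gg in
theorem gg (hCH : S_CH) (hGC : S_GC) : S_GG := by
  classical
  intro l₁ l₂ lam k₀ hAdm c hc
  obtain ⟨cc, kC, hcc, hCH⟩ := hCH
  obtain ⟨C, c₀, kG, hC, hc₀, hGC⟩ := hGC
  set k₁ := k₀ + kC + kG + 1 with hk₁
  have hG : ∀ k, k₁ ≤ k → ∃ (A : Finset ℕ) (a : ℕ → ℕ), A ⊆ blk k ∧
    (∀ q ∈ Qs (l₁ k) (l₂ k), (a q).Coprime q) ∧
    (∀ (j q : ℕ) [NeZero q] (χ : DirichletCharacter ℂ q) (y : ℕ),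
      ‖∑ n ∈ A.filter (· ≤ y), c j n * χ n -
      ((1 - lam k * bet (l₁ k) (l₂ k) : ℝ) : ℂ) * ∑ n ∈ (blk k).filter (· ≤ y), c j n * χ n‖ ≤
      C * e2 (k / 2) * (k + Real.log ((j + 2) * q))) ∧
    c₀ * lam k * ((l₂ k : ℝ) - l₁ k) * 2 ^ k / k ^ 2 ≤ ∑ q ∈ Qs (l₁ k) (l₂ k),
      ((A.card : ℝ) / ((q : ℝ) - 1) - ((A.filter fun n => n ≡ a q [MOD q]).card : ℝ)) :=
    fun k hk => hGC k (l₁ k) (l₂ k) (lam k) (by omega) (hAdm k (by omega)) c hc
  choose! A a hA ha hch hdev using hG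
  refine ⟨PP k₁ A, fun k => if k₁ ≤ k then 1 - lam k * bet (l₁ k) (l₂ k) else 1, c₀ / 2, k₁,
    by positivity, fun p hp => hp.1, ?_, ?_, ?_⟩
  · intro k
    have hk0 : (0 : ℝ) ≤ k := Nat.cast_nonneg _
    simp only
    split_ifs with hk
    · have had := hAdm k (by omega)
      obtain ⟨-, h2, h3⟩ := hCH k (l₁ k) (l₂ k) (lam k) (by omega) had
      have hlt : ((l₁ k : ℕ) : ℝ) < l₂ k := by exact_mod_cast had.lt
      have hb0 : 0 ≤ bet (l₁ k) (l₂ k) := by
        refine le_trans ?_ h2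
        have : 0 ≤ (l₂ k : ℝ) - l₁ k := by linarith
        positivity
      have hlam : 0 ≤ lam k := by
        refine le_trans ?_ had.pos
        unfold e2
        positivity
      have hle := had.le
      have hl1 : lam k * ((k : ℝ) + 1) ≤ 1 := by nlinarith
      have hl2 : lam k ≤ 1 / ((k : ℝ) + 1) := by
        rw [le_div_iff₀ (by linarith)]
        exact hl1
      constructor
      · nlinarith
      · have := mul_nonneg hlam hb0
        linarith
    · constructor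
      · have : 0 ≤ 1 / ((k : ℝ) + 1) := by positivity
        linarith
      · exact le_refl _
  · refine ⟨8 * C, fun j q _ χ x => ?_⟩
    have hq : 1 ≤ q := Nat.one_le_iff_ne_zero.2 (NeZero.ne q)
    have hq' : (1 : ℝ) ≤ q := by exact_mod_cast hq
    have hj : (0 : ℝ) ≤ j := Nat.cast_nonneg _
    have hx' : (0 : ℝ) ≤ x := Nat.cast_nonneg _
    have hL : 0 ≤ Real.log (((j : ℝ) + 2) * q) := Real.log_nonneg (by nlinarith)
    have e1 : ∑ p ∈ (primesUpTo x).filter (· ∈ PP k₁ A), c j p * χ p =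
        ∑ k ∈ range x, ∑ p ∈ (blk k).filter (· ≤ x),
          (if p ∈ PP k₁ A then c j p * χ p else 0) := by
      rw [sum_filter]
      exact primes_blk x fun p => if p ∈ PP k₁ A then c j p * χ p else 0
    rw [e1, ← sum_sub_distrib]
    refine (norm_sum_le _ _).trans ?_
    refine (err_sum x C (Real.log (((j : ℝ) + 2) * q)) hC hL _ ?_ ?_).trans ?_
    · intro k hk
      have hemp : (blk k).filter (· ≤ x) = ∅ := by
        refine filter_eq_empty_iff.2 fun p hp => ?_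
        unfold blk at hp
        rw [mem_filter, Finset.mem_Ioc] at hp
        omega
      rw [hemp]
      simp
    · intro k
      simp only
      split_ifs with hk
      · rw [filt_ge hk (hA k hk)]
        exact hch k hk j q χ x
      · rw [filt_lt (by omega)]
        rw [Complex.ofReal_one, one_mul, sub_self, norm_zero]
        have : 0 ≤ e2 ((k : ℝ) / 2) := by
          unfold e2
          positivity
        positivity
    · have e2' : Real.log (((j : ℝ) + 2) * q * (x + 2)) =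
          Real.log (((j : ℝ) + 2) * q) + Real.log ((x : ℝ) + 2) :=
        Real.log_mul (by positivity) (by positivity)
      rw [e2']
  · intro k hk
    refine ⟨a k, fun q => if |dev (PP k₁ A) (2 ^ k) q (a k q)| ≤
      |dev (PP k₁ A) (2 ^ (k + 1)) q (a k q)| then 2 ^ (k + 1) else 2 ^ k, ?_, ?_⟩
    · intro q hq
      refine ⟨ha k hk q hq, ?_⟩
      simp only
      split_ifs
      · exact le_refl _
      · exact Nat.pow_le_pow_right (by norm_num) (by omega)
    · have h1 := hdev k hk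
      have h2 : ∑ q ∈ Qs (l₁ k) (l₂ k), (((A k).card : ℝ) / ((q : ℝ) - 1) -
          (((A k).filter fun n => n ≡ a k q [MOD q]).card : ℝ)) ≤
          ∑ q ∈ Qs (l₁ k) (l₂ k), 2 * |dev (PP k₁ A) (if |dev (PP k₁ A) (2 ^ k) q (a k q)| ≤
            |dev (PP k₁ A) (2 ^ (k + 1)) q (a k q)| then 2 ^ (k + 1) else 2 ^ k) q (a k q)| := by
        refine sum_le_sum fun q hq => ?_
        have hqp : q.Prime := (mem_filter.1 hq).2
        rw [dev_diff hk (hA k hk) hqp]
        split_ifs with h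
        · have h3 := le_abs_self (dev (PP k₁ A) (2 ^ k) q (a k q))
          have h4 := neg_abs_le (dev (PP k₁ A) (2 ^ (k + 1)) q (a k q))
          linarith
        · have h3 := le_abs_self (dev (PP k₁ A) (2 ^ k) q (a k q))
          have h4 := neg_abs_le (dev (PP k₁ A) (2 ^ (k + 1)) q (a k q))
          push Not at h
          linarith
      rw [← mul_sum] at h2
      have h3 := h1.trans h2
      have e3 : c₀ / 2 * lam k * ((l₂ k : ℝ) - l₁ k) * 2 ^ k / (k : ℝ) ^ 2 =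
          (c₀ * lam k * ((l₂ k : ℝ) - l₁ k) * 2 ^ k / (k : ℝ) ^ 2) / 2 := by ring
      rw [e3]
      simp only
      linarith

end Pool.Agent.H414.GE
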