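import Pool.Agent.H414.GE.Spec

/-!
# The large sieve for classes
-/

set_option autoImplicit false

namespace Pool.Agent.H414.GE

open Finset
open Pool.Agent.H414.LT (primesUpTo blk kk)
open Pool.Agent.H414.DF (e2)

namespace Ls

open scoped ComplexConjugate RealInnerProductSpace

/-- orthogonality of the additive characters -/
theorem orth {q : ℕ} (hq : 0 < q) {ζ : ℂ} (hζ : IsPrimitiveRoot ζ q) {u v : ℕ} (hu : u < q)
    (hv : v < q) :
    ∑ b ∈ range q, (ζ ^ u) ^ b * conj ((ζ ^ v) ^ b) = if u = v then (q : ℂ) else 0 := by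
  have hn : ‖ζ‖ = 1 := hζ.norm'_eq_one hq.ne'
  have hne : ζ ≠ 0 := hζ.ne_zero hq.ne'
  have h1 : ∀ b, (ζ ^ u) ^ b * conj ((ζ ^ v) ^ b) = (ζ ^ u / ζ ^ v) ^ b := by
    intro b
    have h2 : ‖(ζ ^ v) ^ b‖ = 1 := by rw [norm_pow, norm_pow, hn, one_pow, one_pow]
    rw [← Complex.inv_eq_conj h2, div_pow, div_eq_mul_inv]
  simp only [h1]
  split_ifs with h
  · rw [h, div_self (pow_ne_zero v hne)]
    simp
  · have hw : ζ ^ u / ζ ^ v ≠ 1 := by
      intro h3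
      rw [div_eq_one_iff_eq (pow_ne_zero v hne)] at h3
      exact h (hζ.pow_inj hu hv h3)
    have hw2 : (ζ ^ u / ζ ^ v) ^ q = 1 := by
      rw [div_pow, ← pow_mul, ← pow_mul, mul_comm u, mul_comm v, pow_mul, pow_mul, hζ.pow_eq_one,
        one_pow, one_pow, div_one]
    rw [geom_sum_eq hw, hw2, sub_self, zero_div]

/-- Parseval's identity -/
theorem parseval {q : ℕ} (hq : 0 < q) {ζ : ℂ} (hζ : IsPrimitiveRoot ζ q) (Z : ℕ → ℂ) :
    ∑ b ∈ range q, ‖∑ u ∈ range q, Z u * (ζ ^ u) ^ b‖ ^ 2 = q * ∑ u ∈ range q, ‖Z u‖ ^ 2 := by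
  apply Complex.ofReal_injective
  push_cast
  simp only [← Complex.mul_conj']
  calc ∑ b ∈ range q, (∑ u ∈ range q, Z u * (ζ ^ u) ^ b) * conj (∑ u ∈ range q, Z u * (ζ ^ u) ^ b)
      = ∑ b ∈ range q, ∑ u ∈ range q, ∑ v ∈ range q,
          (Z u * conj (Z v)) * ((ζ ^ u) ^ b * conj ((ζ ^ v) ^ b)) := by
        refine sum_congr rfl fun b _ => ?_
        rw [map_sum, sum_mul_sum]
        refine sum_congr rfl fun u _ => sum_congr rfl fun v _ => ?_
        rw [map_mul]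
        ring
    _ = ∑ u ∈ range q, ∑ v ∈ range q, (Z u * conj (Z v)) *
          ∑ b ∈ range q, ((ζ ^ u) ^ b * conj ((ζ ^ v) ^ b)) := by
        rw [sum_comm]
        refine sum_congr rfl fun u _ => ?_
        rw [sum_comm]
        refine sum_congr rfl fun v _ => ?_
        rw [mul_sum]
    _ = ∑ u ∈ range q, Z u * conj (Z u) * q := by
        refine sum_congr rfl fun u hu => ?_
        rw [sum_eq_single u]
        · rw [orth hq hζ (mem_range.1 hu) (mem_range.1 hu), if_pos rfl]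
        · intro v hv hne
          rw [orth hq hζ (mem_range.1 hu) (mem_range.1 hv), if_neg (Ne.symm hne), mul_zero]
        · intro h
          exact absurd hu h
    _ = q * ∑ u ∈ range q, Z u * conj (Z u) := by
        rw [mul_sum]
        exact sum_congr rfl fun u _ => mul_comm _ _

/-- the variance -/
theorem variance {ι : Type} (U : Finset ι) (Z : ι → ℂ) (m : ℝ) (hm : m ≠ 0) (hU : (U.card : ℝ) = m) :
    ∑ u ∈ U, ‖Z u - (∑ v ∈ U, Z v) / (m : ℂ)‖ ^ 2 =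
      ∑ u ∈ U, ‖Z u‖ ^ 2 - ‖∑ v ∈ U, Z v‖ ^ 2 / m := by
  obtain ⟨S, hS⟩ : ∃ S, S = ∑ v ∈ U, Z v := ⟨_, rfl⟩
  rw [← hS]
  have ht : S / (m : ℂ) = m⁻¹ • S := by
    rw [Complex.real_smul, Complex.ofReal_inv, div_eq_mul_inv, mul_comm]
  rw [ht]
  simp only [norm_sub_sq_real]
  rw [sum_add_distrib, sum_sub_distrib, ← mul_sum, ← sum_inner, ← hS, real_inner_smul_right,
    real_inner_self_eq_norm_sq, sum_const, nsmul_eq_mul, hU, norm_smul, mul_pow, Real.norm_eq_abs,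
    sq_abs]
  field_simp
  ring

theorem pow_mod {q : ℕ} {ζ : ℂ} (hζ : IsPrimitiveRoot ζ q) (n : ℕ) : ζ ^ n = ζ ^ (n % q) := by
  rw [hζ.eq_orderOf, pow_mod_orderOf]

/-- grouping into classes -/
theorem group {q : ℕ} (hq : 0 < q) {ζ : ℂ} (hζ : IsPrimitiveRoot ζ q) (B : Finset ℕ) (c : ℕ → ℂ)
    (b : ℕ) : ∑ n ∈ B, c n * (ζ ^ n) ^ b =
      ∑ u ∈ range q, (∑ n ∈ B.filter (fun n => n ≡ u [MOD q]), c n) * (ζ ^ u) ^ b := by
  rw [← sum_fiberwise_of_maps_to (g := fun n => n % q) (t := range q)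
    (fun n _ => mem_range.2 (Nat.mod_lt n hq))]
  refine sum_congr rfl fun u hu => ?_
  rw [sum_mul]
  have h1 : B.filter (fun n => n % q = u) = B.filter (fun n => n ≡ u [MOD q]) := by
    refine filter_congr fun n _ => ?_
    unfold Nat.ModEq
    rw [Nat.mod_eq_of_lt (mem_range.1 hu)]
  rw [h1]
  refine sum_congr rfl fun n hn => ?_
  have h2 : n % q = u := by
    have h3 := (mem_filter.1 hn).2
    unfold Nat.ModEq at h3
    rwa [Nat.mod_eq_of_lt (mem_range.1 hu)] at h3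
  rw [pow_mod hζ n, h2]

/-- the bound for one modulus -/
theorem one_mod {q : ℕ} (hq : q.Prime) (B : Finset ℕ) (hB : ∀ n ∈ B, ¬ q ∣ n) (c : ℕ → ℂ) :
    ∑ u ∈ (range q).filter (Nat.Coprime q),
      ‖∑ n ∈ B.filter (fun n => n ≡ u [MOD q]), c n - (∑ n ∈ B, c n) / ((q : ℂ) - 1)‖ ^ 2 ≤
      (1 / (q : ℝ)) * ∑ b ∈ Icc 1 (q - 1),
        ‖∑ n ∈ B, c n * (Complex.exp (2 * Real.pi * Complex.I / q) ^ n) ^ b‖ ^ 2 := by
  have hq0 : 0 < q := hq.pos
  have hq2 : (2 : ℝ) ≤ q := by exact_mod_cast hq.two_le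
  have hζ := Complex.isPrimitiveRoot_exp q hq0.ne'
  obtain ⟨ζ, hζd⟩ : ∃ ζ, ζ = Complex.exp (2 * Real.pi * Complex.I / q) := ⟨_, rfl⟩
  rw [← hζd] at hζ ⊢
  obtain ⟨Z, hZ⟩ : ∃ Z : ℕ → ℂ, ∀ u, Z u = ∑ n ∈ B.filter (fun n => n ≡ u [MOD q]), c n :=
    ⟨_, fun _ => rfl⟩
  simp only [← hZ]
  have hgr : ∀ b, ∑ n ∈ B, c n * (ζ ^ n) ^ b = ∑ u ∈ range q, Z u * (ζ ^ u) ^ b := by
    intro b
    rw [group hq0 hζ B c b]
    simp only [hZ]
  have hZ0 : Z 0 = 0 := by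
    rw [hZ, filter_false_of_mem, sum_empty]
    intro n hn h
    exact hB n hn ((Nat.modEq_zero_iff_dvd).1 h)
  have hU : (range q).filter (Nat.Coprime q) = (range q).erase 0 := by
    ext u
    simp only [mem_filter, mem_range, mem_erase]
    constructor
    · rintro ⟨h1, h2⟩
      refine ⟨fun h0 => ?_, h1⟩
      rw [h0, Nat.coprime_zero_right] at h2
      exact hq.one_lt.ne' h2
    · rintro ⟨h1, h2⟩
      refine ⟨h2, (Nat.Prime.coprime_iff_not_dvd hq).2 fun h => ?_⟩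
      exact absurd (Nat.le_of_dvd (Nat.pos_of_ne_zero h1) h) (not_le.2 h2)
  have hmem0 : 0 ∈ range q := mem_range.2 hq0
  have hS : ∑ n ∈ B, c n = ∑ u ∈ (range q).erase 0, Z u := by
    have h1 := hgr 0
    simp only [pow_zero, mul_one] at h1
    rw [h1, ← add_sum_erase _ _ hmem0, hZ0, zero_add]
  have hcard : (((range q).erase 0).card : ℝ) = (q : ℝ) - 1 := by
    rw [card_erase_of_mem hmem0, card_range, Nat.cast_sub hq.one_le, Nat.cast_one]
  have hm : ((q : ℂ) - 1) = (((q : ℝ) - 1 : ℝ) : ℂ) := by push_cast; rfl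
  have hm0 : (q : ℝ) - 1 ≠ 0 := by linarith
  rw [hU, hS, hm, variance _ _ _ hm0 hcard]
  have hP := parseval hq0 hζ Z
  simp only [← hgr] at hP
  have hsplit : ∑ b ∈ range q, ‖∑ n ∈ B, c n * (ζ ^ n) ^ b‖ ^ 2 =
      ‖∑ n ∈ B, c n‖ ^ 2 + ∑ b ∈ Icc 1 (q - 1), ‖∑ n ∈ B, c n * (ζ ^ n) ^ b‖ ^ 2 := by
    have h1 : (range q).erase 0 = Icc 1 (q - 1) := by
      ext u
      simp only [mem_erase, mem_range, mem_Icc]
      omega
    rw [← add_sum_erase _ _ hmem0, h1]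
    simp only [pow_zero, mul_one]
  have hZs : ∑ u ∈ range q, ‖Z u‖ ^ 2 = ∑ u ∈ (range q).erase 0, ‖Z u‖ ^ 2 := by
    rw [← add_sum_erase _ _ hmem0, hZ0, norm_zero]
    ring
  rw [hsplit, hZs] at hP
  rw [← hS]
  have hN : 0 ≤ ‖∑ n ∈ B, c n‖ ^ 2 := by positivity
  have h1 : ‖∑ n ∈ B, c n‖ ^ 2 / (q : ℝ) ≤ ‖∑ n ∈ B, c n‖ ^ 2 / ((q : ℝ) - 1) :=
    div_le_div_of_nonneg_left hN (by linarith) (by linarith)
  have h2 : ∑ u ∈ (range q).erase 0, ‖Z u‖ ^ 2 = ‖∑ n ∈ B, c n‖ ^ 2 / (q : ℝ) +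
      1 / (q : ℝ) * ∑ b ∈ Icc 1 (q - 1), ‖∑ n ∈ B, c n * (ζ ^ n) ^ b‖ ^ 2 := by
    have hq0' : (q : ℝ) ≠ 0 := by linarith
    field_simp
    linarith
  linarith

end Ls

open Ls in
/-- the large sieve for classes -/
theorem ls (hLSA : S_LSA) : S_LS := by
  obtain ⟨C, hC, hLS⟩ := hLSA
  refine ⟨4 * C, by positivity, fun k l c hc hlk => ?_⟩
  obtain ⟨c', hc'⟩ : ∃ c' : ℕ → ℂ, ∀ n, c' n = if n.Prime then c n else 0 := ⟨_, fun _ => rfl⟩
  have h1 := hLS (2 ^ (l + 1)) (2 ^ k) (2 ^ k) c'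
  have hMN : 2 ^ k + 2 ^ k = 2 ^ (k + 1) := by ring
  rw [hMN] at h1
  -- the sums over `blk k`
  have hF : ∀ (q b : ℕ), ∑ n ∈ Ioc (2 ^ k) (2 ^ (k + 1)),
      c' n * Complex.exp (2 * Real.pi * Complex.I * (b * n / q)) =
      ∑ n ∈ blk k, c n * (Complex.exp (2 * Real.pi * Complex.I / q) ^ n) ^ b := by
    intro q b
    unfold blk
    rw [sum_filter]
    refine sum_congr rfl fun n _ => ?_
    rw [hc', ← Complex.exp_nat_mul, ← Complex.exp_nat_mul]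
    split_ifs
    · congr 2
      ring
    · rw [zero_mul]
  simp only [hF] at h1
  -- the second moment
  have hN : ∑ n ∈ Ioc (2 ^ k) (2 ^ (k + 1)), ‖c' n‖ ^ 2 ≤ (2 : ℝ) ^ k := by
    have h2 : ∀ n ∈ Ioc (2 ^ k) (2 ^ (k + 1)), ‖c' n‖ ^ 2 ≤ 1 := by
      intro n _
      rw [hc']
      split_ifs
      · exact pow_le_one₀ (norm_nonneg _) (hc n)
      · rw [norm_zero]
        norm_num
    refine (sum_le_sum h2).trans ?_
    rw [sum_const, Nat.card_Ioc, ← hMN, Nat.add_sub_cancel, nsmul_eq_mul, mul_one]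
    push_cast
    exact le_rfl
  obtain ⟨T, hT⟩ : ∃ T : ℕ → ℝ, ∀ q, T q = ∑ b ∈ Icc 1 (q - 1),
      ‖∑ n ∈ blk k, c n * (Complex.exp (2 * Real.pi * Complex.I / q) ^ n) ^ b‖ ^ 2 :=
    ⟨_, fun _ => rfl⟩
  simp only [← hT] at h1
  have hT0 : ∀ q, 0 ≤ T q := fun q => by
    rw [hT]
    positivity
  have h4l : (0 : ℝ) < 4 ^ l := by positivity
  -- one modulus
  have hone : ∀ q ∈ Qs l (l + 1), 1 / ((q : ℝ) - 1) * ∑ u ∈ (range q).filter (Nat.Coprime q),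
      ‖∑ n ∈ (blk k).filter (fun n => n ≡ u [MOD q]), c n - (∑ n ∈ blk k, c n) / ((q : ℂ) - 1)‖ ^ 2 ≤
      1 / 4 ^ l * T q := by
    intro q hq
    unfold Qs at hq
    rw [mem_filter, mem_Ioc] at hq
    obtain ⟨⟨hq1, hq2⟩, hqp⟩ := hq
    have hB : ∀ n ∈ blk k, ¬ q ∣ n := by
      intro n hn hd
      unfold blk at hn
      rw [mem_filter, mem_Ioc] at hn
      have h5 : q = n := (Nat.prime_dvd_prime_iff_eq hqp hn.2).1 hd
      have h6 : 2 ^ (l + 1) ≤ 2 ^ k := Nat.pow_le_pow_right (by norm_num) (by omega)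
      omega
    have h5 := one_mod hqp (blk k) hB c
    rw [← hT] at h5
    have hq3 : (2 : ℝ) ^ l ≤ (q : ℝ) - 1 := by
      have h6 : 2 ^ l + 1 ≤ q := hq1
      have h7 : ((2 ^ l + 1 : ℕ) : ℝ) ≤ q := by exact_mod_cast h6
      push_cast at h7
      linarith
    have h2l : (0 : ℝ) < 2 ^ l := by positivity
    have hq4 : (0 : ℝ) < (q : ℝ) - 1 := by linarith
    have hq5 : (0 : ℝ) < q := by linarith
    calc 1 / ((q : ℝ) - 1) * ∑ u ∈ (range q).filter (Nat.Coprime q),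
          ‖∑ n ∈ (blk k).filter (fun n => n ≡ u [MOD q]), c n -
            (∑ n ∈ blk k, c n) / ((q : ℂ) - 1)‖ ^ 2
        ≤ 1 / ((q : ℝ) - 1) * (1 / (q : ℝ) * T q) :=
          mul_le_mul_of_nonneg_left h5 (by positivity)
      _ = 1 / (((q : ℝ) - 1) * q) * T q := by
          rw [← mul_assoc, one_div_mul_one_div]
      _ ≤ 1 / 4 ^ l * T q := by
          refine mul_le_mul_of_nonneg_right ?_ (hT0 q)
          refine one_div_le_one_div_of_le h4l ?_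
          have h8 : (4 : ℝ) ^ l = 2 ^ l * 2 ^ l := by
            rw [← mul_pow]
            norm_num
          rw [h8]
          exact mul_le_mul hq3 (by linarith) h2l.le hq4.le
  have hsub : Qs l (l + 1) ⊆ (Icc 1 (2 ^ (l + 1))).filter Nat.Prime := by
    intro q hq
    unfold Qs at hq
    rw [mem_filter, mem_Ioc] at hq
    rw [mem_filter, mem_Icc]
    exact ⟨⟨hq.2.one_le, hq.1.2⟩, hq.2⟩
  calc ∑ q ∈ Qs l (l + 1), 1 / ((q : ℝ) - 1) * ∑ u ∈ (range q).filter (Nat.Coprime q),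
        ‖∑ n ∈ (blk k).filter (fun n => n ≡ u [MOD q]), c n -
          (∑ n ∈ blk k, c n) / ((q : ℂ) - 1)‖ ^ 2
      ≤ ∑ q ∈ Qs l (l + 1), 1 / 4 ^ l * T q := sum_le_sum hone
    _ = 1 / 4 ^ l * ∑ q ∈ Qs l (l + 1), T q := by rw [mul_sum]
    _ ≤ 1 / 4 ^ l * ∑ q ∈ (Icc 1 (2 ^ (l + 1))).filter Nat.Prime, T q := by
        refine mul_le_mul_of_nonneg_left ?_ (by positivity)
        exact sum_le_sum_of_subset_of_nonneg hsub fun q _ _ => hT0 q
    _ ≤ 1 / 4 ^ l * (C * ((2 : ℝ) ^ k + (2 ^ (l + 1)) ^ 2) * 2 ^ k) := by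
        refine mul_le_mul_of_nonneg_left (h1.trans ?_) (by positivity)
        push_cast
        exact mul_le_mul_of_nonneg_left hN (by positivity)
    _ = C * (2 ^ k / 4 ^ l + 4) * 2 ^ k := by
        have h8 : ((2 : ℝ) ^ (l + 1)) ^ 2 = 4 * 4 ^ l := by
          rw [← pow_mul, pow_mul', pow_succ]
          norm_num
          ring
        rw [h8]
        field_simp
    _ ≤ 4 * C * (2 ^ k / 4 ^ l + 1) * 2 ^ k := by
        refine mul_le_mul_of_nonneg_right ?_ (by positivity)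
        have h9 : (0 : ℝ) ≤ 2 ^ k / 4 ^ l := by positivity
        nlinarith

end Pool.Agent.H414.GE
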