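import Pool.Agent.H414.GE.Spec
import Pool.Graph.R_seed8.Helper112.LS

/-! The large sieve inequality for prime moduli. -/

set_option autoImplicit false

namespace Pool.Agent.H414.GE

open Finset

namespace Lsa

open Pool.Agent.Helper112 (ee ls_norm_ee ls_ee_add)

theorem shift (N M b q : ℕ) (c : ℕ → ℂ) :
    ‖∑ n ∈ Ioc M (M + N), c n * Complex.exp (2 * Real.pi * Complex.I * (b * n / q))‖ =
      ‖∑ n ∈ Icc 1 N, c (n + M) * ee (n * b / q)‖ := by
  have h0 : ∀ n : ℕ, Complex.exp (2 * Real.pi * Complex.I * (b * n / q)) = ee (n * b / q) := by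
    intro n
    unfold ee
    congr 1
    push_cast
    ring
  have h1 : ∑ n ∈ Ioc M (M + N), c n * Complex.exp (2 * Real.pi * Complex.I * (b * n / q)) =
      ∑ n ∈ Icc 1 N, c (n + M) * ee (((n + M : ℕ) : ℝ) * b / q) := by
    symm
    refine Finset.sum_bij (fun n _ => n + M) (fun n hn => ?_) (fun n _ n' _ h => ?_)
      (fun n hn => ?_) fun n _ => ?_
    · rw [mem_Icc] at hn
      rw [mem_Ioc]
      omega
    · exact Nat.add_right_cancel h
    · rw [mem_Ioc] at hn
      refine ⟨n - M, ?_, ?_⟩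
      · rw [mem_Icc]
        omega
      · omega
    · rw [h0]
  have h2 : ∀ n : ℕ, ee (((n + M : ℕ) : ℝ) * b / q) = ee (n * b / q) * ee (M * b / q) := by
    intro n
    rw [← ls_ee_add]
    congr 1
    push_cast
    ring
  rw [h1]
  simp only [h2]
  have h3 : ∑ n ∈ Icc 1 N, c (n + M) * (ee (n * b / q) * ee (M * b / q)) =
      (∑ n ∈ Icc 1 N, c (n + M) * ee (n * b / q)) * ee (M * b / q) := by
    rw [Finset.sum_mul]
    exact Finset.sum_congr rfl fun n _ => (mul_assoc _ _ _).symm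
  rw [h3, norm_mul, ls_norm_ee, mul_one]

theorem sq_shift (N M : ℕ) (c : ℕ → ℂ) :
    ∑ n ∈ Ioc M (M + N), ‖c n‖ ^ 2 = ∑ n ∈ Icc 1 N, ‖c (n + M)‖ ^ 2 := by
  symm
  refine Finset.sum_bij (fun n _ => n + M) (fun n hn => ?_) (fun n _ n' _ h => ?_)
    (fun n hn => ?_) fun n _ => rfl
  · rw [mem_Icc] at hn
    rw [mem_Ioc]
    omega
  · exact Nat.add_right_cancel h
  · rw [mem_Ioc] at hn
    refine ⟨n - M, ?_, ?_⟩
    · rw [mem_Icc]
      omega
    · omega

end Lsa

/-- the large sieve inequality for prime moduli -/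
theorem lsa : S_LSA := by
  refine ⟨6, by norm_num, fun Q N M c => ?_⟩
  have h1 := Pool.Agent.Helper112.additive_large_sieve N Q fun n => c (n + M)
  rw [Lsa.sq_shift]
  refine le_trans ?_ h1
  simp only [Lsa.shift]
  have h2 : ∀ q ∈ (Icc 1 Q).filter Nat.Prime, ∑ b ∈ Icc 1 (q - 1),
      ‖∑ n ∈ Icc 1 N, c (n + M) * Pool.Agent.Helper112.ee (n * b / q)‖ ^ 2 ≤
      ∑ b ∈ (range q).filter (fun a => a.Coprime q),
        ‖∑ n ∈ Icc 1 N, c (n + M) * Pool.Agent.Helper112.ee (n * b / q)‖ ^ 2 := by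
    intro q hq
    rw [mem_filter, mem_Icc] at hq
    refine Finset.sum_le_sum_of_subset_of_nonneg (fun b hb => ?_) fun _ _ _ => by positivity
    rw [mem_Icc] at hb
    rw [mem_filter, mem_range]
    have h3 : b < q := by omega
    refine ⟨h3, ?_⟩
    have h4 : ¬ q ∣ b := fun h => by
      have := Nat.le_of_dvd (by omega) h
      omega
    exact ((Nat.Prime.coprime_iff_not_dvd hq.2).2 h4).symm
  refine (Finset.sum_le_sum h2).trans ?_
  exact Finset.sum_le_sum_of_subset_of_nonneg (Finset.filter_subset _ _) fun _ _ _ => by positivity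

end Pool.Agent.H414.GE
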