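import Pool.Agent.H414.GE.Spec
import Pool.Agent.H414.LT.St1

/-! Project GE, task Sel: selection of the elements. -/

set_option autoImplicit false

namespace Pool.Agent.H414.GE

open Finset
open Pool.Agent.H414.LT (primesUpTo blk kk)
open Pool.Agent.H414.DF (e2)

namespace Sel

theorem second {S : Type} [Fintype S] [DecidableEq S] {Ω : S → Type} [∀ s, Fintype (Ω s)]
    (π f : ∀ s, Ω s → ℝ) (h1 : ∀ s, ∑ ω, π s ω = 1) (hm : ∀ s, ∑ ω, π s ω * f s ω = 0) :
    ∑ ω : ∀ s, Ω s, (∏ s, π s (ω s)) * (∑ s, f s (ω s)) ^ 2 =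
      ∑ s, ∑ ω, π s ω * f s ω ^ 2 := by
  have key : ∀ s t, ∑ ω : ∀ s, Ω s, (∏ s, π s (ω s)) * (f s (ω s) * f t (ω t)) =
      if s = t then ∑ ω, π s ω * f s ω ^ 2 else 0 := by
    intro s t
    have e1 : ∀ ω : ∀ s, Ω s, (∏ s, π s (ω s)) * (f s (ω s) * f t (ω t)) =
        ∏ u, (π u (ω u) * ((if u = s then f u (ω u) else 1) *
          (if u = t then f u (ω u) else 1))) := by
      intro ω
      rw [prod_mul_distrib, prod_mul_distrib, prod_ite_eq', prod_ite_eq', if_pos (mem_univ _),
        if_pos (mem_univ _)]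
    have e2 : ∑ ω : ∀ s, Ω s, (∏ s, π s (ω s)) * (f s (ω s) * f t (ω t)) =
        ∏ u, ∑ v, π u v * ((if u = s then f u v else 1) * (if u = t then f u v else 1)) := by
      rw [Finset.prod_univ_sum, Fintype.piFinset_univ]
      exact Finset.sum_congr rfl fun ω _ => e1 ω
    rw [e2]
    by_cases hst : s = t
    · subst hst
      rw [if_pos rfl, Finset.prod_eq_single s]
      · refine Finset.sum_congr rfl fun v _ => ?_
        rw [if_pos rfl]
        ring
      · intro u _ hu
        refine Eq.trans ?_ (h1 u)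
        refine Finset.sum_congr rfl fun v _ => ?_
        rw [if_neg hu, one_mul, mul_one]
      · intro h
        exact absurd (mem_univ s) h
    · rw [if_neg hst]
      refine Finset.prod_eq_zero (mem_univ s) ?_
      refine Eq.trans ?_ (hm s)
      refine Finset.sum_congr rfl fun v _ => ?_
      rw [if_pos rfl, if_neg hst, mul_one]
  calc ∑ ω : ∀ s, Ω s, (∏ s, π s (ω s)) * (∑ s, f s (ω s)) ^ 2
      = ∑ ω : ∀ s, Ω s, ∑ s, ∑ t, (∏ s, π s (ω s)) * (f s (ω s) * f t (ω t)) := by
        refine Finset.sum_congr rfl fun ω _ => ?_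
        rw [pow_two, Finset.sum_mul_sum, Finset.mul_sum]
        refine Finset.sum_congr rfl fun s _ => ?_
        rw [Finset.mul_sum]
    _ = ∑ s, ∑ t, ∑ ω : ∀ s, Ω s, (∏ s, π s (ω s)) * (f s (ω s) * f t (ω t)) := by
        rw [Finset.sum_comm]
        refine Finset.sum_congr rfl fun s _ => ?_
        rw [Finset.sum_comm]
    _ = ∑ s, ∑ ω, π s ω * f s ω ^ 2 := by
        refine Finset.sum_congr rfl fun s _ => ?_
        simp only [key]
        rw [Finset.sum_ite_eq, if_pos (mem_univ s)]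

theorem card_blk_le (k : ℕ) : (blk k).card ≤ 2 ^ k := by
  unfold LT.blk
  refine (card_filter_le _ _).trans ?_
  rw [Nat.card_Ioc, pow_succ]
  omega

/-- the value of a Boolean -/
def vb (b : Bool) : ℝ := if b then 1 else 0

theorem vb_abs {ρ : ℝ} (h : 0 ≤ ρ ∧ ρ ≤ 1) (b : Bool) : |vb b - ρ| ≤ 1 := by
  unfold vb
  cases b
  · simp only [Bool.false_eq_true, if_false, zero_sub, abs_neg]
    rw [abs_of_nonneg h.1]
    exact h.2
  · simp only [if_true]
    rw [abs_of_nonneg (by linarith)]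
    linarith

/-- the real or the imaginary part -/
def part (b : Bool) (z : ℂ) : ℝ := if b then z.re else z.im

theorem part_abs {z : ℂ} (h : ‖z‖ ≤ 1) (b : Bool) : |part b z| ≤ 1 := by
  unfold part
  cases b
  · exact (Complex.abs_im_le_norm z).trans h
  · exact (Complex.abs_re_le_norm z).trans h

theorem part_sum (b : Bool) (s : Finset ℕ) (f : ℕ → ℂ) :
    part b (∑ n ∈ s, f n) = ∑ n ∈ s, part b (f n) := by
  unfold part
  cases b
  · simp
  · simp

theorem part_mul_real (b : Bool) (z : ℂ) (t : ℝ) : part b ((t : ℂ) * z) = t * part b z := by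
  unfold part
  cases b
  · simp
  · simp

/-- bound of a sum of squares -/
theorem var_one {ρ : ℝ} (h : 0 ≤ ρ ∧ ρ ≤ 1) {a : ℝ} (ha : |a| ≤ 1) :
    ∑ b : Bool, (if b then ρ else 1 - ρ) * (a * (vb b - ρ)) ^ 2 ≤ 1 := by
  have h1 : a ^ 2 ≤ 1 := by
    rw [← sq_abs]
    exact pow_le_one₀ (abs_nonneg a) ha
  simp only [Fintype.sum_bool, vb, if_true, Bool.false_eq_true, if_false]
  have h2 : ρ * (a * (1 - ρ)) ^ 2 + (1 - ρ) * (a * (0 - ρ)) ^ 2 = a ^ 2 * (ρ * (1 - ρ)) := by ring
  rw [h2]
  have h3 : 0 ≤ ρ * (1 - ρ) := mul_nonneg h.1 (by linarith [h.2])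
  have h4 : ρ * (1 - ρ) ≤ 1 := by nlinarith [h.1, h.2]
  calc a ^ 2 * (ρ * (1 - ρ)) ≤ 1 * 1 := mul_le_mul h1 h4 h3 zero_le_one
    _ = 1 := one_mul 1

theorem mean_zero (ρ a : ℝ) :
    ∑ b : Bool, (if b then ρ else 1 - ρ) * (a * (vb b - ρ)) = 0 := by
  simp only [Fintype.sum_bool, vb, if_true, Bool.false_eq_true, if_false]
  ring

end Sel

open Sel

theorem sele (hEXP : S_EXP) : S_SE := by
  classical
  refine ⟨14, by norm_num, ?_⟩
  intro k ρ hk hρ J _ W c hW hW1 hc I B hB
  -- the scale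
  obtain ⟨R, hR⟩ : ∃ R : ℝ, R = e2 (k / 2) := ⟨_, rfl⟩
  have hR1 : 1 ≤ R := by
    rw [hR, DF.e2]
    exact Real.one_le_rpow (by norm_num) (by positivity)
  have hR0 : 0 < R := by linarith
  have hRsq : R ^ 2 = 2 ^ k := by
    rw [hR, DF.e2, ← Real.rpow_natCast, ← Real.rpow_mul (by norm_num), ← Real.rpow_natCast]
    congr 1
    push_cast
    ring
  -- the tests
  obtain ⟨N, hN⟩ : ∃ N : ℕ, N = 2 ^ (k + 1) + 1 := ⟨_, rfl⟩
  have hN0 : (0 : ℝ) < N := by rw [hN]; positivity
  obtain ⟨c', hc'n, hc's⟩ : ∃ c' : Option J → ℕ → ℂ, (∀ n, c' none n = 1) ∧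
      ∀ j n, c' (some j) n = c j n := ⟨fun o n => o.elim 1 fun j => c j n, fun _ => rfl,
        fun _ _ => rfl⟩
  obtain ⟨w, hwn, hws⟩ : ∃ w : Option J → ℝ, w none = 1 / 2 ∧ ∀ j, w (some j) = W j / 2 :=
    ⟨fun o => o.elim (1 / 2) fun j => W j / 2, rfl, fun _ => rfl⟩
  have hc'1 : ∀ o n, ‖c' o n‖ ≤ 1 := by
    intro o n
    cases o with
    | none => rw [hc'n, norm_one]
    | some j => rw [hc's]; exact hc j n
  have hw0 : ∀ o, 0 < w o := by
    intro o
    cases o with
    | none => rw [hwn]; norm_num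
    | some j => rw [hws]; exact half_pos (hW j)
  have hw1 : ∑ o, w o ≤ 1 := by
    rw [Fintype.sum_option, hwn]
    simp only [hws]
    rw [← Finset.sum_div]
    linarith
  obtain ⟨φ, hφ⟩ : ∃ φ : (Option J × Fin N × Bool) → ↥(blk k) → Bool → ℝ, φ =
      fun (t : Option J × Fin N × Bool) (s : ↥(blk k)) (b : Bool) =>
      ((if (s : ℕ) ≤ (t.2.1 : ℕ) then part t.2.2 (c' t.1 s) else 0) / R) * (vb b - ρ s) :=
    ⟨_, rfl⟩
  obtain ⟨Z, hZ⟩ : ∃ Z : (↥(blk k) → Bool) → ℝ, Z = fun ω => ∑ i ∈ I,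
      (∑ s : ↥(blk k), (if (s : ℕ) ∈ B i then (1 : ℝ) else 0) * (vb (ω s) - ρ s)) ^ 2 := ⟨_, rfl⟩
  obtain ⟨z, hz⟩ : ∃ z : ℝ, z = ∑ i ∈ I, ((B i).card : ℝ) + 1 := ⟨_, rfl⟩
  have hcoef : ∀ (t : Option J × Fin N × Bool) (s : ↥(blk k)),
      |(if (s : ℕ) ≤ (t.2.1 : ℕ) then part t.2.2 (c' t.1 s) else 0)| ≤ 1 := by
    intro t s
    split_ifs
    · exact part_abs (hc'1 _ _) _
    · rw [abs_zero]; exact zero_le_one
  obtain ⟨ω, -, hω1, hω2⟩ := hEXP ↥(blk k) (fun _ => Bool)
    (fun s b => if b then ρ s else 1 - ρ s) (Option J × Fin N × Bool)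
    (fun t => w t.1 / (2 * N)) φ Z z
    (by
      intro s b
      split_ifs
      · exact (hρ s).1
      · linarith [(hρ s).2])
    (by
      intro s
      simp only [Fintype.sum_bool, if_true, Bool.false_eq_true, if_false]
      ring)
    (fun t => div_pos (hw0 _) (by positivity))
    (by
      rw [Fintype.sum_prod_type]
      have e1 : ∀ o : Option J, ∑ t : Fin N × Bool, w o / (2 * N) = w o := by
        intro o
        rw [Finset.sum_const, Finset.card_univ, Fintype.card_prod, Fintype.card_fin,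
          Fintype.card_bool, nsmul_eq_mul]
        push_cast
        field_simp
      simp only [e1]
      exact hw1)
    (by
      intro t s
      rw [hφ]
      exact mean_zero _ _)
    (by
      intro t s b
      rw [hφ]
      dsimp only
      rw [abs_mul, abs_div, abs_of_pos hR0]
      have e1 := hcoef t s
      have e2 := vb_abs (hρ s) b
      have e3 : |(if (s : ℕ) ≤ (t.2.1 : ℕ) then part t.2.2 (c' t.1 s) else 0)| / R ≤ 1 := by
        rw [div_le_one hR0]
        linarith
      exact mul_le_one₀ e3 (abs_nonneg _) e2)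
    (by
      intro t
      rw [hφ]
      dsimp only
      have e1 : ∀ s : ↥(blk k), ∑ b : Bool, (if b then ρ s else 1 - ρ s) *
          ((if (s : ℕ) ≤ (t.2.1 : ℕ) then part t.2.2 (c' t.1 s) else 0) / R *
            (vb b - ρ s)) ^ 2 ≤ 1 / R ^ 2 := by
        intro s
        have e2 := var_one (hρ s) (hcoef t s)
        have e3 : ∑ b : Bool, (if b then ρ s else 1 - ρ s) *
          ((if (s : ℕ) ≤ (t.2.1 : ℕ) then part t.2.2 (c' t.1 s) else 0) / R *
            (vb b - ρ s)) ^ 2 = (∑ b : Bool, (if b then ρ s else 1 - ρ s) *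
          ((if (s : ℕ) ≤ (t.2.1 : ℕ) then part t.2.2 (c' t.1 s) else 0) *
            (vb b - ρ s)) ^ 2) / R ^ 2 := by
          rw [Finset.sum_div]
          refine Finset.sum_congr rfl fun b _ => ?_
          ring
        rw [e3]
        exact div_le_div_of_nonneg_right e2 (by positivity)
      refine (Finset.sum_le_sum fun s _ => e1 s).trans ?_
      rw [Finset.sum_const, Finset.card_univ, Fintype.card_coe, nsmul_eq_mul, hRsq, mul_one_div]
      rw [div_le_one (by positivity)]
      exact_mod_cast card_blk_le k)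
    (by
      rw [hz]
      have : 0 ≤ ∑ i ∈ I, ((B i).card : ℝ) := Finset.sum_nonneg fun _ _ => Nat.cast_nonneg _
      linarith)
    (by
      intro ω
      rw [hZ]
      exact Finset.sum_nonneg fun _ _ => sq_nonneg _)
    (by
      rw [hZ, hz]
      simp only [Finset.mul_sum]
      rw [Finset.sum_comm]
      have e1 : ∀ i ∈ I, ∑ ω : ↥(blk k) → Bool, (∏ s, (if ω s then ρ s else 1 - ρ s)) *
          (∑ s : ↥(blk k), (if (s : ℕ) ∈ B i then (1 : ℝ) else 0) * (vb (ω s) - ρ s)) ^ 2 ≤
          ((B i).card : ℝ) := by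
        intro i hi
        rw [second (Ω := fun _ : ↥(blk k) => Bool) (fun s b => if b then ρ s else 1 - ρ s)
          (fun s b => (if (s : ℕ) ∈ B i then (1 : ℝ) else 0) * (vb b - ρ s)) (by
            intro s
            simp only [Fintype.sum_bool, if_true, Bool.false_eq_true, if_false]
            ring) (fun s => mean_zero _ _)]
        have e2 : ∀ s : ↥(blk k), ∑ b : Bool, (if b then ρ s else 1 - ρ s) *
            ((if (s : ℕ) ∈ B i then (1 : ℝ) else 0) * (vb b - ρ s)) ^ 2 ≤
            if (s : ℕ) ∈ B i then 1 else 0 := by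
          intro s
          by_cases hs : (s : ℕ) ∈ B i
          · simp only [if_pos hs]
            exact var_one (hρ s) (by rw [abs_one])
          · simp only [if_neg hs]
            simp
        refine (Finset.sum_le_sum fun s _ => e2 s).trans ?_
        rw [Finset.sum_coe_sort (blk k) fun n => if n ∈ B i then (1 : ℝ) else 0]
        rw [Finset.sum_ite_mem, Finset.sum_const, nsmul_eq_mul, mul_one]
        exact_mod_cast Finset.card_le_card Finset.inter_subset_right
      refine (Finset.sum_le_sum e1).trans ?_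
      linarith)
  -- the set
  obtain ⟨A, hA⟩ : ∃ A : Finset ℕ, A = (blk k).filter fun n => ∃ h : n ∈ blk k,
    ω ⟨n, h⟩ = true := ⟨_, rfl⟩
  have hAsub : A ⊆ blk k := by rw [hA]; exact filter_subset _ _
  have hval : ∀ s : ↥(blk k), vb (ω s) = if (s : ℕ) ∈ A then 1 else 0 := by
    intro s
    have e1 : (s : ℕ) ∈ A ↔ ω s = true := by
      rw [hA, mem_filter]
      constructor
      · rintro ⟨-, h, h2⟩
        exact h2
      · intro h
        exact ⟨s.2, s.2, h⟩
    unfold vb
    by_cases h : ω s = true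
    · rw [if_pos (e1.2 h), h]
      rfl
    · rw [if_neg fun h2 => h (e1.1 h2)]
      rw [Bool.not_eq_true] at h
      rw [h]
      rfl
  have hsum : ∀ g : ℕ → ℝ, ∑ s : ↥(blk k), g s * (vb (ω s) - ρ s) =
      ∑ n ∈ blk k, g n * ((if n ∈ A then 1 else 0) - ρ n) := by
    intro g
    rw [← Finset.sum_coe_sort (blk k) fun n => g n * ((if n ∈ A then 1 else 0) - ρ n)]
    refine Finset.sum_congr rfl fun s _ => ?_
    rw [hval]
  -- the bounds of the tests
  have hlogW : ∀ o : Option J, Real.log (1 / (w o / (2 * N))) ≤ k + 3 + Real.log (1 / w o) := by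
    intro o
    have e1 : 1 / (w o / (2 * N)) = (2 * N) * (1 / w o) := by
      field_simp
    rw [e1, Real.log_mul (by positivity) (one_div_pos.2 (hw0 o)).ne']
    have e2 : (2 * N : ℝ) ≤ 2 ^ (k + 3) := by
      have e3 : 2 * N ≤ 2 ^ (k + 3) := by
        rw [hN]
        have e4 : 1 ≤ 2 ^ (k + 1) := Nat.one_le_two_pow
        have e5 : 2 ^ (k + 3) = 4 * 2 ^ (k + 1) := by ring
        omega
      exact_mod_cast e3
    have e3 := Real.log_le_log (by positivity) e2
    rw [Real.log_pow] at e3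
    have e4 : ((k + 3 : ℕ) : ℝ) * Real.log 2 ≤ ((k + 3 : ℕ) : ℝ) * 1 :=
      mul_le_mul_of_nonneg_left (by
        have := Real.log_two_lt_d9
        linarith) (Nat.cast_nonneg _)
    push_cast at e3 e4
    linarith
  have htest : ∀ (o : Option J) (y : ℕ), y ≤ 2 ^ (k + 1) → ∀ b : Bool,
      |part b (∑ n ∈ (blk k).filter (· ≤ y), (((if n ∈ A then (1 : ℝ) else 0) - ρ n : ℝ) : ℂ) *
        c' o n)| ≤ R * (k + 5 + Real.log (1 / w o)) := by
    intro o y hy b
    have e1 := hω1 (o, ⟨y, by rw [hN]; omega⟩, b)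
    rw [hφ] at e1
    dsimp only at e1
    rw [hsum fun n => (if n ≤ y then part b (c' o n) else 0) / R] at e1
    have e2 : part b (∑ n ∈ (blk k).filter (· ≤ y),
        (((if n ∈ A then (1 : ℝ) else 0) - ρ n : ℝ) : ℂ) * c' o n) =
        R * ∑ n ∈ blk k, (if n ≤ y then part b (c' o n) else 0) / R *
          ((if n ∈ A then 1 else 0) - ρ n) := by
      rw [part_sum, Finset.sum_filter, Finset.mul_sum]
      refine Finset.sum_congr rfl fun n _ => ?_
      split_ifs with h1
      · rw [part_mul_real]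
        field_simp
      · rw [part_mul_real]
        field_simp
      · ring
      · ring
    rw [e2, abs_mul, abs_of_pos hR0]
    refine mul_le_mul_of_nonneg_left (e1.trans ?_) hR0.le
    have := hlogW o
    linarith
  have hnorm : ∀ (o : Option J) (y : ℕ),
      ‖∑ n ∈ (blk k).filter (· ≤ y), (((if n ∈ A then (1 : ℝ) else 0) - ρ n : ℝ) : ℂ) *
        c' o n‖ ≤ 2 * (R * (k + 5 + Real.log (1 / w o))) := by
    intro o y
    have e1 : (blk k).filter (· ≤ y) = (blk k).filter (· ≤ min y (2 ^ (k + 1))) := by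
      refine Finset.filter_congr fun n hn => ?_
      have e2 : n ≤ 2 ^ (k + 1) := by
        unfold LT.blk at hn
        exact (Finset.mem_Ioc.1 (mem_filter.1 hn).1).2
      rw [le_min_iff]
      exact ⟨fun h => ⟨h, e2⟩, fun h => h.1⟩
    rw [e1]
    refine (Complex.norm_le_abs_re_add_abs_im _).trans ?_
    have h1 := htest o (min y (2 ^ (k + 1))) (min_le_right _ _) true
    have h2 := htest o (min y (2 ^ (k + 1))) (min_le_right _ _) false
    simp only [part, if_true, Bool.false_eq_true, if_false] at h1 h2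
    linarith
  have hk1 : (1 : ℝ) ≤ k := by exact_mod_cast hk
  refine ⟨A, hAsub, fun j y => ?_, ?_, ?_⟩
  · have e1 : ∑ n ∈ A.filter (· ≤ y), c j n - ∑ n ∈ (blk k).filter (· ≤ y), (ρ n : ℂ) * c j n =
        ∑ n ∈ (blk k).filter (· ≤ y), (((if n ∈ A then (1 : ℝ) else 0) - ρ n : ℝ) : ℂ) *
        c' (some j) n := by
      have e2 : ∑ n ∈ A.filter (· ≤ y), c j n =
          ∑ n ∈ (blk k).filter (· ≤ y), (if n ∈ A then (1 : ℂ) else 0) * c j n := by
        simp only [ite_mul, one_mul, zero_mul]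
        rw [Finset.sum_ite_mem]
        refine Finset.sum_congr ?_ fun _ _ => rfl
        ext n
        simp only [mem_filter, mem_inter]
        constructor
        · rintro ⟨h1, h2⟩
          exact ⟨⟨hAsub h1, h2⟩, h1⟩
        · rintro ⟨⟨-, h2⟩, h1⟩
          exact ⟨h1, h2⟩
      rw [e2, ← Finset.sum_sub_distrib]
      refine Finset.sum_congr rfl fun n _ => ?_
      rw [hc's]
      split_ifs
      · push_cast
        ring
      · push_cast
        ring
    rw [e1]
    refine (hnorm (some j) y).trans ?_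
    rw [hws, ← hR]
    have hWj : W j ≤ 1 := (Finset.single_le_sum (fun i _ => (hW i).le) (mem_univ j)).trans hW1
    have e2 : Real.log (1 / (W j / 2)) = Real.log 2 + Real.log (1 / W j) := by
      rw [← Real.log_mul (by norm_num) (one_div_pos.2 (hW j)).ne']
      congr 1
      have := (hW j).ne'
      field_simp
    have e3 : 0 ≤ Real.log (1 / W j) := by
      apply Real.log_nonneg
      rw [le_div_iff₀ (hW j)]
      linarith
    rw [e2]
    have e4 := Real.log_two_lt_d9
    have e5 : 2 * (k + 5 + (Real.log 2 + Real.log (1 / W j))) ≤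
        14 * ((k : ℝ) + Real.log (1 / W j)) := by linarith
    calc 2 * (R * (k + 5 + (Real.log 2 + Real.log (1 / W j))))
        = R * (2 * (k + 5 + (Real.log 2 + Real.log (1 / W j)))) := by ring
      _ ≤ R * (14 * ((k : ℝ) + Real.log (1 / W j))) := mul_le_mul_of_nonneg_left e5 hR0.le
      _ = 14 * R * (k + Real.log (1 / W j)) := by ring
  · have e1 := htest none (2 ^ (k + 1)) le_rfl true
    have e2 : part true (∑ n ∈ (blk k).filter (· ≤ 2 ^ (k + 1)),
        (((if n ∈ A then (1 : ℝ) else 0) - ρ n : ℝ) : ℂ) * c' none n) =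
        (A.card : ℝ) - ∑ n ∈ blk k, ρ n := by
      have e3 : (blk k).filter (· ≤ 2 ^ (k + 1)) = blk k := by
        refine Finset.filter_true_of_mem fun n hn => ?_
        unfold LT.blk at hn
        exact (Finset.mem_Ioc.1 (mem_filter.1 hn).1).2
      rw [e3, part_sum]
      have e4 : ∀ n ∈ blk k, part true ((((if n ∈ A then (1 : ℝ) else 0) - ρ n : ℝ) : ℂ) *
          c' none n) = (if n ∈ A then (1 : ℝ) else 0) - ρ n := by
        intro n _
        rw [hc'n, part_mul_real]
        simp [part]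
      rw [Finset.sum_congr rfl e4, Finset.sum_sub_distrib, Finset.sum_ite_mem, Finset.sum_const,
        nsmul_eq_mul, mul_one, Finset.inter_eq_right.2 hAsub]
    rw [e2, hwn] at e1
    refine e1.trans ?_
    rw [← hR]
    have e5 : Real.log (1 / (1 / 2)) ≤ 1 := by
      have e6 : (1 : ℝ) / (1 / 2) = 2 := by norm_num
      rw [e6]
      have := Real.log_two_lt_d9
      linarith
    have e6 : (k : ℝ) + 5 + Real.log (1 / (1 / 2)) ≤ 14 * k := by linarith
    calc R * (k + 5 + Real.log (1 / (1 / 2))) ≤ R * (14 * k) :=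
          mul_le_mul_of_nonneg_left e6 hR0.le
      _ = 14 * R * k := by ring
  · have e1 : ∀ i ∈ I, |((A ∩ B i).card : ℝ) - ∑ n ∈ B i, ρ n| ^ 2 =
        (∑ s : ↥(blk k), (if (s : ℕ) ∈ B i then (1 : ℝ) else 0) * (vb (ω s) - ρ s)) ^ 2 := by
      intro i hi
      rw [sq_abs, hsum fun n => if n ∈ B i then (1 : ℝ) else 0]
      congr 1
      simp only [ite_mul, one_mul, zero_mul]
      rw [Finset.sum_ite_mem, Finset.inter_eq_right.2 (hB i hi), Finset.sum_sub_distrib,
        Finset.sum_ite_mem, Finset.sum_const, nsmul_eq_mul, mul_one, Finset.inter_comm]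
    rw [Finset.sum_congr rfl e1]
    rw [hZ, hz] at hω2
    exact hω2

end Pool.Agent.H414.GE
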