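import Pool.Agent.H414.GE.Defs
import Pool.Agent.H414.DF.Spec

/-!
The statements which are put together in the project GE. Paper proofs are in the docstrings. Every
`S_X` is true and is to be proved as a theorem (with the hypotheses given in the task). `DF.e2 x = 2 ^ x`.
From `LT.St1`: `kk p` is the number `k` with `2^k < p ≤ 2^(k+1)` (`two_le_kk`,
`mem_blk : p ∈ blk k ↔ p.Prime ∧ kk p = k`). `LT.S_CHE` (Chebyshev: `c 2^k / (k + 1) ≤ #(blk k)`) is proved and may be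
used as a hypothesis where the task says so.
-/

set_option autoImplicit false

namespace Pool.Agent.H414.GE

open Finset
open Pool.Agent.H414.LT (primesUpTo blk kk)
open Pool.Agent.H414.DF (e2)

/-- the primes in `(2^l₁, 2^l₂]` -/
def Qs (l₁ l₂ : ℕ) : Finset ℕ := (Ioc (2 ^ l₁) (2 ^ l₂)).filter Nat.Prime

/-- `∑_{q ∈ Qs} 1 / (q - 1)` -/
noncomputable def bet (l₁ l₂ : ℕ) : ℝ := ∑ q ∈ Qs l₁ l₂, 1 / ((q : ℝ) - 1)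

/-- the number of the `q ∈ Qs` with `n ≡ a q (mod q)` -/
def hit (a : ℕ → ℕ) (l₁ l₂ n : ℕ) : ℕ := ((Qs l₁ l₂).filter fun q => n ≡ a q [MOD q]).card

/-- admissible parameters: moduli from `2^l₁` (between `2^(k/3)` and about `2^(k/2)`) to `2^l₂`,
`l₂ - l₁ ≤ √k`, and amplitude `lam` -/
structure Adm (k l₁ l₂ : ℕ) (lam : ℝ) : Prop where
  low : k ≤ 3 * l₁
  lt : l₁ < l₂
  sq : (l₂ - l₁) ^ 2 ≤ k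
  up : 2 * l₁ ≤ k + 2
  pos : e2 (-(k / 5)) ≤ lam
  le : lam * (4 * k + 20) ≤ 1
  amp : lam * e2 (k / 2 - l₁) ≤ 1

/-- THE LARGE SIEVE INEQUALITY for prime moduli (with any constant): from the library theorem
`Pool.Agent.Helper112.additive_large_sieve` in `Pool.Graph.R_seed8.Helper112.LS` (constant 6, all moduli, `a` prime to
`f`, sums over `Icc 1 N`; get it with `team-store fetch /workdir/pool Pool/Graph/R_seed8/Helper112/LS.lean`), applied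
to `c (n + M)`. -/
def S_LSA : Prop := ∃ C : ℝ, 0 ≤ C ∧ ∀ (Q N M : ℕ) (c : ℕ → ℂ),
  ∑ q ∈ (Icc 1 Q).filter Nat.Prime, ∑ b ∈ Icc 1 (q - 1),
    ‖∑ n ∈ Ioc M (M + N), c n * Complex.exp (2 * Real.pi * Complex.I * (b * n / q))‖ ^ 2 ≤
    C * (N + (Q : ℝ) ^ 2) * ∑ n ∈ Ioc M (M + N), ‖c n‖ ^ 2

/-- LARGE SIEVE FOR CLASSES. For a prime `q` and `Z u = ∑_{n ≡ u} c n`, `S = ∑ c n`:
`∑_{u mod q} |Z u|^2 = (1/q) ∑_{b mod q} |S(b/q)|^2` (Parseval), and the primes `n ∈ blk k` are not `≡ 0 mod q` as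
`q ≤ 2^(l+1) ≤ 2^k < n`, so `∑_{u ≠ 0} |Z u - S / (q - 1)|^2 = ∑_{u ≠ 0} |Z u|^2 - |S|^2 / (q - 1) ≤
∑_u |Z u|^2 - |S|^2 / q = (1/q) ∑_{b ≠ 0} |S(b/q)|^2`. Now `S_LSA` with `Q = 2^(l+1)`, `(M, M + N] = (2^k, 2^(k+1)]`, `c n`
replaced by `0` for `n` not prime; `1 / (q (q - 1)) ≤ 2 / 4^l`. -/
def S_LS : Prop := ∃ C : ℝ, 0 ≤ C ∧ ∀ (k l : ℕ) (c : ℕ → ℂ), (∀ n, ‖c n‖ ≤ 1) → l < k →
  ∑ q ∈ Qs l (l + 1), 1 / ((q : ℝ) - 1) * ∑ u ∈ (range q).filter (Nat.Coprime q),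
    ‖∑ n ∈ (blk k).filter (fun n => n ≡ u [MOD q]), c n - (∑ n ∈ blk k, c n) / ((q : ℂ) - 1)‖ ^ 2 ≤
    C * (2 ^ k / 4 ^ l + 1) * 2 ^ k

/-- CHEBYSHEV. Lower bound: `#(blk l) ≥ c 2^l / (l + 1)` for `l₁ ≤ l < l₂ ≤ k` (`2 l₁ ≤ k + 2`, `(l₂ - l₁)^2 ≤ k`), and
`1 / (q - 1) ≥ 2^(-l-1)` for `q ∈ blk l`. Upper bound: the product of the primes in `(2^l, 2^(l+1)]` is at most
`4^(2^(l+1))` (`primorial_le_4_pow`), so `l #(blk l) ≤ 2^(l+2)`, and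
`bet ≤ ∑_{l₁ ≤ l < l₂} #(blk l) / 2^l ≤ 4 (l₂ - l₁) / l₁ ≤ 12 √k / k ≤ 1/2` for large `k`.
(`q - 1 ≥ 2^l` for `q ∈ blk l`.) -/
def S_CH : Prop := ∃ (c : ℝ) (k₀ : ℕ), 0 < c ∧ ∀ (k l₁ l₂ : ℕ) (lam : ℝ), k₀ ≤ k → Adm k l₁ l₂ lam →
  l₂ < k ∧ c * ((l₂ : ℝ) - l₁) / k ≤ bet l₁ l₂ ∧ bet l₁ l₂ ≤ 1 / 2

/-- EXPONENTIAL MOMENTS. Let `ω` be chosen according to the product measure,
`X_j = ∑_s φ_{j,s}(ω_s)`. As `e^u ≤ 1 + u + u^2` for `|u| ≤ 1`,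
`E e^{± X_j} = ∏_s E e^{± φ_{j,s}} ≤ ∏_s (1 + E φ_{j,s}^2) ≤ e`. So
`E [∑_j W_j (e^{X_j} + e^{- X_j}) + Z / z] ≤ 2 e + 1 ≤ 7`, and there is an `ω` (with all `π_s(ω_s) > 0`) where the
bracket is at most `7`: `e^{|X_j|} ≤ 7 / W_j`, `|X_j| ≤ 2 + log (1 / W_j)` (`log 7 < 2`), `Z ≤ 7 z`. -/
def S_EXP : Prop := ∀ (S : Type) [Fintype S] [DecidableEq S] (Ω : S → Type) [∀ s, Fintype (Ω s)]
  (π : ∀ s, Ω s → ℝ) (J : Type) [Fintype J] (W : J → ℝ) (φ : J → ∀ s, Ω s → ℝ)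
  (Z : (∀ s, Ω s) → ℝ) (z : ℝ),
  (∀ s ω, 0 ≤ π s ω) → (∀ s, ∑ ω, π s ω = 1) → (∀ j, 0 < W j) → ∑ j, W j ≤ 1 →
  (∀ j s, ∑ ω, π s ω * φ j s ω = 0) → (∀ j s ω, |φ j s ω| ≤ 1) →
  (∀ j, ∑ s, ∑ ω, π s ω * φ j s ω ^ 2 ≤ 1) → 0 < z → (∀ ω, 0 ≤ Z ω) →
  ∑ ω : ∀ s, Ω s, (∏ s, π s (ω s)) * Z ω ≤ z →
  ∃ ω : ∀ s, Ω s, (∀ s, 0 < π s (ω s)) ∧ (∀ j, |∑ s, φ j s (ω s)| ≤ 2 + Real.log (1 / W j)) ∧
    Z ω ≤ 7 * z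

/-- CHOICE OF THE CLASSES. `S_EXP` with `S` = the `q ∈ Qs l₁ l₂`, `Ω q` = the `u < q` prime to `q`, with equal
probabilities `1 / (q - 1)`; tests: for `j` in `Option J` (`none`: the function `1`; weights `W j / 4`, `1/4` for
`none`), `y` a natural number `≤ 2^(k+1)` (at most `2^(k+2)` of them) and for the real and imaginary parts, so
weights `W j / (4 * 2^(k+3))`:
`φ(u) = (lam / R) Re (∑_{n ∈ blk k, n ≤ y, n ≡ u} c n - (∑_{n ∈ blk k, n ≤ y} c n) / (q - 1))`, `R = C₁ 2^(k/2)`.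
Mean zero as the `n ∈ blk k` are prime to `q`. `|φ| ≤ 1`: there are at most `2^k / q + 1 ≤ 2^(k - l₁) + 1` elements
of `blk k` in a class, and the second term is at most `2^k / (q - 1) ≤ 2^(k - l₁)`, `lam 2^(k - l₁) ≤ 2^(k/2)` (`Adm.amp`).
Variance: by `S_LS` (applied to `c n [n ≤ y]`), as `lam^2 ∑_{l₁ ≤ l < l₂} (2^k / 4^l + 1) ≤
(4/3) lam^2 2^k / 4^l₁ + lam^2 (l₂ - l₁) ≤ 3`. `Z = ∑_{n ∈ blk k} 2^(hit n)`: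
`E Z ≤ 2^k ∏_q (1 + 1/(q - 1)) ≤ 2^k e^{bet} ≤ 2^(k+1)` (`S_CH`), so `2^(hit n) ≤ 7 * 2^(k+1) ≤ 2^(k+4)`,
`hit n ≤ k + 4` and `lam * hit ≤ 1/4`. For `y > 2^(k+1)` the sum is that for `y = 2^(k+1)`. The result is
`lam |∑_{n ∈ blk k, n ≤ y} c n (hit n - bet)| ≤ 2 R (2 + log (4 * 2^(k+3) / W j))`. -/
def S_A : Prop := ∃ (C : ℝ) (k₀ : ℕ), 0 ≤ C ∧ ∀ (k l₁ l₂ : ℕ) (lam : ℝ), k₀ ≤ k → Adm k l₁ l₂ lam →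
  ∀ (J : Type) [Fintype J] (W : J → ℝ) (c : J → ℕ → ℂ), (∀ j, 0 < W j) → ∑ j, W j ≤ 1 →
  (∀ j n, ‖c j n‖ ≤ 1) → ∃ a : ℕ → ℕ, (∀ q ∈ Qs l₁ l₂, (a q).Coprime q) ∧
    (∀ j y, lam * ‖∑ n ∈ (blk k).filter (· ≤ y), c j n * ((hit a l₁ l₂ n : ℂ) - bet l₁ l₂)‖ ≤
      C * e2 (k / 2) * (k + Real.log (1 / W j))) ∧
    lam * |∑ n ∈ blk k, ((hit a l₁ l₂ n : ℝ) - bet l₁ l₂)| ≤ C * e2 (k / 2) * k ∧
    ∀ n ∈ blk k, lam * hit a l₁ l₂ n ≤ 1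

/-- SELECTION OF THE ELEMENTS. `S_EXP` with `S` = the `n ∈ blk k`, `Ω n = Bool` with the probabilities `ρ n`,
`1 - ρ n`; tests as in `S_A`: `φ(ω) = Re (c n) [n ≤ y] (ω - ρ n) / 2^(k/2)` (and imaginary part), also for the function
`1`; variances `≤ ρ (1 - ρ) ≤ 1` for each of the `≤ 2^k` numbers `n`; `Z = ∑_i |∑_{n ∈ B i} (ω_n - ρ_n)|^2`,
`E Z = ∑_i ∑_{n ∈ B i} ρ (1 - ρ) ≤ ∑_i #(B i) + 1 =: z`. -/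
def S_SE : Prop := ∃ C : ℝ, 0 ≤ C ∧ ∀ (k : ℕ) (ρ : ℕ → ℝ), 1 ≤ k → (∀ n, 0 ≤ ρ n ∧ ρ n ≤ 1) →
  ∀ (J : Type) [Fintype J] (W : J → ℝ) (c : J → ℕ → ℂ), (∀ j, 0 < W j) → ∑ j, W j ≤ 1 →
  (∀ j n, ‖c j n‖ ≤ 1) → ∀ (I : Finset ℕ) (B : ℕ → Finset ℕ), (∀ i ∈ I, B i ⊆ blk k) →
  ∃ A : Finset ℕ, A ⊆ blk k ∧
    (∀ j y, ‖∑ n ∈ A.filter (· ≤ y), c j n - ∑ n ∈ (blk k).filter (· ≤ y), (ρ n : ℂ) * c j n‖ ≤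
      C * e2 (k / 2) * (k + Real.log (1 / W j))) ∧
    |(A.card : ℝ) - ∑ n ∈ blk k, ρ n| ≤ C * e2 (k / 2) * k ∧
    ∑ i ∈ I, |((A ∩ B i).card : ℝ) - ∑ n ∈ B i, ρ n| ^ 2 ≤ 7 * (∑ i ∈ I, ((B i).card : ℝ) + 1)

/-- ONE BLOCK. Take `a` from `S_A` and `A` from `S_SE` with `ρ n = 1 - lam hit(n)` for `n ∈ blk k` (`0` otherwise),
`I = Qs`, `B q = {n ∈ blk k : n ≡ a q mod q}`. First conclusion: triangle inequality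
(`∑ ρ c - (1 - lam bet) ∑ c = - lam ∑ c (hit - bet)`). Second conclusion: let `π = #(blk k)`,
`H = ∑_n hit(n) = ∑_q #(B q)`, `β = bet`. Then `∑_q #A / (q - 1) = β #A ≥ β (π - lam H - C 2^(k/2) k)`, and
`∑_q #(A ∩ B q) ≤ ∑_q ∑_{n ∈ B q} (1 - lam hit n) + (#Qs)^(1/2) (7 (H + 1))^(1/2)
≤ H - lam H + …` since `∑_q ∑_{n ∈ B q} hit n = ∑_n hit(n)^2 ≥ H`. The difference is at least
`lam H (1 - β) - (H - β π) - β C 2^(k/2) k - (2^l₂ * 7 (H + 1))^(1/2)`. Here `|H - β π| ≤ C 2^(k/2) k / lam ≤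
C k 2^(7k/10)`, `0 < β ≤ 1/2`, `β π ≥ c (l₂ - l₁) / k * c 2^k / (k + 1)`, and so `H ≤ 2^(k-1) + C k 2^(7k/10) ≤ 2^k`;
`l₂ ≤ k/2 + 1 + √k`, so the last term is at most `6 * 2^(3k/4 + √k/2)`, whereas
`lam β π ≥ c'' lam (l₂ - l₁) 2^k / k^2 ≥ c'' 2^(4k/5) / k^2`; so for large `k` the error terms are at most a quarter of
the main term `lam H (1 - β) ≥ lam H / 2` (`7/10 < 4/5`, `3/4 < 4/5`). -/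
def S_GB : Prop := ∃ (C c₀ : ℝ) (k₀ : ℕ), 0 ≤ C ∧ 0 < c₀ ∧ ∀ (k l₁ l₂ : ℕ) (lam : ℝ), k₀ ≤ k →
  Adm k l₁ l₂ lam →
  ∀ (J : Type) [Fintype J] (W : J → ℝ) (c : J → ℕ → ℂ), (∀ j, 0 < W j) → ∑ j, W j ≤ 1 →
  (∀ j n, ‖c j n‖ ≤ 1) → ∃ (A : Finset ℕ) (a : ℕ → ℕ), A ⊆ blk k ∧
    (∀ q ∈ Qs l₁ l₂, (a q).Coprime q) ∧
    (∀ j y, ‖∑ n ∈ A.filter (· ≤ y), c j n -
      ((1 - lam * bet l₁ l₂ : ℝ) : ℂ) * ∑ n ∈ (blk k).filter (· ≤ y), c j n‖ ≤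
      C * e2 (k / 2) * (k + Real.log (1 / W j))) ∧
    c₀ * lam * ((l₂ : ℝ) - l₁) * 2 ^ k / k ^ 2 ≤ ∑ q ∈ Qs l₁ l₂,
      ((A.card : ℝ) / ((q : ℝ) - 1) - ((A.filter fun n => n ≡ a q [MOD q]).card : ℝ))

/-- ONE BLOCK, ALL CHARACTERS. Let `R = 2^(2^k)`. For `j < R`, `q ≤ R` apply `S_GB` with `J` = the set of the
`(j, q, χ)`, `j < R`, `1 ≤ q ≤ R`, `χ` mod `q` (e.g. `Fin R × Σ q : Fin R, DirichletCharacter ℂ (q + 1)`),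
`W = 1 / (4 (j + 2)^2 q^3)` (there are at most `q` characters modulo `q`:
`DirichletCharacter.card_eq_totient_of_hasEnoughRootsOfUnity`; `∑_j 1/(j+2)^2 ≤ 1`, `∑_q q / q^3 ≤ 2`). If `j ≥ R` or
`q > R` then `log ((j + 2) q) ≥ 2^k log 2` and the difference is at most `2 * 2^k` trivially (`0 ≤ lam bet ≤ 1` by
`S_CH`). -/
def S_GC : Prop := ∃ (C c₀ : ℝ) (k₀ : ℕ), 0 ≤ C ∧ 0 < c₀ ∧ ∀ (k l₁ l₂ : ℕ) (lam : ℝ), k₀ ≤ k →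
  Adm k l₁ l₂ lam → ∀ (c : ℕ → ℕ → ℂ), (∀ j n, ‖c j n‖ ≤ 1) →
  ∃ (A : Finset ℕ) (a : ℕ → ℕ), A ⊆ blk k ∧
    (∀ q ∈ Qs l₁ l₂, (a q).Coprime q) ∧
    (∀ (j q : ℕ) [NeZero q] (χ : DirichletCharacter ℂ q) (y : ℕ),
      ‖∑ n ∈ A.filter (· ≤ y), c j n * χ n -
      ((1 - lam * bet l₁ l₂ : ℝ) : ℂ) * ∑ n ∈ (blk k).filter (· ≤ y), c j n * χ n‖ ≤
      C * e2 (k / 2) * (k + Real.log ((j + 2) * q))) ∧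
    c₀ * lam * ((l₂ : ℝ) - l₁) * 2 ^ k / k ^ 2 ≤ ∑ q ∈ Qs l₁ l₂,
      ((A.card : ℝ) / ((q : ℝ) - 1) - ((A.filter fun n => n ≡ a q [MOD q]).card : ℝ))

/-- ALL BLOCKS. `k₁` large, so that `Adm` and `S_GC` hold; `P` is the union of the sets `A_k`, `k ≥ k₁`, of
`S_GC` and of all `blk k`, `k < k₁` (for `k ≥ k₁` choose); `w k = 1 - lam bet` for `k ≥ k₁`, `1` for `k < k₁`. `Close`: the
difference is at most the sum of the differences in the blocks `k ≥ k₁` with `2^k ≤ x` (the other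
blocks have no elements `≤ x` or contribute `0`), each at most `C 2^(k/2) (k + log ((j + 2) q))`, a geometric
series. `0 ≤ lam bet ≤ lam ≤ 1 / (k + 1)`. The last conclusion: for `q ∈ Qs`, with `x₁ = 2^(k+1)`, `x₀ = 2^k` and
`A = P ∩ blk k`: `#A = piP P x₁ 1 0 - piP P x₀ 1 0`, `#{n ∈ A : n ≡ a} = piP P x₁ q a - piP P x₀ q a`,
`φ(q) = q - 1`, so `#A / (q - 1) - #{…} = dev P x₀ q a - dev P x₁ q a ≤ 2 max |dev|`. -/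
def S_GG : Prop := ∀ (l₁ l₂ : ℕ → ℕ) (lam : ℕ → ℝ) (k₀ : ℕ), (∀ k, k₀ ≤ k → Adm k (l₁ k) (l₂ k) (lam k)) →
  ∀ c : ℕ → ℕ → ℂ, (∀ j n, ‖c j n‖ ≤ 1) →
  ∃ (P : Set ℕ) (w : ℕ → ℝ) (c₀ : ℝ) (k₁ : ℕ), 0 < c₀ ∧ (∀ p ∈ P, p.Prime) ∧
    (∀ k : ℕ, 1 - 1 / ((k : ℝ) + 1) ≤ w k ∧ w k ≤ 1) ∧ Close P w c ∧
    ∀ k, k₁ ≤ k → ∃ (a y : ℕ → ℕ), (∀ q ∈ Qs (l₁ k) (l₂ k), (a q).Coprime q ∧ y q ≤ 2 ^ (k + 1)) ∧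
      c₀ * lam k * ((l₂ k : ℝ) - l₁ k) * 2 ^ k / k ^ 2 ≤
        ∑ q ∈ Qs (l₁ k) (l₂ k), |dev P (y q) q (a q)|

/-! ### The level of distribution -/

/-- `E(N, d)` for the set `P`: the largest `|dev P y d l|` for `y ≤ N` and `l` prime to `d` -/
noncomputable def EP (P : Set ℕ) (N d : ℕ) : ℝ :=
  sSup {r : ℝ | ∃ y l : ℕ, y ≤ N ∧ l.Coprime d ∧ r = |dev P y d l|}

/-- the sum of the `3^ν(d) E(N, d)` over the squarefree `d < N^α (log N)^(-C₁)` -/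
noncomputable def SP (P : Set ℕ) (α C₁ : ℝ) (N : ℕ) : ℝ :=
  ∑ d ∈ (Icc 1 N).filter (fun d : ℕ => Squarefree d ∧ (d : ℝ) < (N : ℝ) ^ α * Real.log N ^ (-C₁)),
    3 ^ d.primeFactors.card * EP P N d

/-- LEVEL OF DISTRIBUTION. `S_GG` with `l₁ k = ⌈k/2⌉ = (k + 1) / 2`, `l₂ k = l₁ k + √k` (`Nat.sqrt`), `lam k = 1 / (4 k + 20)`
(`Adm` for large `k`: `lam ≥ 2^(-k/5)`, `2^(k/2 - l₁) ≤ 1`). For `N = 2^(k+1)`, `α > 1/2`, `k` large, all `q ∈ Qs` satisfy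
`q ≤ 2^(k/2 + 1 + √k) < N^α (log N)^(-C₁)`, they are squarefree with one prime factor, so
`SP ≥ 3 ∑_q |dev| ≥ c √k 2^k / k^3`, which is more than `K N / (log N)^3` for large `k`. (`EP` is the supremum of a
bounded set: `|dev P y d l| ≤ 2 (N + 1)`; so it is `≥ |dev P (y q) q (a q)|` and `≥ 0`.) -/
def S_T1 : Prop := ∀ c : ℕ → ℕ → ℂ, (∀ j n, ‖c j n‖ ≤ 1) →
  ∃ (P : Set ℕ) (w : ℕ → ℝ), (∀ p ∈ P, p.Prime) ∧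
    (∀ k : ℕ, 1 - 1 / ((k : ℝ) + 1) ≤ w k ∧ w k ≤ 1) ∧ Close P w c ∧
    ∀ α C₁ K : ℝ, 1 / 2 < α → α < 1 → ∀ N₀ : ℕ, ∃ N : ℕ, N₀ ≤ N ∧
      K * N / Real.log N ^ 3 < SP P α C₁ N

/-! ### The size of the error for a typical modulus -/

/-- NO SAVING IN THE MODULUS. `S_GG` with `l₁ = l`, `l₂ = l + 1`, `lam k = 2^(l k - k/2 - 1) / (4 k + 20)` (`Adm` for large `k`;
`k/3 ≤ l k ≤ k/2 + 1`:
`lam ≥ 2^(-k/6-1) / (4k + 20) ≥ 2^(-k/5)`). The result is `∑_q |dev| ≥ c₀ 2^(l + k/2 - 1) / ((4k + 20) k^2)`. -/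
def S_T3 : Prop := ∀ (l : ℕ → ℕ), (∀ k, k ≤ 3 * l k ∧ 2 * l k ≤ k + 2) →
  ∀ c : ℕ → ℕ → ℂ, (∀ j n, ‖c j n‖ ≤ 1) →
  ∃ (P : Set ℕ) (w : ℕ → ℝ) (c₀ : ℝ) (k₁ : ℕ), 0 < c₀ ∧ (∀ p ∈ P, p.Prime) ∧
    (∀ k : ℕ, 1 - 1 / ((k : ℝ) + 1) ≤ w k ∧ w k ≤ 1) ∧ Close P w c ∧
    ∀ k, k₁ ≤ k → ∃ (a y : ℕ → ℕ), (∀ q ∈ blk (l k), (a q).Coprime q ∧ y q ≤ 2 ^ (k + 1)) ∧
      c₀ * 2 ^ (l k) * (2 : ℝ) ^ ((k : ℝ) / 2) / k ^ 3 ≤ ∑ q ∈ blk (l k), |dev P (y q) q (a q)|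

end Pool.Agent.H414.GE
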