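import Pool.Agent.H414.GE.Spec

/-! The level of distribution. -/

set_option autoImplicit false

namespace Pool.Agent.H414.GE

open Finset
open Pool.Agent.H414.LT (primesUpTo blk kk)
open Pool.Agent.H414.DF (e2)

namespace T1

/-- the lower exponent of the moduli -/
def L1 (k : ℕ) : ℕ := (k + 1) / 2

/-- the upper exponent of the moduli -/
def L2 (k : ℕ) : ℕ := L1 k + Nat.sqrt k

/-- the amplitude -/
noncomputable def lm (k : ℕ) : ℝ := 1 / (4 * k + 20)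

theorem pow_ge : ∀ m : ℕ, 8 ≤ m → 20 * m + 40 ≤ 2 ^ m := by
  intro m hm
  induction m, hm using Nat.le_induction with
  | base => norm_num
  | succ m hm ih =>
    rw [pow_succ]
    omega

theorem ev_pos (k : ℕ) (hk : 40 ≤ k) : (4 * k + 20 : ℝ) ≤ e2 (k / 5) := by
  have h1 := pow_ge (k / 5) (by omega)
  have h2 : k < 5 * (k / 5) + 5 := by omega
  have h3 : 4 * k + 20 ≤ 2 ^ (k / 5) := by omega
  have h4 : (4 * k + 20 : ℝ) ≤ (2 : ℝ) ^ (k / 5 : ℕ) := by exact_mod_cast h3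
  refine h4.trans ?_
  unfold e2
  rw [← Real.rpow_natCast]
  refine Real.rpow_le_rpow_of_exponent_le (by norm_num) ?_
  exact_mod_cast Nat.cast_div_le (α := ℝ) (m := k) (n := 5)

theorem half_le (k : ℕ) : (k : ℝ) / 2 ≤ L1 k := by
  have : k ≤ 2 * L1 k := by unfold L1; omega
  have : (k : ℝ) ≤ 2 * (L1 k : ℝ) := by exact_mod_cast this
  linarith

theorem adm (k : ℕ) (hk : 40 ≤ k) : Adm k (L1 k) (L2 k) (lm k) := by
  have hpos : (0 : ℝ) < 4 * k + 20 := by positivity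
  refine ⟨?_, ?_, ?_, ?_, ?_, ?_, ?_⟩
  · unfold L1; omega
  · have : 0 < Nat.sqrt k := Nat.sqrt_pos.2 (by omega)
    unfold L2; omega
  · unfold L2
    rw [Nat.add_sub_cancel_left]
    exact Nat.sqrt_le' k
  · unfold L1; omega
  · have h := ev_pos k hk
    unfold e2 at h ⊢
    rw [Real.rpow_neg (by norm_num), lm, one_div]
    exact inv_anti₀ hpos h
  · rw [lm, one_div, inv_mul_cancel₀ hpos.ne']
  · have h1 : e2 (k / 2 - L1 k) ≤ 1 := by
      unfold e2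
      exact Real.rpow_le_one_of_one_le_of_nonpos (by norm_num) (by linarith [half_le k])
    have h2 : lm k ≤ 1 := by
      rw [lm, div_le_one hpos]
      have : (0 : ℝ) ≤ k := Nat.cast_nonneg _
      linarith
    have h3 : 0 ≤ lm k := by unfold lm; positivity
    have h4 : 0 ≤ e2 (k / 2 - L1 k) := by unfold e2; positivity
    nlinarith

theorem piP_le (P : Set ℕ) (y d l : ℕ) : piP P y d l ≤ y + 1 := by
  classical
  unfold piP elts
  refine (Nat.cast_le.2 (card_filter_le _ _)).trans ?_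
  unfold primesUpTo
  refine (Nat.cast_le.2 (card_filter_le _ _)).trans ?_
  rw [card_range]
  push_cast
  exact le_rfl

theorem piP_nonneg (P : Set ℕ) (y d l : ℕ) : 0 ≤ piP P y d l := by
  unfold piP
  positivity

theorem dev_le (P : Set ℕ) (y d l : ℕ) : |dev P y d l| ≤ y + 1 := by
  unfold dev
  have h1 := piP_le P y d l
  have h2 := piP_le P y 1 0
  have h3 := piP_nonneg P y d l
  have h4 := piP_nonneg P y 1 0
  have h5 : 0 ≤ piP P y 1 0 / (d.totient : ℝ) := by positivity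
  have h6 : piP P y 1 0 / (d.totient : ℝ) ≤ y + 1 := by
    rcases Nat.eq_zero_or_pos d.totient with h | h
    · rw [h]
      simp
      positivity
    · refine (div_le_self h4 ?_).trans h2
      exact_mod_cast h
  rw [abs_le]
  constructor <;> linarith

theorem bdd (P : Set ℕ) (N d : ℕ) :
    BddAbove {r : ℝ | ∃ y l : ℕ, y ≤ N ∧ l.Coprime d ∧ r = |dev P y d l|} := by
  refine ⟨N + 1, ?_⟩
  rintro r ⟨y, l, hy, -, rfl⟩
  refine (dev_le P y d l).trans ?_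
  have : (y : ℝ) ≤ N := by exact_mod_cast hy
  linarith

theorem EP_ge (P : Set ℕ) (N d y l : ℕ) (hy : y ≤ N) (hl : l.Coprime d) :
    |dev P y d l| ≤ EP P N d :=
  le_csSup (bdd P N d) ⟨y, l, hy, hl, rfl⟩

theorem EP_nonneg (P : Set ℕ) (N d : ℕ) : 0 ≤ EP P N d := by
  refine Real.sSup_nonneg ?_
  rintro r ⟨y, l, -, -, rfl⟩
  exact abs_nonneg _

theorem ev_lt (α C₁ : ℝ) (hα : 1 / 2 < α) : ∀ᶠ k : ℕ in Filter.atTop,
    (2 : ℝ) ^ (L2 k) < ((2 ^ (k + 1) : ℕ) : ℝ) ^ α * Real.log ((2 ^ (k + 1) : ℕ) : ℝ) ^ (-C₁) := by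
  have hl2 : 0 < Real.log 2 := Real.log_pos (by norm_num)
  have hδ : 0 < (α - 1 / 2) / 4 * Real.log 2 := by
    have : 0 < α - 1 / 2 := by linarith
    positivity
  -- the argument x = (k + 1) log 2
  have ht : Filter.Tendsto (fun k : ℕ => ((k : ℝ) + 1) * Real.log 2) Filter.atTop Filter.atTop :=
    (Filter.tendsto_atTop_add_const_right _ _ tendsto_natCast_atTop_atTop).atTop_mul_const hl2
  have h1 := (Real.isLittleO_log_id_atTop.comp_tendsto ht).def
    (c := (α - 1 / 2) / 4 / (|C₁| + 1)) (by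
      have : 0 < α - 1 / 2 := by linarith
      positivity)
  have h2 : ∀ᶠ k : ℕ in Filter.atTop, (4 / (α - 1 / 2)) ^ 2 ≤ (k : ℝ) :=
    (Filter.tendsto_atTop.1 tendsto_natCast_atTop_atTop _)
  filter_upwards [h1, h2, Filter.eventually_ge_atTop 40] with k h1 h2 h3
  simp only [Function.comp, id] at h1
  have hk : (40 : ℝ) ≤ k := by exact_mod_cast h3
  have hx : 0 < ((k : ℝ) + 1) * Real.log 2 := by positivity
  have hα' : 0 < α - 1 / 2 := by linarith
  rw [Real.norm_eq_abs, Real.norm_of_nonneg hx.le] at h1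
  have e1 : Real.log ((2 ^ (k + 1) : ℕ) : ℝ) = ((k : ℝ) + 1) * Real.log 2 := by
    push_cast
    rw [Real.log_pow]
    push_cast
    ring
  rw [e1]
  have e2' : ((2 ^ (k + 1) : ℕ) : ℝ) = Real.exp (((k : ℝ) + 1) * Real.log 2) := by
    rw [← e1, Real.exp_log (by positivity)]
  have e3 : (2 : ℝ) ^ (L2 k) = Real.exp ((L2 k : ℝ) * Real.log 2) := by
    rw [mul_comm, Real.exp_mul, Real.exp_log (by norm_num), Real.rpow_natCast]
  rw [e2', e3, ← Real.exp_mul, Real.rpow_def_of_pos hx, ← Real.exp_add, Real.exp_lt_exp]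
  -- the estimate for L2
  have s1 : (L2 k : ℝ) ≤ ((k : ℝ) + 1) / 2 + √(k : ℝ) := by
    unfold L2
    push_cast
    have a1 : (L1 k : ℝ) ≤ ((k : ℝ) + 1) / 2 := by
      have : 2 * L1 k ≤ k + 1 := by unfold L1; omega
      have : 2 * (L1 k : ℝ) ≤ k + 1 := by exact_mod_cast this
      linarith
    have a2 : (Nat.sqrt k : ℝ) ≤ √(k : ℝ) := Real.nat_sqrt_le_real_sqrt
    linarith
  have s2 : √(k : ℝ) ≤ (α - 1 / 2) / 4 * k := by
    have a0 : 0 < 4 / (α - 1 / 2) := by positivity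
    have a1 : 4 / (α - 1 / 2) ≤ √(k : ℝ) := Real.le_sqrt_of_sq_le h2
    have a2 : √(k : ℝ) * √(k : ℝ) = k := Real.mul_self_sqrt (Nat.cast_nonneg _)
    have a3 : 4 ≤ √(k : ℝ) * (α - 1 / 2) := by
      rwa [div_le_iff₀ hα'] at a1
    nlinarith [Real.sqrt_nonneg (k : ℝ)]
  have s3 : |Real.log (((k : ℝ) + 1) * Real.log 2) * (-C₁)| ≤
      (α - 1 / 2) / 4 * (((k : ℝ) + 1) * Real.log 2) := by
    rw [abs_mul, abs_neg]
    have b1 : |Real.log (((k : ℝ) + 1) * Real.log 2)| * |C₁| ≤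
        (α - 1 / 2) / 4 / (|C₁| + 1) * (((k : ℝ) + 1) * Real.log 2) * (|C₁| + 1) := by
      refine mul_le_mul h1 (by linarith) (abs_nonneg _) (by positivity)
    refine b1.trans (le_of_eq ?_)
    have : |C₁| + 1 ≠ 0 := by positivity
    field_simp
  have s4 := (abs_le.1 s3).1
  have s5 : (L2 k : ℝ) * Real.log 2 ≤ (((k : ℝ) + 1) / 2 + (α - 1 / 2) / 4 * k) * Real.log 2 :=
    mul_le_mul_of_nonneg_right (by linarith) hl2.le
  have s6 : 0 < (α - 1 / 2) * k * Real.log 2 := by positivity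
  have s7 : 0 < (α - 1 / 2) * Real.log 2 := by positivity
  nlinarith

theorem main (P : Set ℕ) (c₀ : ℝ) (k₁ : ℕ) (hc : 0 < c₀)
    (h : ∀ k, k₁ ≤ k → ∃ (a y : ℕ → ℕ), (∀ q ∈ Qs (L1 k) (L2 k), (a q).Coprime q ∧
      y q ≤ 2 ^ (k + 1)) ∧
      c₀ * lm k * ((L2 k : ℝ) - L1 k) * 2 ^ k / k ^ 2 ≤
        ∑ q ∈ Qs (L1 k) (L2 k), |dev P (y q) q (a q)|)
    (α C₁ K : ℝ) (hα : 1 / 2 < α) (N₀ : ℕ) :
    ∃ N : ℕ, N₀ ≤ N ∧ K * N / Real.log N ^ 3 < SP P α C₁ N := by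
  have hsq : ∀ᶠ k : ℕ in Filter.atTop, 128 * |K| / c₀ + 1 ≤ (k : ℝ) :=
    (Filter.tendsto_atTop.1 tendsto_natCast_atTop_atTop _)
  have hsq' : ∀ᶠ k : ℕ in Filter.atTop, 128 * |K| / c₀ < (Nat.sqrt k : ℝ) := by
    obtain ⟨M, hM⟩ := exists_nat_gt (128 * |K| / c₀)
    filter_upwards [Filter.eventually_ge_atTop (M * M)] with k hk
    refine hM.trans_le ?_
    exact_mod_cast Nat.le_sqrt.2 hk
  obtain ⟨k, hk1, hk2, hk3, hk4, hk5⟩ := ((ev_lt α C₁ hα).and (hsq'.and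
    ((Filter.eventually_ge_atTop 40).and ((Filter.eventually_ge_atTop k₁).and
      (Filter.eventually_ge_atTop N₀))))).exists
  refine ⟨2 ^ (k + 1), ?_, ?_⟩
  · have : k + 1 < 2 ^ (k + 1) := Nat.lt_two_pow_self
    omega
  obtain ⟨a, y, hay, hsum⟩ := h k hk4
  have hQ : ∀ q ∈ Qs (L1 k) (L2 k), q.Prime ∧ q ≤ 2 ^ L2 k ∧ q ≤ 2 ^ (k + 1) := by
    intro q hq
    unfold Qs at hq
    rw [mem_filter, mem_Ioc] at hq
    refine ⟨hq.2, hq.1.2, hq.1.2.trans ?_⟩
    refine Nat.pow_le_pow_right (by norm_num) ?_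
    have h6 : 2 ≤ Nat.sqrt k := Nat.le_sqrt.2 (by omega)
    have h7 : Nat.sqrt k * Nat.sqrt k ≤ k := Nat.sqrt_le k
    have h8 : 2 * Nat.sqrt k ≤ Nat.sqrt k * Nat.sqrt k := Nat.mul_le_mul_right _ h6
    unfold L2 L1
    omega
  have hSP : 3 * ∑ q ∈ Qs (L1 k) (L2 k), |dev P (y q) q (a q)| ≤ SP P α C₁ (2 ^ (k + 1)) := by
    unfold SP
    rw [mul_sum]
    refine le_trans (sum_le_sum (g := fun q => (3 : ℝ) ^ q.primeFactors.card *
      EP P (2 ^ (k + 1)) q) fun q hq => ?_) (sum_le_sum_of_subset_of_nonneg ?_ ?_)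
    · rw [(hQ q hq).1.primeFactors, card_singleton, pow_one]
      exact mul_le_mul_of_nonneg_left (EP_ge P _ q (y q) (a q) (hay q hq).2 (hay q hq).1)
        (by norm_num)
    · intro q hq
      obtain ⟨q1, q2, q3⟩ := hQ q hq
      rw [mem_filter, mem_Icc]
      refine ⟨⟨q1.one_le, q3⟩, q1.prime.squarefree, ?_⟩
      refine lt_of_le_of_lt ?_ hk1
      exact_mod_cast q2
    · intro q _ _
      exact mul_nonneg (by positivity) (EP_nonneg _ _ _)
  refine lt_of_lt_of_le ?_ ((mul_le_mul_of_nonneg_left hsum (by norm_num : (0 : ℝ) ≤ 3)).trans hSP)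
  have hkpos : (40 : ℝ) ≤ k := by exact_mod_cast hk3
  have hl2 : (1 / 2 : ℝ) < Real.log 2 := by linarith [Real.log_two_gt_d9]
  have e1 : Real.log ((2 ^ (k + 1) : ℕ) : ℝ) = ((k : ℝ) + 1) * Real.log 2 := by
    push_cast
    rw [Real.log_pow]
    push_cast
    ring
  rw [e1]
  have e2' : ((L2 k : ℝ) - L1 k) = Nat.sqrt k := by
    unfold L2
    push_cast
    ring
  rw [e2']
  have f1 : K * ((2 ^ (k + 1) : ℕ) : ℝ) / (((k : ℝ) + 1) * Real.log 2) ^ 3 ≤
      16 * |K| * 2 ^ k / k ^ 3 := by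
    have g1 : ((k : ℝ) / 2) ^ 3 ≤ (((k : ℝ) + 1) * Real.log 2) ^ 3 := by
      refine pow_le_pow_left₀ (by positivity) ?_ 3
      nlinarith
    calc K * ((2 ^ (k + 1) : ℕ) : ℝ) / (((k : ℝ) + 1) * Real.log 2) ^ 3
        ≤ |K| * ((2 ^ (k + 1) : ℕ) : ℝ) / (((k : ℝ) + 1) * Real.log 2) ^ 3 := by
          refine div_le_div_of_nonneg_right ?_ (by positivity)
          exact mul_le_mul_of_nonneg_right (le_abs_self K) (by positivity)
      _ ≤ |K| * ((2 ^ (k + 1) : ℕ) : ℝ) / ((k : ℝ) / 2) ^ 3 :=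
          div_le_div_of_nonneg_left (by positivity) (by positivity) g1
      _ = 16 * |K| * 2 ^ k / k ^ 3 := by
          push_cast
          rw [pow_succ]
          field_simp
          ring
  refine lt_of_le_of_lt f1 ?_
  have f2 : c₀ * (Nat.sqrt k : ℝ) * 2 ^ k / (8 * k ^ 3) ≤
      3 * (c₀ * lm k * (Nat.sqrt k : ℝ) * 2 ^ k / k ^ 2) := by
    have g2 : 1 / (24 * (k : ℝ)) ≤ lm k := by
      unfold lm
      refine one_div_le_one_div_of_le (by positivity) ?_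
      linarith
    calc c₀ * (Nat.sqrt k : ℝ) * 2 ^ k / (8 * k ^ 3)
        = 3 * (c₀ * (1 / (24 * (k : ℝ))) * (Nat.sqrt k : ℝ) * 2 ^ k / k ^ 2) := by
          field_simp
          ring
      _ ≤ _ := by
          refine mul_le_mul_of_nonneg_left ?_ (by norm_num)
          refine div_le_div_of_nonneg_right ?_ (by positivity)
          refine mul_le_mul_of_nonneg_right ?_ (by positivity)
          refine mul_le_mul_of_nonneg_right ?_ (by positivity)
          exact mul_le_mul_of_nonneg_left g2 hc.le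
  refine lt_of_lt_of_le ?_ f2
  rw [div_lt_iff₀ hc] at hk2
  have f3 : 16 * |K| * 2 ^ k / k ^ 3 = (128 * |K|) * (2 ^ k / (8 * (k : ℝ) ^ 3)) := by
    field_simp
    ring
  have f4 : c₀ * (Nat.sqrt k : ℝ) * 2 ^ k / (8 * k ^ 3) =
      ((Nat.sqrt k : ℝ) * c₀) * (2 ^ k / (8 * (k : ℝ) ^ 3)) := by
    field_simp
  rw [f3, f4]
  exact mul_lt_mul_of_pos_right hk2 (by positivity)

end T1

theorem t1 (hGG : S_GG) : S_T1 := by
  intro c hc
  obtain ⟨P, w, c₀, k₁, h0, h1, h2, h3, h4⟩ := hGG T1.L1 T1.L2 T1.lm 40 T1.adm c hc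
  exact ⟨P, w, h1, h2, h3, fun α C₁ K hα _ N₀ => T1.main P c₀ k₁ h0 h4 α C₁ K hα N₀⟩

end Pool.Agent.H414.GE

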