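import Pool.Agent.H414.GE.T1

/-! The level of distribution, for all large `N`. -/

set_option autoImplicit false

namespace Pool.Agent.H414.GE

open Finset
open Pool.Agent.H414.LT (primesUpTo blk kk)
open Pool.Agent.H414.DF (e2)

namespace T1b

open T1

theorem ev_lt (α C₁ : ℝ) (hα : 1 / 2 < α) : ∀ᶠ k : ℕ in Filter.atTop, ∀ N : ℕ, 2 ^ (k + 1) ≤ N →
    N < 2 ^ (k + 2) → (2 : ℝ) ^ (L2 k) < (N : ℝ) ^ α * Real.log N ^ (-C₁) := by
  have hl2 : 0 < Real.log 2 := Real.log_pos (by norm_num)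
  have hl2' : Real.log 2 < 1 := by linarith [Real.log_two_lt_d9]
  have hl2'' : 1 / 2 < Real.log 2 := by linarith [Real.log_two_gt_d9]
  have ht : Filter.Tendsto (fun k : ℕ => ((k : ℝ) + 2) * Real.log 2) Filter.atTop Filter.atTop :=
    (Filter.tendsto_atTop_add_const_right _ _ tendsto_natCast_atTop_atTop).atTop_mul_const hl2
  have h1 := (Real.isLittleO_log_id_atTop.comp_tendsto ht).def
    (c := (α - 1 / 2) / 4 / (|C₁| + 1)) (by
      have : 0 < α - 1 / 2 := by linarith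
      positivity)
  have h2 : ∀ᶠ k : ℕ in Filter.atTop, (4 / (α - 1 / 2)) ^ 2 ≤ (k : ℝ) :=
    (Filter.tendsto_atTop.1 tendsto_natCast_atTop_atTop _)
  have hα' : 0 < α - 1 / 2 := by linarith
  filter_upwards [h1, h2, Filter.eventually_ge_atTop 40] with k h1 h2 h3 N hN1 hN2
  simp only [Function.comp, id] at h1
  have hk : (40 : ℝ) ≤ k := by exact_mod_cast h3
  have hx : 0 < ((k : ℝ) + 2) * Real.log 2 := by positivity
  have hNpos : (0 : ℝ) < N := by
    have : 0 < N := lt_of_lt_of_le (by positivity) hN1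
    exact_mod_cast this
  have g1 : ((k : ℝ) + 1) * Real.log 2 ≤ Real.log N := by
    have : Real.log ((2 ^ (k + 1) : ℕ) : ℝ) ≤ Real.log N :=
      Real.log_le_log (by positivity) (by exact_mod_cast hN1)
    push_cast at this
    rw [Real.log_pow] at this
    push_cast at this
    exact this
  have g2 : Real.log N ≤ ((k : ℝ) + 2) * Real.log 2 := by
    have : Real.log N ≤ Real.log ((2 ^ (k + 2) : ℕ) : ℝ) :=
      Real.log_le_log hNpos (by exact_mod_cast hN2.le)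
    push_cast at this
    rw [Real.log_pow] at this
    push_cast at this
    exact this
  have g0 : 1 ≤ Real.log N := by nlinarith
  rw [Real.norm_eq_abs, Real.norm_of_nonneg hx.le] at h1
  have e3 : (2 : ℝ) ^ (L2 k) = Real.exp ((L2 k : ℝ) * Real.log 2) := by
    rw [mul_comm, Real.exp_mul, Real.exp_log (by norm_num), Real.rpow_natCast]
  rw [e3, Real.rpow_def_of_pos hNpos, Real.rpow_def_of_pos (by linarith), ← Real.exp_add,
    Real.exp_lt_exp]
  have s1 : (L2 k : ℝ) ≤ ((k : ℝ) + 1) / 2 + √(k : ℝ) := by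
    unfold L2
    push_cast
    have a1 : (L1 k : ℝ) ≤ ((k : ℝ) + 1) / 2 := by
      have : 2 * L1 k ≤ k + 1 := by unfold L1; omega
      have : 2 * (L1 k : ℝ) ≤ k + 1 := by exact_mod_cast this
      linarith
    have a2 : (Nat.sqrt k : ℝ) ≤ √(k : ℝ) := Real.nat_sqrt_le_real_sqrt
    linarith
  have s2 : √(k : ℝ) ≤ (α - 1 / 2) / 4 * k := by
    have a0 : 0 < 4 / (α - 1 / 2) := by positivity
    have a1 : 4 / (α - 1 / 2) ≤ √(k : ℝ) := Real.le_sqrt_of_sq_le h2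
    have a2 : √(k : ℝ) * √(k : ℝ) = k := Real.mul_self_sqrt (Nat.cast_nonneg _)
    have a3 : 4 ≤ √(k : ℝ) * (α - 1 / 2) := by
      rwa [div_le_iff₀ hα'] at a1
    nlinarith [Real.sqrt_nonneg (k : ℝ)]
  have s3 : |Real.log (Real.log N) * (-C₁)| ≤ (α - 1 / 2) / 4 * (((k : ℝ) + 2) * Real.log 2) := by
    rw [abs_mul, abs_neg]
    have b0 : |Real.log (Real.log N)| ≤ |Real.log (((k : ℝ) + 2) * Real.log 2)| := by
      rw [abs_of_nonneg (Real.log_nonneg g0), abs_of_nonneg (Real.log_nonneg (g0.trans g2))]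
      exact Real.log_le_log (by linarith) g2
    have b1 : |Real.log (Real.log N)| * |C₁| ≤
        (α - 1 / 2) / 4 / (|C₁| + 1) * (((k : ℝ) + 2) * Real.log 2) * (|C₁| + 1) := by
      refine mul_le_mul (b0.trans h1) (by linarith) (abs_nonneg _) (by positivity)
    refine b1.trans (le_of_eq ?_)
    have : |C₁| + 1 ≠ 0 := by positivity
    field_simp
  have s4 := (abs_le.1 s3).1
  have s5 : (L2 k : ℝ) * Real.log 2 ≤ (((k : ℝ) + 1) / 2 + (α - 1 / 2) / 4 * k) * Real.log 2 :=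
    mul_le_mul_of_nonneg_right (by linarith) hl2.le
  have s8 : ((k : ℝ) + 1) * Real.log 2 * α ≤ Real.log N * α :=
    mul_le_mul_of_nonneg_right g1 (by linarith)
  have s6 : 0 < (α - 1 / 2) * Real.log 2 := by positivity
  have s7 : 40 * ((α - 1 / 2) * Real.log 2) ≤ (α - 1 / 2) * Real.log 2 * k := by nlinarith
  nlinarith

theorem main (P : Set ℕ) (c₀ : ℝ) (k₁ : ℕ) (hc : 0 < c₀)
    (h : ∀ k, k₁ ≤ k → ∃ (a y : ℕ → ℕ), (∀ q ∈ Qs (L1 k) (L2 k), (a q).Coprime q ∧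
      y q ≤ 2 ^ (k + 1)) ∧
      c₀ * lm k * ((L2 k : ℝ) - L1 k) * 2 ^ k / k ^ 2 ≤
        ∑ q ∈ Qs (L1 k) (L2 k), |dev P (y q) q (a q)|)
    (α C₁ K : ℝ) (hα : 1 / 2 < α) :
    ∃ N₀ : ℕ, ∀ N : ℕ, N₀ ≤ N → K * N / Real.log N ^ 3 < SP P α C₁ N := by
  have hsq' : ∀ᶠ k : ℕ in Filter.atTop, 256 * |K| / c₀ < (Nat.sqrt k : ℝ) := by
    obtain ⟨M, hM⟩ := exists_nat_gt (256 * |K| / c₀)
    filter_upwards [Filter.eventually_ge_atTop (M * M)] with k hk
    refine hM.trans_le ?_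
    exact_mod_cast Nat.le_sqrt.2 hk
  obtain ⟨k₀, hk₀⟩ := Filter.eventually_atTop.1 ((ev_lt α C₁ hα).and (hsq'.and
    ((Filter.eventually_ge_atTop 40).and (Filter.eventually_ge_atTop k₁))))
  refine ⟨2 ^ (k₀ + 1), fun N hN => ?_⟩
  have hN0 : N ≠ 0 := by
    have : 0 < 2 ^ (k₀ + 1) := by positivity
    omega
  have hlog : k₀ + 1 ≤ Nat.log 2 N := (Nat.le_log_iff_pow_le (by norm_num) hN0).2 hN
  obtain ⟨k, hk⟩ : ∃ k, Nat.log 2 N = k + 1 := ⟨Nat.log 2 N - 1, by omega⟩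
  have hN1 : 2 ^ (k + 1) ≤ N := by
    rw [← hk]; exact Nat.pow_log_le_self 2 hN0
  have hN2 : N < 2 ^ (k + 2) := by
    have := Nat.lt_pow_succ_log_self (b := 2) (by norm_num) N
    rwa [hk] at this
  obtain ⟨hk1, hk2, hk3, hk4⟩ := hk₀ k (by omega)
  have hk1 := hk1 N hN1 hN2
  obtain ⟨a, y, hay, hsum⟩ := h k hk4
  have hQ : ∀ q ∈ Qs (L1 k) (L2 k), q.Prime ∧ q ≤ 2 ^ L2 k ∧ q ≤ 2 ^ (k + 1) := by
    intro q hq
    unfold Qs at hq
    rw [mem_filter, mem_Ioc] at hq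
    refine ⟨hq.2, hq.1.2, hq.1.2.trans ?_⟩
    refine Nat.pow_le_pow_right (by norm_num) ?_
    have h6 : 2 ≤ Nat.sqrt k := Nat.le_sqrt.2 (by omega)
    have h7 : Nat.sqrt k * Nat.sqrt k ≤ k := Nat.sqrt_le k
    have h8 : 2 * Nat.sqrt k ≤ Nat.sqrt k * Nat.sqrt k := Nat.mul_le_mul_right _ h6
    unfold L2 L1
    omega
  have hSP : 3 * ∑ q ∈ Qs (L1 k) (L2 k), |dev P (y q) q (a q)| ≤ SP P α C₁ N := by
    unfold SP
    rw [mul_sum]
    refine le_trans (sum_le_sum (g := fun q => (3 : ℝ) ^ q.primeFactors.card *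
      EP P N q) fun q hq => ?_) (sum_le_sum_of_subset_of_nonneg ?_ ?_)
    · rw [(hQ q hq).1.primeFactors, card_singleton, pow_one]
      exact mul_le_mul_of_nonneg_left (EP_ge P _ q (y q) (a q) ((hay q hq).2.trans hN1)
        (hay q hq).1) (by norm_num)
    · intro q hq
      obtain ⟨q1, q2, q3⟩ := hQ q hq
      rw [mem_filter, mem_Icc]
      refine ⟨⟨q1.one_le, q3.trans hN1⟩, q1.prime.squarefree, ?_⟩
      refine lt_of_le_of_lt ?_ hk1
      exact_mod_cast q2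
    · intro q _ _
      exact mul_nonneg (by positivity) (EP_nonneg _ _ _)
  refine lt_of_lt_of_le ?_ ((mul_le_mul_of_nonneg_left hsum (by norm_num : (0 : ℝ) ≤ 3)).trans hSP)
  have hkpos : (40 : ℝ) ≤ k := by exact_mod_cast hk3
  have hl2 : (1 / 2 : ℝ) < Real.log 2 := by linarith [Real.log_two_gt_d9]
  have e1 : ((k : ℝ) + 1) * Real.log 2 ≤ Real.log N := by
    have : Real.log ((2 ^ (k + 1) : ℕ) : ℝ) ≤ Real.log N :=
      Real.log_le_log (by positivity) (by exact_mod_cast hN1)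
    push_cast at this
    rw [Real.log_pow] at this
    push_cast at this
    exact this
  have e2' : ((L2 k : ℝ) - L1 k) = Nat.sqrt k := by
    unfold L2
    push_cast
    ring
  rw [e2']
  have f1 : K * (N : ℝ) / Real.log N ^ 3 ≤ 32 * |K| * 2 ^ k / k ^ 3 := by
    have g1 : ((k : ℝ) / 2) ^ 3 ≤ Real.log N ^ 3 := by
      refine pow_le_pow_left₀ (by positivity) ?_ 3
      nlinarith
    have g2 : (N : ℝ) ≤ 4 * 2 ^ k := by
      have : (N : ℝ) ≤ ((2 ^ (k + 2) : ℕ) : ℝ) := by exact_mod_cast hN2.le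
      push_cast at this
      rw [pow_add] at this
      linarith
    calc K * (N : ℝ) / Real.log N ^ 3
        ≤ |K| * (4 * 2 ^ k) / Real.log N ^ 3 := by
          refine div_le_div_of_nonneg_right ?_ ?_
          · exact mul_le_mul (le_abs_self K) g2 (by positivity) (abs_nonneg K)
          · exact le_trans (by positivity) g1
      _ ≤ |K| * (4 * 2 ^ k) / ((k : ℝ) / 2) ^ 3 :=
          div_le_div_of_nonneg_left (by positivity) (by positivity) g1
      _ = 32 * |K| * 2 ^ k / k ^ 3 := by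
          field_simp
          ring
  refine lt_of_le_of_lt f1 ?_
  have f2 : c₀ * (Nat.sqrt k : ℝ) * 2 ^ k / (8 * k ^ 3) ≤
      3 * (c₀ * lm k * (Nat.sqrt k : ℝ) * 2 ^ k / k ^ 2) := by
    have g2 : 1 / (24 * (k : ℝ)) ≤ lm k := by
      unfold lm
      refine one_div_le_one_div_of_le (by positivity) ?_
      linarith
    calc c₀ * (Nat.sqrt k : ℝ) * 2 ^ k / (8 * k ^ 3)
        = 3 * (c₀ * (1 / (24 * (k : ℝ))) * (Nat.sqrt k : ℝ) * 2 ^ k / k ^ 2) := by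
          field_simp
          ring
      _ ≤ _ := by
          refine mul_le_mul_of_nonneg_left ?_ (by norm_num)
          refine div_le_div_of_nonneg_right ?_ (by positivity)
          refine mul_le_mul_of_nonneg_right ?_ (by positivity)
          refine mul_le_mul_of_nonneg_right ?_ (by positivity)
          exact mul_le_mul_of_nonneg_left g2 hc.le
  refine lt_of_lt_of_le ?_ f2
  rw [div_lt_iff₀ hc] at hk2
  have f3 : 32 * |K| * 2 ^ k / k ^ 3 = (256 * |K|) * (2 ^ k / (8 * (k : ℝ) ^ 3)) := by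
    field_simp
    ring
  have f4 : c₀ * (Nat.sqrt k : ℝ) * 2 ^ k / (8 * k ^ 3) =
      ((Nat.sqrt k : ℝ) * c₀) * (2 ^ k / (8 * (k : ℝ) ^ 3)) := by
    field_simp
  rw [f3, f4]
  exact mul_lt_mul_of_pos_right hk2 (by positivity)

end T1b

theorem t1b (hGG : S_GG) : ∀ c : ℕ → ℕ → ℂ, (∀ j n, ‖c j n‖ ≤ 1) →
    ∃ (P : Set ℕ) (w : ℕ → ℝ), (∀ p ∈ P, p.Prime) ∧
      (∀ k : ℕ, 1 - 1 / ((k : ℝ) + 1) ≤ w k ∧ w k ≤ 1) ∧ Close P w c ∧
      ∀ α C₁ K : ℝ, 1 / 2 < α → ∃ N₀ : ℕ, ∀ N : ℕ, N₀ ≤ N →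
        K * N / Real.log N ^ 3 < SP P α C₁ N := by
  intro c hc
  obtain ⟨P, w, c₀, k₁, h0, h1, h2, h3, h4⟩ := hGG T1.L1 T1.L2 T1.lm 40 T1.adm c hc
  exact ⟨P, w, h1, h2, h3, fun α C₁ K hα => T1b.main P c₀ k₁ h0 h4 α C₁ K hα⟩

end Pool.Agent.H414.GE
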