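import Pool.Agent.H414.GE.Spec

/-!
# GE, T3: no saving in the modulus
-/

set_option autoImplicit false

namespace Pool.Agent.H414.GE

open Finset
open Pool.Agent.H414.LT (primesUpTo blk kk)
open Pool.Agent.H414.DF (e2)

namespace T3

/-- the amplitude -/
noncomputable def la (l : ℕ → ℕ) (k : ℕ) : ℝ := (2 : ℝ) ^ ((l k : ℝ) - (k : ℝ) / 2 - 1) / (4 * (k : ℝ) + 20)

theorem growth : ∃ k₀ : ℕ, ∀ k : ℕ, k₀ ≤ k → 4 * (k : ℝ) + 20 ≤ (2 : ℝ) ^ ((k : ℝ) / 30 - 1) := by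
  have hr : (1 : ℝ) < (2 : ℝ) ^ ((1 : ℝ) / 30) := Real.one_lt_rpow (by norm_num) (by norm_num)
  have h := (tendsto_pow_const_div_const_pow_of_one_lt 1 hr).eventually (gt_mem_nhds (show (0 : ℝ) < 1 / 48 by norm_num))
  obtain ⟨k₀, hk₀⟩ := Filter.eventually_atTop.mp h
  refine ⟨max k₀ 1, fun k hk => ?_⟩
  have h1 := hk₀ k (le_trans (le_max_left _ _) hk)
  have h2 : (1 : ℝ) ≤ k := by exact_mod_cast (le_trans (le_max_right _ _) hk)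
  have h3 : ((2 : ℝ) ^ ((1 : ℝ) / 30)) ^ k = (2 : ℝ) ^ ((k : ℝ) / 30) := by
    rw [← Real.rpow_natCast, ← Real.rpow_mul (by norm_num)]
    congr 1
    ring
  have hp : (0 : ℝ) < (2 : ℝ) ^ ((k : ℝ) / 30) := Real.rpow_pos_of_pos (by norm_num) _
  rw [h3, pow_one, div_lt_iff₀ hp] at h1
  rw [Real.rpow_sub (by norm_num), Real.rpow_one]
  linarith

theorem adm (l : ℕ → ℕ) (hl : ∀ k, k ≤ 3 * l k ∧ 2 * l k ≤ k + 2) : ∃ k₀ : ℕ, ∀ k, k₀ ≤ k →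
    Adm k (l k) (l k + 1) (la l k) := by
  obtain ⟨k₀, hk₀⟩ := growth
  refine ⟨max k₀ 1, fun k hk => ?_⟩
  have h1 := hk₀ k (le_trans (le_max_left _ _) hk)
  have h2 : 1 ≤ k := le_trans (le_max_right _ _) hk
  have h2' : (1 : ℝ) ≤ k := by exact_mod_cast h2
  obtain ⟨h3, h4⟩ := hl k
  have h3' : (k : ℝ) ≤ 3 * (l k : ℝ) := by exact_mod_cast h3
  have h4' : 2 * (l k : ℝ) ≤ (k : ℝ) + 2 := by exact_mod_cast h4
  have hq : (0 : ℝ) < 4 * (k : ℝ) + 20 := by positivity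
  refine ⟨h3, Nat.lt_succ_self _, ?_, h4, ?_, ?_, ?_⟩
  · have : l k + 1 - l k = 1 := by omega
    rw [this]
    simpa using h2
  · unfold e2 la
    rw [le_div_iff₀ hq]
    calc (2 : ℝ) ^ (-((k : ℝ) / 5)) * (4 * (k : ℝ) + 20) ≤ (2 : ℝ) ^ (-((k : ℝ) / 5)) * (2 : ℝ) ^ ((k : ℝ) / 30 - 1) :=
          mul_le_mul_of_nonneg_left h1 (Real.rpow_nonneg (by norm_num) _)
      _ = (2 : ℝ) ^ (-((k : ℝ) / 5) + ((k : ℝ) / 30 - 1)) := (Real.rpow_add (by norm_num) _ _).symm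
      _ ≤ (2 : ℝ) ^ ((l k : ℝ) - (k : ℝ) / 2 - 1) := Real.rpow_le_rpow_of_exponent_le (by norm_num) (by linarith)
  · unfold la
    rw [div_mul_cancel₀ _ hq.ne']
    exact Real.rpow_le_one_of_one_le_of_nonpos (by norm_num) (by linarith)
  · unfold e2 la
    rw [div_mul_eq_mul_div, div_le_one hq, ← Real.rpow_add (by norm_num)]
    have h5 : (l k : ℝ) - (k : ℝ) / 2 - 1 + ((k : ℝ) / 2 - (l k : ℝ)) = -1 := by ring
    rw [h5]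
    have h6 : (2 : ℝ) ^ (-1 : ℝ) ≤ 1 := Real.rpow_le_one_of_one_le_of_nonpos (by norm_num) (by norm_num)
    linarith

end T3

theorem t3 (hGG : S_GG) : S_T3 := by
  intro l hl c hc
  obtain ⟨k₀, hk₀⟩ := T3.adm l hl
  obtain ⟨P, w, c₀, k₁, hc₀, hP, hw, hcl, hmain⟩ := hGG l (fun k => l k + 1) (T3.la l) k₀ hk₀ c hc
  refine ⟨P, w, c₀ / 48, max k₁ 1, by positivity, hP, hw, hcl, fun k hk => ?_⟩
  obtain ⟨a, y, h1, h2⟩ := hmain k (le_trans (le_max_left _ _) hk)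
  refine ⟨a, y, h1, le_trans ?_ h2⟩
  have hk1 : (1 : ℝ) ≤ k := by exact_mod_cast (le_trans (le_max_right _ _) hk)
  have h3 : ((fun k => l k + 1) k : ℕ) = l k + 1 := rfl
  have h4 : (((l k + 1 : ℕ) : ℝ) - (l k : ℝ)) = 1 := by push_cast; ring
  have hA : (2 : ℝ) ^ ((l k : ℝ) - (k : ℝ) / 2 - 1) * 2 ^ k = (2 : ℝ) ^ (l k) * (2 : ℝ) ^ ((k : ℝ) / 2) / 2 := by
    rw [← Real.rpow_natCast 2 k, ← Real.rpow_natCast 2 (l k), ← Real.rpow_add (by norm_num), ← Real.rpow_add (by norm_num)]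
    have h5 : (l k : ℝ) - (k : ℝ) / 2 - 1 + (k : ℝ) = ((l k : ℝ) + (k : ℝ) / 2) - 1 := by ring
    rw [h5, Real.rpow_sub (by norm_num), Real.rpow_one]
  have hX : (0 : ℝ) < (2 : ℝ) ^ (l k) * (2 : ℝ) ^ ((k : ℝ) / 2) :=
    mul_pos (by positivity) (Real.rpow_pos_of_pos (by norm_num) _)
  show c₀ / 48 * 2 ^ (l k) * (2 : ℝ) ^ ((k : ℝ) / 2) / k ^ 3 ≤
    c₀ * T3.la l k * (((l k + 1 : ℕ) : ℝ) - (l k : ℝ)) * 2 ^ k / k ^ 2
  rw [h4]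
  have hB : c₀ * T3.la l k * 1 * 2 ^ k / k ^ 2 =
      c₀ * ((2 : ℝ) ^ (l k) * (2 : ℝ) ^ ((k : ℝ) / 2)) / (2 * (4 * (k : ℝ) + 20) * k ^ 2) := by
    have h5 : c₀ * T3.la l k * 1 * 2 ^ k / k ^ 2 =
        c₀ * ((2 : ℝ) ^ ((l k : ℝ) - (k : ℝ) / 2 - 1) * 2 ^ k) / (4 * (k : ℝ) + 20) / k ^ 2 := by
      unfold T3.la
      ring
    rw [h5, hA]
    have : (4 * (k : ℝ) + 20) ≠ 0 := by positivity
    have : (k : ℝ) ≠ 0 := by positivity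
    field_simp
  rw [hB]
  have hC : c₀ / 48 * 2 ^ (l k) * (2 : ℝ) ^ ((k : ℝ) / 2) / k ^ 3 =
      c₀ * ((2 : ℝ) ^ (l k) * (2 : ℝ) ^ ((k : ℝ) / 2)) / (48 * k ^ 3) := by
    have : (k : ℝ) ≠ 0 := by positivity
    field_simp
  rw [hC]
  refine div_le_div_of_nonneg_left (mul_pos hc₀ hX).le (by positivity) ?_
  have hk2 : 0 < (k : ℝ) ^ 2 := by positivity
  nlinarith

end Pool.Agent.H414.GE
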